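import Mathlib

set_option autoImplicit false

/-! Posets which look, from the top, like an interval of the lattice of a regular tree. -/

namespace Pool.Agent.Helper87.ML

/-- A poset with the local structure of an interval of the lattice of the `n`-regular tree:
`k x` is the length of `[x, top]`, `d x` its type, `s x` the join of the covers of `x`. -/
structure Arb (n : ℕ) (P : Type*) [PartialOrder P] where
  k : P → ℕ
  d : P → ℕ
  s : P → P
  k_cov : ∀ {x y : P}, x ⋖ y → k y + 1 = k x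
  k_lt : ∀ {x y : P}, x < y → k y < k x
  cov : ∀ {x z : P}, x < z → ∃ y, x ⋖ y ∧ y ≤ z
  ex : ∀ x, k x ≠ 0 → ∃ y, x ⋖ y
  unb : ∀ x, d x = k x → ∀ y y', x ⋖ y → x ⋖ y' → y = y'
  unb' : ∀ x, d x = k x → ∀ y, x ⋖ y → d y = k y
  card : ∀ x, d x ≠ k x → {y | x ⋖ y}.ncard = n
  join : ∀ x, d x ≠ k x → ∀ y y', x ⋖ y → x ⋖ y' → y ≠ y' → ∀ z, y ≤ z → y' ≤ z → s x ≤ z
  s_cov : ∀ x, d x ≠ k x → ∀ y, x ⋖ y → y ⋖ s x
  s_d : ∀ x, d x ≠ k x → d (s x) = d x
  s_inj : ∀ x, d x ≠ k x → ∀ y y', x ⋖ y → x ⋖ y' → d y ≠ k y → d y' ≠ k y' →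
    s y = s y' → y = y'
  s_surj : ∀ x, d x ≠ k x → d (s x) ≠ k (s x) → ∀ e, s x ⋖ e → ∃ y, x ⋖ y ∧ d y ≠ k y ∧ s y = e
  d_zero : ∀ x, d x ≠ k x → d x = 0 → ∀ y, x ⋖ y → d y = 1
  d_pos : ∀ x, d x ≠ k x → d x ≠ 0 →
    ∃ y0, x ⋖ y0 ∧ d y0 + 1 = d x ∧ ∀ y, x ⋖ y → y ≠ y0 → d y = d x + 1

namespace Arb

variable {n : ℕ} {P P' : Type*} [PartialOrder P] [PartialOrder P']

lemma covBy_of_k (A : Arb n P) {x y : P} (h : x < y) (hk : A.k y + 1 = A.k x) : x ⋖ y := by
  refine ⟨h, fun z hxz hzy => ?_⟩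
  have h1 := A.k_lt hxz
  have h2 := A.k_lt hzy
  omega

lemma eq_of_le_of_k (A : Arb n P) {x y : P} (h : x ≤ y) (hk : A.k x = A.k y) : x = y := by
  rcases eq_or_lt_of_le h with h | h
  · exact h
  · have := A.k_lt h; omega

/-- type preserving isomorphism between the upper sets of `x` and `x'` -/
structure TIso (A : Arb n P) (A' : Arb n P') (x : P) (x' : P') (f : P → P') (g : P' → P) :
    Prop where
  le : ∀ z, x ≤ z → x' ≤ f z
  le' : ∀ z', x' ≤ z' → x ≤ g z'
  gf : ∀ z, x ≤ z → g (f z) = z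
  fg : ∀ z', x' ≤ z' → f (g z') = z'
  mono : ∀ z w, x ≤ z → x ≤ w → (z ≤ w ↔ f z ≤ f w)
  k : ∀ z, x ≤ z → A'.k (f z) = A.k z
  d : ∀ z, x ≤ z → A'.d (f z) = A.d z

variable {A : Arb n P} {A' : Arb n P'}

namespace TIso

variable {x : P} {x' : P'} {f : P → P'} {g : P' → P}

lemma map_base (h : TIso A A' x x' f g) : f x = x' := by
  apply le_antisymm _ (h.le x le_rfl)
  have h1 := h.le' x' le_rfl
  rw [h.mono x _ le_rfl h1, h.fg x' le_rfl] at h1
  exact h1

lemma base_k (h : TIso A A' x x' f g) : A'.k x' = A.k x := by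
  rw [← h.map_base]; exact h.k x le_rfl

lemma base_d (h : TIso A A' x x' f g) : A'.d x' = A.d x := by
  rw [← h.map_base]; exact h.d x le_rfl

lemma restrict (h : TIso A A' x x' f g) {y : P} (hy : x ≤ y) : TIso A A' y (f y) f g where
  le z hz := (h.mono y z hy (hy.trans hz)).1 hz
  le' z' hz' := by
    have h1 : x' ≤ z' := (h.le y hy).trans hz'
    rw [h.mono y _ hy (h.le' z' h1), h.fg z' h1]
    exact hz'
  gf z hz := h.gf z (hy.trans hz)
  fg z' hz' := h.fg z' ((h.le y hy).trans hz')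
  mono z w hz hw := h.mono z w (hy.trans hz) (hy.trans hw)
  k z hz := h.k z (hy.trans hz)
  d z hz := h.d z (hy.trans hz)

lemma lt (h : TIso A A' x x' f g) {z w : P} (hz : x ≤ z) (hzw : z < w) : f z < f w := by
  have hw : x ≤ w := hz.trans hzw.le
  apply lt_of_le_of_ne ((h.mono z w hz hw).1 hzw.le)
  intro he
  have := h.gf z hz
  rw [he, h.gf w hw] at this
  exact hzw.ne this.symm

lemma covBy (h : TIso A A' x x' f g) {z w : P} (hz : x ≤ z) (hzw : z ⋖ w) : f z ⋖ f w := by
  apply A'.covBy_of_k (h.lt hz hzw.lt)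
  rw [h.k z hz, h.k w (hz.trans hzw.le)]
  exact A.k_cov hzw

lemma symm (h : TIso A A' x x' f g) : TIso A' A x' x g f where
  le := h.le'
  le' := h.le
  gf := h.fg
  fg := h.gf
  mono z w hz hw := by
    rw [h.mono _ _ (h.le' z hz) (h.le' w hw), h.fg z hz, h.fg w hw]
  k z hz := by rw [← h.k _ (h.le' z hz), h.fg z hz]
  d z hz := by rw [← h.d _ (h.le' z hz), h.fg z hz]

lemma map_inj (h : TIso A A' x x' f g) {z w : P} (hz : x ≤ z) (hw : x ≤ w) (he : f z = f w) :
    z = w := by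
  rw [← h.gf z hz, he, h.gf w hw]

lemma s (hn : 2 ≤ n) (h : TIso A A' x x' f g) {z : P} (hz : x ≤ z) (hb : A.d z ≠ A.k z) :
    f (A.s z) = A'.s (f z) := by
  have hcard := A.card z hb
  obtain ⟨y, y', hy, hy', hne⟩ : ∃ y y', z ⋖ y ∧ z ⋖ y' ∧ y ≠ y' := by
    have hfin : {y | z ⋖ y}.Finite := Set.finite_of_ncard_pos (by omega)
    have h1 : 1 < {y | z ⋖ y}.ncard := by omega
    obtain ⟨a, ha, b, hb, hab⟩ := (Set.one_lt_ncard hfin).1 h1
    exact ⟨a, b, ha, hb, hab⟩
  have hzy : x ≤ y := hz.trans hy.le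
  have hzy' : x ≤ y' := hz.trans hy'.le
  have hs : z ≤ A.s z := hy.le.trans (A.s_cov z hb y hy).le
  have hb' : A'.d (f z) ≠ A'.k (f z) := by rw [h.d z hz, h.k z hz]; exact hb
  have h1 : A'.s (f z) ≤ f (A.s z) := by
    refine A'.join (f z) hb' (f y) (f y') (h.covBy hz hy) (h.covBy hz hy') ?_ _ ?_ ?_
    · intro he; exact hne (h.map_inj hzy hzy' he)
    · exact (h.mono _ _ hzy (hz.trans hs)).1 (A.s_cov z hb y hy).le
    · exact (h.mono _ _ hzy' (hz.trans hs)).1 (A.s_cov z hb y' hy').le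
  refine (A'.eq_of_le_of_k h1 ?_).symm
  have h2 := A.k_cov (A.s_cov z hb y hy)
  have h3 := A.k_cov hy
  have h4 := A'.k_cov (h.covBy hz hy)
  have h5 := A'.k_cov (A'.s_cov (f z) hb' (f y) (h.covBy hz hy))
  have h6 := h.k y hzy
  have h7 := h.k _ (hz.trans hs)
  omega

end TIso

open Classical in
/-- gluing -/
lemma glue {x : P} {x' : P'} (hk : A'.k x' = A.k x) (hd : A'.d x' = A.d x) {s : P} {s' : P'}
    {fs : P → P'} {gs : P' → P} (π : {y // x ⋖ y} ≃ {y' // x' ⋖ y'})
    (f : {y // x ⋖ y} → P → P') (g : {y // x ⋖ y} → P' → P)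
    (h : ∀ b, TIso A A' b.1 (π b).1 (f b) (g b))
    (hf : ∀ b z, s ≤ z → b.1 ≤ z → f b z = fs z) (hg : ∀ b z', s' ≤ z' → (π b).1 ≤ z' → g b z' = gs z')
    (hj : ∀ b b' : {y // x ⋖ y}, b ≠ b' → ∀ z, b.1 ≤ z → b'.1 ≤ z → s ≤ z)
    (hj' : ∀ b b' : {y // x' ⋖ y}, b ≠ b' → ∀ z, b.1 ≤ z → b'.1 ≤ z → s' ≤ z) :
    ∃ F G, TIso A A' x x' F G ∧ ∀ (b : {y // x ⋖ y}) z, b.1 ≤ z → F z = f b z := by
  let F : P → P' := fun z => if hz : ∃ b : {y // x ⋖ y}, b.1 ≤ z then f hz.choose z else x'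
  let G : P' → P := fun z => if hz : ∃ b : {y // x ⋖ y}, (π b).1 ≤ z then g hz.choose z else x
  have hF : ∀ (b : {y // x ⋖ y}) z, b.1 ≤ z → F z = f b z := by
    intro b z hb
    have hz : ∃ b : {y // x ⋖ y}, b.1 ≤ z := ⟨b, hb⟩
    have : F z = f hz.choose z := dif_pos hz
    rw [this]
    by_cases he : hz.choose = b
    · rw [he]
    · have hs := hj _ _ he z hz.choose_spec hb
      rw [hf _ z hs hz.choose_spec, hf _ z hs hb]
  have hG : ∀ (b : {y // x ⋖ y}) z, (π b).1 ≤ z → G z = g b z := by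
    intro b z hb
    have hz : ∃ b : {y // x ⋖ y}, (π b).1 ≤ z := ⟨b, hb⟩
    have : G z = g hz.choose z := dif_pos hz
    rw [this]
    by_cases he : hz.choose = b
    · rw [he]
    · have hs := hj' (π hz.choose) (π b) (fun h' => he (π.injective h')) z hz.choose_spec hb
      rw [hg _ z hs hz.choose_spec, hg _ z hs hb]
  have hFx : F x = x' := by
    refine dif_neg ?_
    rintro ⟨b, hb⟩
    exact absurd b.2.lt (not_lt_of_ge hb)
  have hGx : G x' = x := by
    refine dif_neg ?_
    rintro ⟨b, hb⟩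
    exact absurd (π b).2.lt (not_lt_of_ge hb)
  have hcase : ∀ z, x ≤ z → z = x ∨ ∃ b : {y // x ⋖ y}, b.1 ≤ z := by
    intro z hz
    rcases eq_or_lt_of_le hz with h1 | h1
    · exact Or.inl h1.symm
    · obtain ⟨y, hy, hyz⟩ := A.cov h1
      exact Or.inr ⟨⟨y, hy⟩, hyz⟩
  have hcase' : ∀ z, x' ≤ z → z = x' ∨ ∃ b : {y // x ⋖ y}, (π b).1 ≤ z := by
    intro z hz
    rcases eq_or_lt_of_le hz with h1 | h1
    · exact Or.inl h1.symm
    · obtain ⟨y, hy, hyz⟩ := A'.cov h1
      exact Or.inr ⟨π.symm ⟨y, hy⟩, by rw [π.apply_symm_apply]; exact hyz⟩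
  refine ⟨F, G, ?_, hF⟩
  constructor
  · intro z hz
    rcases hcase z hz with rfl | ⟨b, hb⟩
    · rw [hFx]
    · rw [hF b z hb]
      exact (π b).2.le.trans ((h b).le z hb)
  · intro z hz
    rcases hcase' z hz with rfl | ⟨b, hb⟩
    · rw [hGx]
    · rw [hG b z hb]
      exact b.2.le.trans ((h b).le' z hb)
  · intro z hz
    rcases hcase z hz with rfl | ⟨b, hb⟩
    · rw [hFx, hGx]
    · rw [hF b z hb, hG b _ ((h b).le z hb), (h b).gf z hb]
  · intro z hz
    rcases hcase' z hz with rfl | ⟨b, hb⟩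
    · rw [hGx, hFx]
    · rw [hG b z hb, hF b _ ((h b).le' z hb), (h b).fg z hb]
  · intro z w hz hw
    rcases hcase z hz with rfl | ⟨b, hb⟩
    · rw [hFx]
      refine ⟨fun _ => ?_, fun _ => hw⟩
      rcases hcase w hw with rfl | ⟨b', hb'⟩
      · rw [hFx]
      · rw [hF b' w hb']
        exact (π b').2.le.trans ((h b').le w hb')
    · rcases hcase w hw with rfl | ⟨b', hb'⟩
      · rw [hFx]
        constructor
        · intro hzw
          exact absurd (b.2.lt.trans_le (hb.trans hzw)) (lt_irrefl _)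
        · intro hzw
          rw [hF b z hb] at hzw
          exact absurd ((π b).2.lt.trans_le (((h b).le z hb).trans hzw)) (lt_irrefl _)
      · constructor
        · intro hzw
          have hbw : b.1 ≤ w := hb.trans hzw
          rw [hF b z hb, hF b w hbw]
          exact ((h b).mono z w hb hbw).1 hzw
        · intro hzw
          rw [hF b z hb] at hzw
          have h1 : (π b).1 ≤ F w := ((h b).le z hb).trans hzw
          have h2 : G (F w) = w := by
            rw [hF b' w hb', hG b' _ ((h b').le w hb'), (h b').gf w hb']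
          have hbw : b.1 ≤ w := by
            rw [← h2, hG b _ h1]
            exact (h b).le' _ h1
          rw [hF b w hbw] at hzw
          exact ((h b).mono z w hb hbw).2 hzw
  · intro z hz
    rcases hcase z hz with rfl | ⟨b, hb⟩
    · rw [hFx, hk]
    · rw [hF b z hb, (h b).k z hb]
  · intro z hz
    rcases hcase z hz with rfl | ⟨b, hb⟩
    · rw [hFx, hd]
    · rw [hF b z hb, (h b).d z hb]

open Classical in
lemma exists_perm {x : P} {x' : P'} (hk : A'.k x' = A.k x) (hd : A'.d x' = A.d x)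
    (hb : A.d x ≠ A.k x) {t : P} {t' : P'} (ht : x ⋖ t) (ht' : x' ⋖ t') (hdt : A'.d t' = A.d t)
    (hn : 2 ≤ n) :
    ∃ π : {y // x ⋖ y} ≃ {y' // x' ⋖ y'}, (π ⟨t, ht⟩).1 = t' ∧ ∀ b, A'.d (π b).1 = A.d b.1 := by
  have hb' : A'.d x' ≠ A'.k x' := by rw [hd, hk]; exact hb
  have hc := A.card x hb
  have hc' := A'.card x' hb'
  have hfin : Finite {y // x ⋖ y} := Set.finite_of_ncard_pos (s := {y | x ⋖ y}) (by omega)
  have hfin' : Finite {y // x' ⋖ y} := Set.finite_of_ncard_pos (s := {y | x' ⋖ y}) (by omega)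
  have hcard : Nat.card {y // x ⋖ y} = Nat.card {y' // x' ⋖ y'} := by
    have h1 : Nat.card {y // x ⋖ y} = n := hc
    have h2 : Nat.card {y // x' ⋖ y} = n := hc'
    rw [h1, h2]
  obtain ⟨e0⟩ := Finite.card_eq.1 hcard
  by_cases h0 : A.d x = 0
  · refine ⟨e0.trans (Equiv.swap (e0 ⟨t, ht⟩) ⟨t', ht'⟩), ?_, ?_⟩
    · simp
    · intro b
      rw [A'.d_zero x' hb' (by rw [hd, h0]) _ (Subtype.prop _), A.d_zero x hb h0 _ b.2]
  · obtain ⟨y0, hy0, hd0, hy⟩ := A.d_pos x hb h0
    obtain ⟨y0', hy0', hd0', hy'⟩ := A'.d_pos x' hb' (by rw [hd]; exact h0)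
    set e1 := e0.trans (Equiv.swap (e0 ⟨y0, hy0⟩) ⟨y0', hy0'⟩) with he1
    have h1 : e1 ⟨y0, hy0⟩ = ⟨y0', hy0'⟩ := by simp [he1]
    set e2 := e1.trans (Equiv.swap (e1 ⟨t, ht⟩) ⟨t', ht'⟩) with he2
    have h2 : e2 ⟨t, ht⟩ = ⟨t', ht'⟩ := by simp [he2]
    have h3 : e2 ⟨y0, hy0⟩ = ⟨y0', hy0'⟩ := by
      by_cases hty : t = y0
      · subst hty
        rw [h2]
        have : t' = y0' := by
          by_contra hne
          have := hy' t' ht' hne
          omega
        subst this
        rfl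
      · have hne : t' ≠ y0' := by
          rintro rfl
          have := hy t ht hty
          omega
        have h4 : e2 ⟨y0, hy0⟩ = Equiv.swap (e1 ⟨t, ht⟩) ⟨t', ht'⟩ (e1 ⟨y0, hy0⟩) := rfl
        rw [h4, h1]
        apply Equiv.swap_apply_of_ne_of_ne
        · intro he
          rw [← h1] at he
          have := e1.injective he
          exact hty (congrArg Subtype.val this).symm
        · intro he
          exact hne (congrArg Subtype.val he).symm
    refine ⟨e2, by rw [h2], ?_⟩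
    intro b
    by_cases hby : b.1 = y0
    · have hb2 : b = ⟨y0, hy0⟩ := Subtype.ext hby
      rw [hb2, h3]
      show A'.d y0' = A.d y0
      omega
    · have hne : (e2 b).1 ≠ y0' := by
        intro he
        have h5 : e2 b = e2 ⟨y0, hy0⟩ := by rw [h3]; exact Subtype.ext he
        exact hby (congrArg Subtype.val (e2.injective h5))
      rw [hy' _ (e2 b).2 hne, hy _ b.2 hby, hd]

/-- extension of isomorphisms downwards -/
theorem ext (hn : 2 ≤ n) (m : ℕ) : ∀ (x : P) (x' : P'), A.k x = m → A'.k x' = m →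
    A'.d x' = A.d x → ∀ (t : P) (t' : P') (f : P → P') (g : P' → P), x ⋖ t → x' ⋖ t' →
    TIso A A' t t' f g → (A.d x ≠ A.k x → f (A.s x) = A'.s x') →
    ∃ F G, TIso A A' x x' F G ∧ ∀ z, t ≤ z → F z = f z := by
  induction m using Nat.strong_induction_on with
  | _ m ih =>
    intro x x' hkx hkx' hd t t' f g ht ht' hT hs
    have hk : A'.k x' = A.k x := by rw [hkx, hkx']
    by_cases hb : A.d x = A.k x
    · -- unbranched
      have hb' : A'.d x' = A'.k x' := by rw [hd, hk, hb]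
      have huniq : ∀ b : {y // x ⋖ y}, b = ⟨t, ht⟩ := fun b =>
        Subtype.ext (A.unb x hb _ _ b.2 ht)
      have huniq' : ∀ b : {y // x' ⋖ y}, b = ⟨t', ht'⟩ := fun b =>
        Subtype.ext (A'.unb x' hb' _ _ b.2 ht')
      let π : {y // x ⋖ y} ≃ {y' // x' ⋖ y'} :=
        ⟨fun _ => ⟨t', ht'⟩, fun _ => ⟨t, ht⟩, fun b => (huniq b).symm, fun b => (huniq' b).symm⟩
      obtain ⟨F, G, hFG, hF⟩ := glue (A := A) (A' := A') hk hd (s := t) (s' := t') (fs := f)
        (gs := g) π (fun _ => f) (fun _ => g) (fun b => by rw [huniq b]; exact hT)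
        (fun _ _ _ _ => rfl) (fun _ _ _ _ => rfl)
        (fun b b' hne => absurd ((huniq b).trans (huniq b').symm) hne)
        (fun b b' hne => absurd ((huniq' b).trans (huniq' b').symm) hne)
      exact ⟨F, G, hFG, fun z hz => hF ⟨t, ht⟩ z hz⟩
    · have hb' : A'.d x' ≠ A'.k x' := by rw [hd, hk]; exact hb
      have hst : t ⋖ A.s x := A.s_cov x hb t ht
      have hst' : t' ⋖ A'.s x' := A'.s_cov x' hb' t' ht'
      have hsx := hs hb
      have hft : f t = t' := hT.map_base
      have hTs : TIso A A' (A.s x) (A'.s x') f g := by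
        rw [← hsx]; exact hT.restrict hst.le
      -- the bijection between the covers
      obtain ⟨π, hπt, hπd, hπs⟩ : ∃ π : {y // x ⋖ y} ≃ {y' // x' ⋖ y'}, (π ⟨t, ht⟩).1 = t' ∧
          (∀ b, A'.d (π b).1 = A.d b.1) ∧
          ∀ b : {y // x ⋖ y}, A.d b.1 ≠ A.k b.1 → f (A.s b.1) = A'.s (π b).1 := by
        by_cases hbs : A.d (A.s x) = A.k (A.s x)
        · obtain ⟨π, h1, h2⟩ := exists_perm (A := A) (A' := A') hk hd hb ht ht' hT.base_d hn
          refine ⟨π, h1, h2, ?_⟩
          intro b hbb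
          have hbk : A'.k (π b).1 = A.k b.1 := by
            have := A.k_cov b.2
            have := A'.k_cov (π b).2
            omega
          have hbb' : A'.d (π b).1 ≠ A'.k (π b).1 := by rw [h2 b, hbk]; exact hbb
          have hbs' : A'.d (A'.s x') = A'.k (A'.s x') := by
            rw [← hsx, hT.d _ hst.le, hT.k _ hst.le]; exact hbs
          have h3 : A.s x ⋖ A.s b.1 := A.s_cov b.1 hbb _ (A.s_cov x hb _ b.2)
          have h4 : A'.s x' ⋖ A'.s (π b).1 := A'.s_cov _ hbb' _ (A'.s_cov x' hb' _ (π b).2)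
          have h5 : A'.s x' ⋖ f (A.s b.1) := by
            rw [← hsx]; exact hT.covBy hst.le h3
          exact A'.unb _ hbs' _ _ h5 h4
        · have hall : ∀ b : {y // x ⋖ y}, A.d b.1 ≠ A.k b.1 := by
            intro b hbb
            exact hbs (A.unb' b.1 hbb _ (A.s_cov x hb _ b.2))
          have hbs' : A'.d (A'.s x') ≠ A'.k (A'.s x') := by
            rw [← hsx, hT.d _ hst.le, hT.k _ hst.le]; exact hbs
          have hall' : ∀ b : {y // x' ⋖ y}, A'.d b.1 ≠ A'.k b.1 := by
            intro b hbb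
            exact hbs' (A'.unb' b.1 hbb _ (A'.s_cov x' hb' _ b.2))
          have hex : ∀ b : {y // x ⋖ y}, ∃ b' : {y // x' ⋖ y}, A'.s b'.1 = f (A.s b.1) := by
            intro b
            have h3 : A.s x ⋖ A.s b.1 := A.s_cov b.1 (hall b) _ (A.s_cov x hb _ b.2)
            have h5 : A'.s x' ⋖ f (A.s b.1) := by
              rw [← hsx]; exact hT.covBy hst.le h3
            obtain ⟨y, hy, -, hy'⟩ := A'.s_surj x' hb' hbs' _ h5
            exact ⟨⟨y, hy⟩, hy'⟩
          choose p hp using hex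
          have hsb : ∀ b : {y // x ⋖ y}, t ≤ A.s b.1 := fun b =>
            hst.le.trans (A.s_cov b.1 (hall b) _ (A.s_cov x hb _ b.2)).le
          have hinj : Function.Injective p := by
            intro b b' he
            have h1 := hp b
            rw [he, hp b'] at h1
            have h2 := hT.map_inj (hsb b') (hsb b) h1
            exact Subtype.ext (A.s_inj x hb _ _ b.2 b'.2 (hall b) (hall b') h2.symm)
          have hc := A.card x hb
          have hc' := A'.card x' hb'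
          have hfin : Finite {y // x ⋖ y} :=
            Set.finite_of_ncard_pos (s := {y | x ⋖ y}) (by omega)
          have hfin' : Finite {y // x' ⋖ y} :=
            Set.finite_of_ncard_pos (s := {y | x' ⋖ y}) (by omega)
          have hcard : Nat.card {y // x ⋖ y} = Nat.card {y' // x' ⋖ y'} := by
            have h1 : Nat.card {y // x ⋖ y} = n := hc
            have h2 : Nat.card {y // x' ⋖ y} = n := hc'
            rw [h1, h2]
          have hbij : Function.Bijective p :=
            (Nat.bijective_iff_injective_and_card p).2 ⟨hinj, hcard⟩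
          refine ⟨Equiv.ofBijective p hbij, ?_, ?_, ?_⟩
          · show (p ⟨t, ht⟩).1 = t'
            have h1 := hp ⟨t, ht⟩
            have h2 : f (A.s t) = A'.s t' := by
              rw [hT.s hn le_rfl (hall ⟨t, ht⟩), hft]
            have h3 : A'.s (p ⟨t, ht⟩).1 = A'.s t' := h1.trans h2
            exact A'.s_inj x' hb' _ _ (p ⟨t, ht⟩).2 ht' (hall' _) (hall' ⟨t', ht'⟩) h3
          · intro b
            show A'.d (p b).1 = A.d b.1
            rw [← A'.s_d _ (hall' (p b)), hp b, hT.d _ (hsb b), A.s_d _ (hall b)]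
          · intro b _
            exact (hp b).symm
      -- the isomorphisms of the upper sets of the covers
      have key : ∀ b : {y // x ⋖ y}, ∃ fb gb, TIso A A' b.1 (π b).1 fb gb ∧
          (∀ z, A.s x ≤ z → fb z = f z) ∧ (b.1 = t → fb = f ∧ gb = g) := by
        intro b
        by_cases hbt : b.1 = t
        · refine ⟨f, g, ?_, fun _ _ => rfl, fun _ => ⟨rfl, rfl⟩⟩
          have h1 : b = ⟨t, ht⟩ := Subtype.ext hbt
          rw [h1, hπt]
          exact hT
        · have hkb := A.k_cov b.2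
          have hkb' := A'.k_cov (π b).2
          obtain ⟨F, G, h1, h2⟩ := ih (m - 1) (by omega) b.1 (π b).1 (by omega) (by omega)
            (hπd b) (A.s x) (A'.s x') f g (A.s_cov x hb _ b.2) (A'.s_cov x' hb' _ (π b).2) hTs
            (hπs b)
          exact ⟨F, G, h1, h2, fun h => absurd h hbt⟩
      choose fb gb h1 h2 h3 using key
      obtain ⟨F, G, hFG, hF⟩ := glue (A := A) (A' := A') hk hd (s := A.s x) (s' := A'.s x')
        (fs := f) (gs := g) π fb gb h1 (fun b z hz _ => h2 b z hz)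
        (fun b z' hz' hbz' => by
          have h4 : A.s x ≤ g z' := hTs.le' z' hz'
          have h5 : fb b (g z') = z' := by rw [h2 b _ h4, hTs.fg z' hz']
          have h6 : b.1 ≤ g z' := (A.s_cov x hb _ b.2).le.trans h4
          have h7 := (h1 b).gf (g z') h6
          rw [h5] at h7
          exact h7)
        (fun b b' hne z hz hz' => A.join x hb _ _ b.2 b'.2 (fun h => hne (Subtype.ext h)) z hz hz')
        (fun b b' hne z hz hz' =>
          A'.join x' hb' _ _ b.2 b'.2 (fun h => hne (Subtype.ext h)) z hz hz')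
      refine ⟨F, G, hFG, fun z hz => ?_⟩
      rw [hF ⟨t, ht⟩ z hz, (h3 ⟨t, ht⟩ rfl).1]

/-- existence of isomorphisms -/
theorem exists_tiso (hn : 2 ≤ n) (m : ℕ) : ∀ (x : P) (x' : P'), A.k x = m → A'.k x' = m →
    A'.d x' = A.d x → (∃ F G, TIso A A' x x' F G) ∧
    ∀ (t : P) (t' : P'), x ⋖ t → x' ⋖ t' → A'.d t' = A.d t →
      ∃ F G, TIso A A' x x' F G ∧ F t = t' := by
  induction m using Nat.strong_induction_on with
  | _ m ih =>
    intro x x' hkx hkx' hd
    have hk : A'.k x' = A.k x := by rw [hkx, hkx']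
    have part2 : ∀ (t : P) (t' : P'), x ⋖ t → x' ⋖ t' → A'.d t' = A.d t →
        ∃ F G, TIso A A' x x' F G ∧ F t = t' := by
      intro t t' ht ht' hdt
      have hkt := A.k_cov ht
      have hkt' := A'.k_cov ht'
      obtain ⟨ih1, ih2⟩ := ih (m - 1) (by omega) t t' (by omega) (by omega) hdt
      obtain ⟨f, g, hT, hs⟩ : ∃ f g, TIso A A' t t' f g ∧ (A.d x ≠ A.k x → f (A.s x) = A'.s x') := by
        by_cases hb : A.d x = A.k x
        · obtain ⟨f, g, h⟩ := ih1
          exact ⟨f, g, h, fun h' => absurd hb h'⟩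
        · have hb' : A'.d x' ≠ A'.k x' := by rw [hd, hk]; exact hb
          obtain ⟨f, g, h1, h2⟩ := ih2 (A.s x) (A'.s x') (A.s_cov x hb t ht)
            (A'.s_cov x' hb' t' ht') (by rw [A.s_d x hb, A'.s_d x' hb', hd])
          exact ⟨f, g, h1, fun _ => h2⟩
      obtain ⟨F, G, h1, h2⟩ := ext hn m x x' hkx hkx' hd t t' f g ht ht' hT hs
      exact ⟨F, G, h1, by rw [h2 t le_rfl, hT.map_base]⟩
    refine ⟨?_, part2⟩
    by_cases hm : m = 0
    · have hx : ∀ z, x ≤ z → z = x := by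
        intro z hz
        rcases eq_or_lt_of_le hz with h | h
        · exact h.symm
        · have := A.k_lt h; omega
      have hx' : ∀ z, x' ≤ z → z = x' := by
        intro z hz
        rcases eq_or_lt_of_le hz with h | h
        · exact h.symm
        · have := A'.k_lt h; omega
      refine ⟨fun _ => x', fun _ => x, ?_⟩
      constructor
      · intro z _; exact le_rfl
      · intro z _; exact le_rfl
      · intro z hz; exact (hx z hz).symm
      · intro z hz; exact (hx' z hz).symm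
      · intro z w hz hw
        rw [hx z hz, hx w hw]; simp
      · intro z hz; rw [hx z hz, hk]
      · intro z hz; rw [hx z hz, hd]
    · obtain ⟨t, ht⟩ := A.ex x (by omega)
      obtain ⟨t', ht'⟩ := A'.ex x' (by omega)
      have hkt := A.k_cov ht
      have hkt' := A'.k_cov ht'
      by_cases hb : A.d x = A.k x
      · have hb' : A'.d x' = A'.k x' := by rw [hd, hk]; exact hb
        obtain ⟨F, G, h, -⟩ := part2 t t' ht ht' (by
          rw [A.unb' x hb t ht, A'.unb' x' hb' t' ht']; omega)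
        exact ⟨F, G, h⟩
      · have hb' : A'.d x' ≠ A'.k x' := by rw [hd, hk]; exact hb
        by_cases h0 : A.d x = 0
        · obtain ⟨F, G, h, -⟩ := part2 t t' ht ht' (by
            rw [A.d_zero x hb h0 t ht, A'.d_zero x' hb' (by rw [hd, h0]) t' ht'])
          exact ⟨F, G, h⟩
        · obtain ⟨y0, hy0, hd0, -⟩ := A.d_pos x hb h0
          obtain ⟨y0', hy0', hd0', -⟩ := A'.d_pos x' hb' (by rw [hd]; exact h0)
          obtain ⟨F, G, h, -⟩ := part2 y0 y0' hy0 hy0' (by omega)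
          exact ⟨F, G, h⟩

end Arb

end Pool.Agent.Helper87.ML
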