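import Pool.Agent.Helper87.ML.Main

set_option autoImplicit false

/-! Classification of the finite and the finitary modular lattices of breadth at most two all of
whose intervals are self-dual. -/

namespace Pool.Agent.Helper87.ML.BreadthTwo

open Pool.Agent.Helper87.ML Pool.Agent.Helper87.ML.TreePt

universe u

theorem result :
    (∀ (L : Type u) [Lattice L] [Nonempty L], (∀ x : L, (Set.Iic x).Finite) →
      ((IsModularLattice L ∧ Breadth2 L ∧ SD' L) ↔
        ∃ (n : ℕ) (hn : 2 ≤ n) (d c : ℕ∞), Nonempty (L ≃o Model hn d c))) ∧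
    (∀ (n : ℕ) (hn : 2 ≤ n) (d c : ℕ∞),
      (∀ x y : Model hn d c, (∃ j, IsLUB {x, y} j) ∧ ∃ g, IsGLB {x, y} g) ∧
      (∀ x : Model hn d c, (Set.Iic x).Finite ∧ {y | x ⋖ y}.Finite) ∧
      (Finite (Model hn d c) ↔ d ≠ ⊤ ∧ c ≠ ⊤)) ∧
    (∀ (n n' : ℕ) (hn : 2 ≤ n) (hn' : 2 ≤ n') (d c d' c' : ℕ∞),
      Nonempty (Model hn d c ≃o Model hn' d' c') ↔
        (c = 0 ∧ c' = 0 ∧ d = d') ∨ (c = ⊤ ∧ c' = ⊤ ∧ n = n') ∨
          (n = n' ∧ d = d' ∧ c = c')) := by
  refine ⟨?_, ?_, ?_⟩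
  · intro L _ _ hfin
    constructor
    · rintro ⟨hm, hb, hs⟩
      exact classify_fwd hfin hm hb hs
    · rintro ⟨n, hn, d, c, ⟨φ⟩⟩
      exact classify_bwd hn d c φ
  · intro n hn d c
    exact ⟨(model_lattice hn d c).1, (model_lattice hn d c).2, model_finite hn d c⟩
  · intro n n' hn hn' d c d' c'
    exact model_iso hn hn' d c d' c'

end Pool.Agent.Helper87.ML.BreadthTwo
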