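import Pool.Agent.Helper87.ML.Lat

set_option autoImplicit false

/-! Decomposition of modular lattices in which every interval has as many atoms as coatoms. -/

namespace Pool.Agent.Helper87.ML

/-- locally finite -/
def LF (L : Type*) [Lattice L] : Prop := ∀ x y : L, (Set.Icc x y).Finite

/-- the interval `[x, y]` is a chain -/
def Ch {L : Type*} [Lattice L] (x y : L) : Prop :=
  ∀ u v, x ≤ u → u ≤ y → x ≤ v → v ≤ y → u ≤ v ∨ v ≤ u

/-- there is a third cover of `o` below `u ⊔ v` -/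
def Th {L : Type*} [Lattice L] (o u v : L) : Prop := ∃ w, o ⋖ w ∧ w ≤ u ⊔ v ∧ w ≠ u ∧ w ≠ v

section Basics

variable {L : Type*} [Lattice L]

lemma Ch.mono {x y x' y' : L} (h : Ch x y) (hx : x ≤ x') (hy : y' ≤ y) : Ch x' y' :=
  fun u v h1 h2 h3 h4 => h u v (hx.trans h1) (h2.trans hy) (hx.trans h3) (h4.trans hy)

lemma Th.symm {o u v : L} (h : Th o u v) : Th o v u := by
  obtain ⟨w, h1, h2, h3, h4⟩ := h
  exact ⟨w, h1, by rwa [sup_comm], h4, h3⟩

lemma LF.dual (h : LF L) : LF Lᵒᵈ := by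
  intro x y
  have := h (OrderDual.ofDual y) (OrderDual.ofDual x)
  refine Set.Finite.subset (this.image OrderDual.toDual) ?_
  rintro z ⟨h1, h2⟩
  exact ⟨OrderDual.ofDual z, ⟨h2, h1⟩, rfl⟩

lemma LF.of_fin (h : ∀ x : L, (Set.Iic x).Finite) : LF L := fun _ y =>
  (h y).subset fun _ hz => hz.2

lemma lf_cov (hF : LF L) {x z : L} (h : x < z) : ∃ y, x ⋖ y ∧ y ≤ z := by
  have hf : {y | x < y ∧ y ≤ z}.Finite := (hF x z).subset fun y hy => ⟨hy.1.le, hy.2⟩
  obtain ⟨y, hy⟩ := hf.exists_minimal ⟨z, h, le_rfl⟩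
  refine ⟨y, ⟨hy.1.1, fun w hxw hwy => ?_⟩, hy.1.2⟩
  exact absurd (hy.2 ⟨hxw, hwy.le.trans hy.1.2⟩ hwy.le) (not_le_of_gt hwy)

lemma lf_cov' (hF : LF L) {x z : L} (h : x < z) : ∃ y, x ≤ y ∧ y ⋖ z := by
  have hf : {y | x ≤ y ∧ y < z}.Finite := (hF x z).subset fun y hy => ⟨hy.1, hy.2.le⟩
  obtain ⟨y, hy⟩ := hf.exists_maximal ⟨x, le_rfl, h⟩
  refine ⟨y, hy.1.1, ⟨hy.1.2, fun w hyw hwz => ?_⟩⟩
  exact absurd (hy.2 ⟨hy.1.1.trans hyw.le, hwz⟩ hyw.le) (not_le_of_gt hyw)

lemma lf_at (hF : LF L) (x y : L) : {z | x ⋖ z ∧ z ≤ y}.Finite :=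
  (hF x y).subset fun _ hz => ⟨hz.1.le, hz.2⟩

lemma lf_co (hF : LF L) (x y : L) : {z | x ≤ z ∧ z ⋖ y}.Finite :=
  (hF x y).subset fun _ hz => ⟨hz.1, hz.2.le⟩

lemma icc_lt (hF : LF L) {x y y' : L} (hxy : x ≤ y) (h : y' < y) :
    (Set.Icc x y').ncard < (Set.Icc x y).ncard := by
  apply Set.ncard_lt_ncard _ (hF x y)
  refine ⟨Set.Icc_subset_Icc_right h.le, fun hcon => ?_⟩
  exact absurd (hcon ⟨hxy, le_rfl⟩).2 (not_le_of_gt h)

lemma icc_lt' (hF : LF L) {x x' y : L} (hxy : x ≤ y) (h : x < x') :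
    (Set.Icc x' y).ncard < (Set.Icc x y).ncard := by
  apply Set.ncard_lt_ncard _ (hF x y)
  refine ⟨Set.Icc_subset_Icc_left h.le, fun hcon => ?_⟩
  exact absurd (hcon ⟨le_rfl, hxy⟩).1 (not_le_of_gt h)

/-- an interval with at most one atom is a chain -/
lemma ch_of_at (hF : LF L) (hN : NN' L) {x : L} (m : ℕ) : ∀ y : L, x ≤ y →
    (Set.Icc x y).ncard = m → {z | x ⋖ z ∧ z ≤ y}.ncard ≤ 1 → Ch x y := by
  induction m using Nat.strong_induction_on with
  | _ m ih =>
    intro y hxy hm hc u v hxu huy hxv hvy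
    rcases eq_or_lt_of_le huy with rfl | huy'
    · exact Or.inr hvy
    rcases eq_or_lt_of_le hvy with rfl | hvy'
    · exact Or.inl huy
    obtain ⟨u', hu', hu'y⟩ := lf_cov' hF huy'
    obtain ⟨v', hv', hv'y⟩ := lf_cov' hF hvy'
    have hco := hc
    rw [hN x y hxy, Set.ncard_le_one (lf_co hF x y)] at hco
    have huv : u' = v' := hco u' ⟨hxu.trans hu', hu'y⟩ v' ⟨hxv.trans hv', hv'y⟩
    subst huv
    refine ih _ (by rw [← hm]; exact icc_lt hF hxy hu'y.lt) u' (hxu.trans hu') rfl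
      (le_trans (Set.ncard_le_ncard ?_ (lf_at hF x y)) hc) u v hxu hu' hxv hv'
    intro z hz
    exact ⟨hz.1, hz.2.trans hu'y.le⟩

/-- an interval with at most one coatom is a chain -/
lemma ch_of_co (hF : LF L) (hN : NN' L) {x y : L} (hxy : x ≤ y)
    (hc : {z | x ≤ z ∧ z ⋖ y}.ncard ≤ 1) : Ch x y :=
  ch_of_at hF hN _ y hxy rfl (by rw [hN x y hxy]; exact hc)

end Basics

section Modular

variable {L : Type*} [Lattice L] [IsModularLattice L]

omit [IsModularLattice L] in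
lemma eq_sup_cov {x y z : L} (hxy : x ⋖ y) (hz : z ≤ y) (hzx : ¬ z ≤ x) : x ⊔ z = y := by
  rcases eq_or_lt_of_le (sup_le hxy.le hz) with h | h
  · exact h
  · exact absurd h (hxy.2 (lt_of_le_of_ne le_sup_left (fun h' => hzx (h' ▸ le_sup_right))))

/-- `inf` with a coatom -/
lemma inf_cov {x y z : L} (hxy : x ⋖ y) (hz : z ≤ y) (hzx : ¬ z ≤ x) : x ⊓ z ⋖ z := by
  apply inf_covBy_of_covBy_sup_left
  rw [eq_sup_cov hxy hz hzx]
  exact hxy

/-- key lemma, second step: chains of length two -/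
lemma third_of_two (hF : LF L) (hN : NN' L) {o a x b v : L} (hoa : o ⋖ a) (hax : a ⋖ x)
    (hch : Ch o x) (hob : o ⋖ b) (hbx : ¬ b ≤ x) (hav : a ⋖ v) (hvx : v ≤ x ⊔ b) (hne : v ≠ x)
    (hne2 : v ≠ a ⊔ b) : Th o a b := by
  by_contra hno
  have hox : o ≤ x := hoa.le.trans hax.le
  have hba : ¬ b ≤ a := fun h => hbx (h.trans hax.le)
  have hab : a ≠ b := fun h => hba h.ge
  -- three coatoms of `[o, x ⊔ b]`
  have c1 : x ⋖ x ⊔ b := cov_sup hob hox hbx
  have hxab : ¬ x ≤ a ⊔ b := by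
    intro h
    have h1 : a ⋖ a ⊔ b := cov_sup hob hoa.le hba
    have h2 : x = a ⊔ b := by
      by_contra hxne
      exact not_le_cov hax h1 hxne h
    exact hbx (h2 ▸ le_sup_right)
  have c2 : a ⊔ b ⋖ x ⊔ b := by
    have h := cov_sup hax (le_sup_left : a ≤ a ⊔ b) hxab
    have e : a ⊔ b ⊔ x = x ⊔ b := by
      rw [sup_comm, ← sup_assoc, sup_eq_left.2 hax.le]
    rwa [e] at h
  have hxv : ¬ x ≤ v := not_le_cov hax hav hne.symm
  have c3 : v ⋖ x ⊔ b := by
    have h := cov_sup hax hav.le hxv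
    have hvx' : ¬ v ≤ x := not_le_cov hav hax hne
    have e : v ⊔ x = x ⊔ b := by
      rw [sup_comm]
      exact eq_sup_cov c1 hvx hvx'
    rwa [e] at h
  have hco : 2 < {z | o ≤ z ∧ z ⋖ x ⊔ b}.ncard := by
    rw [Set.two_lt_ncard_iff (lf_co hF o (x ⊔ b))]
    exact ⟨x, a ⊔ b, v, ⟨hox, c1⟩, ⟨hoa.le.trans le_sup_left, c2⟩, ⟨hoa.le.trans hav.le, c3⟩,
      fun h => hxab h.le, hne.symm, hne2.symm⟩
  rw [← hN o (x ⊔ b) (hox.trans le_sup_left)] at hco
  -- a third atom
  obtain ⟨c, hc, hca, hcb⟩ : ∃ c ∈ {z | o ⋖ z ∧ z ≤ x ⊔ b}, c ≠ a ∧ c ≠ b := by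
    have h2 : ({a, b} : Set L).ncard < {z | o ⋖ z ∧ z ≤ x ⊔ b}.ncard := by
      refine lt_of_le_of_lt (Set.ncard_insert_le a {b}) ?_
      rw [Set.ncard_singleton]
      exact hco
    obtain ⟨c, hc, hc'⟩ := Set.exists_mem_notMem_of_ncard_lt_ncard h2
    refine ⟨c, hc, fun h => hc' (by simp [h]), fun h => hc' (by simp [h])⟩
  by_cases hcab : c ≤ a ⊔ b
  · exact hno ⟨c, hc.1, hcab, hca, hcb⟩
  · -- `x ⊓ (b ⊔ c)` is not `o`
    have hcx : ¬ c ≤ b := not_le_cov hc.1 hob hcb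
    have hbc : b ⋖ b ⊔ c := cov_sup hc.1 hob.le hcx
    have hmod : b ⊔ (x ⊓ (b ⊔ c)) = b ⊔ c := by
      rw [← sup_inf_assoc_of_le x (le_sup_left : b ≤ b ⊔ c)]
      apply inf_eq_right.2
      rw [sup_comm b x]
      exact sup_le le_sup_right hc.2
    have hnb : x ⊓ (b ⊔ c) ≠ o := by
      intro h
      rw [h, sup_eq_left.2 hob.le] at hmod
      exact hbc.lt.ne hmod
    have hao : a ≤ x ⊓ (b ⊔ c) := by
      have h1 : o < x ⊓ (b ⊔ c) :=
        lt_of_le_of_ne (le_inf hox (hob.le.trans le_sup_left)) hnb.symm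
      rcases hch a (x ⊓ (b ⊔ c)) hoa.le hax.le h1.le inf_le_left with h | h
      · exact h
      · rcases eq_or_lt_of_le h with h' | h'
        · exact h'.ge
        · exact absurd h' (hoa.2 h1)
    have h1 : a ≤ b ⊔ c := hao.trans inf_le_right
    have h2 : b ⊔ a = b ⊔ c := by
      have hba' : b ⋖ b ⊔ a := cov_sup hoa hob.le (not_le_cov hoa hob hab)
      by_contra hne3
      exact not_le_cov hba' hbc hne3 (sup_le le_sup_left h1)
    apply hcab
    rw [sup_comm a b, h2]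
    exact le_sup_right

/-- key lemma -/
lemma third_of_chain (hF : LF L) (hN : NN' L) (m : ℕ) : ∀ {o a y x b v : L},
    (Set.Icc o x).ncard = m → o ⋖ a → a ≤ x → Ch o x →
    o ⋖ b → ¬ b ≤ x → o ≤ y → y ⋖ x → y ⋖ v → v ≤ x ⊔ b → v ≠ x → v ≠ y ⊔ b → Th o a b := by
  induction m using Nat.strong_induction_on with
  | _ m ih =>
    intro o a y x b v hm hoa hax hch hob hbx hoy hyx hyv hvx hne hne2
    rcases eq_or_lt_of_le hax with rfl | hax'
    · -- `x = a`, `y = o`
      have hyo : y = o := by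
        rcases eq_or_lt_of_le hoy with h | h
        · exact h.symm
        · exact absurd hyx.lt (hoa.2 h)
      subst hyo
      refine ⟨v, hyv, hvx, hne, ?_⟩
      rw [sup_eq_right.2 hob.le] at hne2
      exact hne2
    · have hay : a ≤ y := by
        rcases hch a y hoa.le hax hoy hyx.le with h | h
        · exact h
        · rcases eq_or_lt_of_le h with h' | h'
          · exact h'.ge
          · rcases eq_or_lt_of_le hoy with h2 | h2
            · subst h2
              exact absurd hax' (hyx.2 hoa.lt)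
            · exact absurd h' (hoa.2 h2)
      rcases eq_or_lt_of_le hay with rfl | hay'
      · exact third_of_two hF hN hoa hyx hch hob hbx hyv hvx hne hne2
      · obtain ⟨a2, ha2, ha2x⟩ := lf_cov hF hax'
        have hba : ¬ b ≤ a := fun h => hbx (h.trans hax)
        have hb' : a ⋖ a ⊔ b := cov_sup hob hoa.le hba
        have h := ih (Set.Icc a x).ncard
          (by rw [← hm]; exact icc_lt' hF (hoa.le.trans hax) hoa.lt) rfl
          ha2 ha2x (hch.mono hoa.le le_rfl) hb'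
          (fun h => hbx (le_sup_right.trans h)) hay hyx hyv (by
            rw [← sup_assoc, sup_eq_left.2 hax]; exact hvx) hne (by
            rw [← sup_assoc, sup_eq_left.2 hay]; exact hne2)
        obtain ⟨w, hw1, hw2, hw3, hw4⟩ := h
        refine third_of_two hF hN hoa ha2 (hch.mono le_rfl ha2x) hob
          (fun h => hbx (h.trans ha2x)) hw1 ?_ hw3 hw4
        rwa [← sup_assoc, sup_eq_left.2 ha2.le] at hw2

/-- perspectivity of covers is transitive -/
lemma Th.trans {o u v w : L} (hu : o ⋖ u) (hv : o ⋖ v) (hw : o ⋖ w) (huv : u ≠ v) (hvw : v ≠ w)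
    (huw : u ≠ w) (h1 : Th o u v) (h2 : Th o v w) : Th o u w := by
  obtain ⟨p, hp, hpuv, hpu, hpv⟩ := h1
  obtain ⟨q, hq, hqvw, hqv, hqw⟩ := h2
  -- two distinct covers generate the join
  have gen : ∀ {s t r : L}, o ⋖ s → o ⋖ t → o ⋖ r → s ≠ r → r ≤ s ⊔ t → s ⊔ r = s ⊔ t := by
    intro s t r hs ht hr hsr hrst
    have hrs : ¬ r ≤ s := not_le_cov hr hs hsr.symm
    have hts : ¬ t ≤ s := fun h => hrs (by rwa [sup_eq_left.2 h] at hrst)
    exact eq_sup_cov (cov_sup ht hs.le hts) hrst hrs |>.symm ▸ rfl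
  by_cases huvw : u ≤ v ⊔ w
  · -- everything in one line
    refine ⟨v, hv, ?_, huv.symm, hvw⟩
    have h3 : w ⊔ u = w ⊔ v := gen hw hv hu huw.symm (by rwa [sup_comm w v])
    rw [sup_comm u w, h3]
    exact le_sup_right
  · -- plane case
    have hup : u ⊔ p = u ⊔ v := gen hu hv hp hpu.symm hpuv
    have hvp : v ⊔ p = v ⊔ u := gen hv hu hp hpv.symm (by rwa [sup_comm v u])
    have hwq : w ⊔ q = w ⊔ v := gen hw hv hq hqw.symm (by rwa [sup_comm w v])
    have hvq : v ⊔ q = v ⊔ w := gen hv hw hq hqv.symm hqvw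
    have hpnot : ¬ p ≤ v ⊔ w := by
      intro h
      apply huvw
      have : u ≤ v ⊔ p := by rw [hvp]; exact le_sup_right
      exact this.trans (sup_le le_sup_left h)
    have hpq : p ≠ q := fun h => hpnot (h ▸ hqvw)
    set r := (p ⊔ q) ⊓ (u ⊔ w) with hr
    -- the top of the plane
    have hq_uw : ¬ q ≤ u ⊔ w := by
      intro h
      apply huvw
      have hvuw : v ≤ u ⊔ w := by
        have : v ≤ w ⊔ q := by rw [hwq]; exact le_sup_right
        exact this.trans (sup_le le_sup_right h)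
      have h3 : w ⊔ v = w ⊔ u := gen hw hu hv hvw.symm (by rwa [sup_comm w u])
      rw [sup_comm v w, h3]
      exact le_sup_right
    have hp_uw : ¬ p ≤ u ⊔ w := by
      intro h
      apply huvw
      have hvuw : v ≤ u ⊔ w := by
        have : v ≤ u ⊔ p := by rw [hup]; exact le_sup_right
        exact this.trans (sup_le le_sup_left h)
      have h3 : w ⊔ v = w ⊔ u := gen hw hu hv hvw.symm (by rwa [sup_comm w u])
      rw [sup_comm v w, h3]
      exact le_sup_right
    have htop : (u ⊔ w) ⊔ p = (u ⊔ w) ⊔ q := by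
      have e1 : (u ⊔ w) ⊔ p = u ⊔ v ⊔ w := by
        rw [sup_right_comm, hup]
      have e2 : (u ⊔ w) ⊔ q = u ⊔ v ⊔ w := by
        rw [sup_assoc, hwq, sup_comm w v, ← sup_assoc]
      rw [e1, e2]
    have hcov : u ⊔ w ⋖ (u ⊔ w) ⊔ p := cov_sup hp (hu.le.trans le_sup_left) hp_uw
    have hple : p ⊔ q ≤ (u ⊔ w) ⊔ p := sup_le le_sup_right (by rw [htop]; exact le_sup_right)
    have hrpq : r ⋖ p ⊔ q := by
      have := inf_cov hcov hple (fun h => hp_uw (le_sup_left.trans h))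
      rwa [inf_comm] at this
    have hppq : p ⋖ p ⊔ q := cov_sup hq hp.le (not_le_cov hq hp hpq.symm)
    have hor : o ⋖ r := by
      -- `p ⊓ r = o`, `p ⊔ r = p ⊔ q`
      have hrp : ¬ r ≤ p := by
        intro h
        rcases eq_or_lt_of_le h with h' | h'
        · exact hp_uw (h' ▸ inf_le_right)
        · exact hrpq.2 h' hppq.lt
      have h3 : p ⊓ r ⋖ r := inf_cov hppq hrpq.le hrp
      have h4 : p ⊓ r = o := by
        have hpr : p ⊓ r < p := lt_of_le_of_ne inf_le_left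
          (fun h => hp_uw ((inf_eq_left.1 h).trans inf_le_right))
        have hopr : o ≤ p ⊓ r := le_inf hp.le
          (le_inf (hp.le.trans le_sup_left) (hu.le.trans le_sup_left))
        rcases eq_or_lt_of_le hopr with h | h
        · exact h.symm
        · exact absurd hpr (hp.2 h)
      rwa [h4] at h3
    refine ⟨r, hor, inf_le_right, ?_, ?_⟩
    · intro h
      -- `u ≤ p ⊔ q`
      have hupq : u ≤ p ⊔ q := h ▸ inf_le_left
      have h3 : p ⊔ u = p ⊔ q := gen hp hq hu hpu hupq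
      have h4 : q ≤ u ⊔ v := by
        have : q ≤ p ⊔ u := by rw [h3]; exact le_sup_right
        rw [sup_comm p u, hup] at this
        exact this
      have h5 : u ≤ v ⊔ q := by
        have e := gen hv hu hq hqv.symm (by rwa [sup_comm v u])
        rw [e]
        exact le_sup_right
      rw [hvq] at h5
      exact huvw h5
    · intro h
      have hwpq : w ≤ p ⊔ q := h ▸ inf_le_left
      have h3 : q ⊔ w = q ⊔ p := gen hq hp hw hqw (by rwa [sup_comm q p])
      have h4 : p ≤ v ⊔ w := by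
        have : p ≤ q ⊔ w := by rw [h3]; exact le_sup_right
        rw [sup_comm q w, hwq, sup_comm w v] at this
        exact this
      exact hpnot h4

end Modular

end Pool.Agent.Helper87.ML
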