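import Pool.Agent.Helper87.ML.Order

set_option autoImplicit false

/-! The decomposition theorem. -/

namespace Pool.Agent.Helper87.ML

universe u v

lemma th_of_primary {K : Type*} [Lattice K] (hP : Primary K) {o p q : K} (hp : o ⋖ p)
    (hq : o ⋖ q) (hpq : p ≠ q) : Th o p q := by
  rcases hP o (p ⊔ q) (hp.le.trans le_sup_left) with h |
    ⟨⟨a1, a2, a3, ⟨h1, h2, h3⟩, ⟨l1, l2, l3⟩, m12, m13, m23⟩, -⟩
  · exfalso
    rcases h p q hp.le le_sup_left hq.le le_sup_right with h | h
    · rcases eq_or_lt_of_le h with h' | h'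
      · exact hpq h'
      · exact hq.2 hp.lt h'
    · rcases eq_or_lt_of_le h with h' | h'
      · exact hpq h'.symm
      · exact hp.2 hq.lt h'
  · by_cases c1 : a1 = p ∨ a1 = q
    · by_cases c2 : a2 = p ∨ a2 = q
      · refine ⟨a3, h3, l3, ?_, ?_⟩
        · rintro rfl
          rcases c1 with c1 | c1 <;> rcases c2 with c2 | c2
          · exact m13 c1
          · exact m13 c1
          · exact m23 c2
          · exact m12 (c1.trans c2.symm)
        · rintro rfl
          rcases c1 with c1 | c1 <;> rcases c2 with c2 | c2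
          · exact m12 (c1.trans c2.symm)
          · exact m23 c2
          · exact m13 c1
          · exact m13 c1
      · push Not at c2
        exact ⟨a2, h2, l2, c2.1, c2.2⟩
    · push Not at c1
      exact ⟨a1, h1, l1, c1.1, c1.2⟩

lemma Good'.primSD {K : Type*} [Lattice K] (h : Good' K) : PrimSD K := by
  have hm := h.mod
  have hnt := h.nontriv
  obtain ⟨b, hb⟩ := exists_bot h.fin
  exact ⟨h.nontriv, h.mod, h.fin, h.cov, h.prim, h.sd, uniform_order h.fin (NN_of_SD h.sd) b hb
    (fun t p q hp _ hq _ hpq => th_of_primary h.prim hp hq hpq)⟩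

/-- products of lattices with self-dual intervals -/
lemma sd_pi {L : Type*} [Lattice L] {ι : Type*} {K : ι → Type*} [∀ i, Lattice (K i)]
    (h : ∀ i, SD' (K i)) (φ : L ≃o ∀ i, K i) : SD' L := by
  intro x y hxy
  let e : Set.Icc x y ≃o ∀ i, Set.Icc (φ x i) (φ y i) := {
    toFun := fun z i => ⟨φ z.1 i, φ.monotone z.2.1 i, φ.monotone z.2.2 i⟩
    invFun := fun w => ⟨φ.symm fun i => (w i).1, by
      rw [φ.le_symm_apply]
      exact fun i => (w i).2.1, by
      rw [φ.symm_apply_le]
      exact fun i => (w i).2.2⟩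
    left_inv := fun z => by
      apply Subtype.ext
      show φ.symm (fun i => φ z.1 i) = z.1
      rw [φ.symm_apply_eq]
    right_inv := fun w => by
      funext i
      apply Subtype.ext
      show (φ (φ.symm fun i => (w i).1) i) = (w i).1
      rw [φ.apply_symm_apply]
    map_rel_iff' := by
      intro z w
      show (∀ i, φ z.1 i ≤ φ w.1 i) ↔ z.1 ≤ w.1
      rw [← φ.le_iff_le]
      rfl }
  let f := fun i => (h i (φ x i) (φ y i) (φ.monotone hxy i)).some
  let g : (∀ i, Set.Icc (φ x i) (φ y i)) ≃o (∀ i, Set.Icc (φ x i) (φ y i))ᵒᵈ := {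
    toFun := fun w => OrderDual.toDual fun i => OrderDual.ofDual (f i (w i))
    invFun := fun w => fun i => (f i).symm (OrderDual.toDual ((OrderDual.ofDual w) i))
    left_inv := fun w => by
      funext i
      simp
    right_inv := fun w => by
      apply OrderDual.ofDual.injective
      funext i
      simp
    map_rel_iff' := by
      intro w w'
      constructor
      · intro h i
        exact (f i).le_iff_le.1 (h i)
      · intro h i
        exact (f i).le_iff_le.2 (h i) }
  exact ⟨e.trans (g.trans e.symm.dual)⟩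

theorem decomposition {L : Type u} [Lattice L] [Nonempty L] (hfin : ∀ x : L, (Set.Iic x).Finite)
    (hm : IsModularLattice L) (hfc : ∀ x : L, {y | x ⋖ y}.Finite) :
    SD' L ↔ ∃ (ι : Type) (_ : Finite ι) (K : ι → Type u) (_ : ∀ i, Lattice (K i)),
      (∀ i, PrimSD (K i)) ∧ Nonempty (L ≃o ∀ i, K i) := by
  constructor
  · intro hs
    obtain ⟨ι, hι, K, hl, hK, he⟩ := isPrim_fwd hfin hm hfc hs
    exact ⟨ι, hι, K, hl, fun i => (hK i).primSD, he⟩
  · rintro ⟨ι, hι, K, hl, hK, ⟨e⟩⟩
    exact sd_pi (fun i => (hK i).sd) e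

end Pool.Agent.Helper87.ML
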