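import Pool.Agent.Helper87.ML.DefsPrim

set_option autoImplicit false

/-! Definitions: self-dual intervals, planes, the lattice of the `n`-regular tree and the model
lattices. -/

namespace Pool.Agent.Helper87.ML

section Plane

variable {L : Type*} [Lattice L]

/-- The interval `[x, y]` is the lattice of flats of a projective plane: it consists of `x`, the
points (the covers of `x` below `y`), the lines (the elements above `x` covered by `y`) and `y`;
any two distinct points lie on exactly one line; any two distinct lines have exactly one common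
point; every line has at least three points; some three distinct points lie on no common line. -/
def IsPlane (x y : L) : Prop :=
  (∀ z, x ≤ z → z ≤ y → z = x ∨ x ⋖ z ∨ z ⋖ y ∨ z = y) ∧
  (∀ p q, x ⋖ p → p ≤ y → x ⋖ q → q ≤ y → p ≠ q →
    ∃! l, (x ≤ l ∧ l ⋖ y) ∧ p ≤ l ∧ q ≤ l) ∧
  (∀ l m, x ≤ l → l ⋖ y → x ≤ m → m ⋖ y → l ≠ m →
    ∃! p, (x ⋖ p ∧ p ≤ y) ∧ p ≤ l ∧ p ≤ m) ∧
  (∀ l, x ≤ l → l ⋖ y → ∃ p q r, (x ⋖ p ∧ x ⋖ q ∧ x ⋖ r) ∧ (p ≤ l ∧ q ≤ l ∧ r ≤ l) ∧
    p ≠ q ∧ p ≠ r ∧ q ≠ r) ∧
  (∃ p q r, (x ⋖ p ∧ x ⋖ q ∧ x ⋖ r) ∧ (p ≤ y ∧ q ≤ y ∧ r ≤ y) ∧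
    (p ≠ q ∧ p ≠ r ∧ q ≠ r) ∧ ∀ l, x ≤ l → l ⋖ y → ¬ (p ≤ l ∧ q ≤ l ∧ r ≤ l))

/-- no interval is the lattice of flats of a projective plane -/
def PlaneFree (L : Type*) [Lattice L] : Prop := ∀ x y : L, x ≤ y → ¬ IsPlane x y

end Plane

/-- Reduced parameters: a chain with at least two elements (`n = 2`, `c = 0`, `d ≠ 0`), or `n ≥ 3`
and `c ≠ 0`, where `d` is infinite if `c` is. -/
def Reduced (n : ℕ) (d c : ℕ∞) : Prop :=
  (n = 2 ∧ c = 0 ∧ d ≠ 0) ∨ (3 ≤ n ∧ c ≠ 0 ∧ (c = ⊤ → d = ⊤))

section Words

variable {α : Type*} [DecidableEq α]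

/-- length of the longest common suffix of two lists -/
def cs : List α → List α → ℕ
  | [], _ => 0
  | a :: v, w => if (a :: v) <:+ w then v.length + 1 else cs v w

lemma cs_spec (v w : List α) : ∃ u, u <:+ v ∧ u <:+ w ∧ u.length = cs v w := by
  induction v with
  | nil => exact ⟨[], List.suffix_rfl, List.nil_suffix, rfl⟩
  | cons a v ih =>
    by_cases h : (a :: v) <:+ w
    · exact ⟨a :: v, List.suffix_rfl, h, by simp [cs, h]⟩
    · obtain ⟨u, h1, h2, h3⟩ := ih
      exact ⟨u, h1.trans (List.suffix_cons a v), h2, by simp [cs, h, h3]⟩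

lemma le_cs {u v w : List α} (h1 : u <:+ v) (h2 : u <:+ w) : u.length ≤ cs v w := by
  induction v with
  | nil => simp [List.suffix_nil.1 h1]
  | cons a v ih =>
    by_cases h : (a :: v) <:+ w
    · have := h1.length_le
      simpa [cs, h] using this
    · rcases List.suffix_cons_iff.1 h1 with h3 | h3
      · exact absurd (h3 ▸ h2) h
      · simpa [cs, h] using ih h3

lemma cs_comm (v w : List α) : cs v w = cs w v := by
  apply le_antisymm
  · obtain ⟨u, h1, h2, h3⟩ := cs_spec v w
    rw [← h3]; exact le_cs h2 h1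
  · obtain ⟨u, h1, h2, h3⟩ := cs_spec w v
    rw [← h3]; exact le_cs h2 h1

lemma cs_le_left (v w : List α) : cs v w ≤ v.length := by
  obtain ⟨u, h1, h2, h3⟩ := cs_spec v w
  rw [← h3]; exact h1.length_le

lemma cs_le_right (v w : List α) : cs v w ≤ w.length := by
  rw [cs_comm]; exact cs_le_left w v

lemma cs_eq_of_suffix {v w : List α} (h : v <:+ w) : cs v w = v.length :=
  le_antisymm (cs_le_left v w) (le_cs List.suffix_rfl h)

lemma suffix_of_cs {v w : List α} (h : cs v w = v.length) : v <:+ w := by
  obtain ⟨u, h1, h2, h3⟩ := cs_spec v w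
  rw [h] at h3
  rwa [← h1.eq_of_length h3]

/-- the distance in the tree of words -/
def td (v w : List α) : ℕ := v.length + w.length - 2 * cs v w

lemma td_comm (v w : List α) : td v w = td w v := by
  unfold td; rw [cs_comm, add_comm]

lemma td_self (v : List α) : td v v = 0 := by
  unfold td; rw [cs_eq_of_suffix List.suffix_rfl]; omega

lemma eq_of_td_eq_zero {v w : List α} (h : td v w = 0) : v = w := by
  unfold td at h
  have h1 := cs_le_left v w
  have h2 := cs_le_right v w
  have h3 : v <:+ w := suffix_of_cs (by omega)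
  exact h3.eq_of_length (by omega)

lemma td_parity (v w : List α) : ∃ c : ℕ, td v w + 2 * c = v.length + w.length :=
  ⟨cs v w, by
    have h1 := cs_le_left v w
    have h2 := cs_le_right v w
    unfold td; omega⟩

/-- moving away from the root -/
lemma td_cons (a : α) (v w : List α) :
    ((a :: v) <:+ w ∧ td (a :: v) w + 1 = td v w) ∨
      (¬ (a :: v) <:+ w ∧ td (a :: v) w = td v w + 1) := by
  by_cases h : (a :: v) <:+ w
  · left
    refine ⟨h, ?_⟩
    have h1 := cs_eq_of_suffix h
    have h2 := cs_eq_of_suffix ((List.suffix_cons a v).trans h)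
    have h3 := h.length_le
    unfold td
    rw [h1, h2]
    simp only [List.length_cons] at *
    omega
  · right
    refine ⟨h, ?_⟩
    have h1 : cs (a :: v) w = cs v w := by simp [cs, h]
    have h2 := cs_le_left v w
    have h3 := cs_le_right v w
    unfold td
    rw [h1]
    simp only [List.length_cons]
    omega

/-- the neighbour of a word in direction `i` -/
def nb (i : α) (v : List α) : List α := if v.head? = some i then v.tail else i :: v

lemma nb_cases (i : α) (v : List α) :
    (∃ v', v = i :: v' ∧ nb i v = v') ∨ (v.head? ≠ some i ∧ nb i v = i :: v) := by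
  by_cases h : v.head? = some i
  · left
    rcases v with _ | ⟨a, v⟩
    · simp at h
    · simp only [List.head?_cons, Option.some.injEq] at h
      subst h
      exact ⟨v, rfl, by simp [nb]⟩
  · right
    exact ⟨h, by simp [nb, h]⟩

lemma nb_red {i : α} {v : List α} (h : v.IsChain (· ≠ ·)) : (nb i v).IsChain (· ≠ ·) := by
  rcases nb_cases i v with ⟨v', rfl, h2⟩ | ⟨h1, h2⟩
  · rw [h2]; exact (List.isChain_cons.1 h).2
  · rw [h2, List.isChain_cons]
    refine ⟨?_, h⟩
    intro y hy hne
    subst hne
    exact h1 hy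

lemma nb_length (i : α) (v : List α) :
    (nb i v).length = v.length + 1 ∨ (nb i v).length + 1 = v.length := by
  rcases nb_cases i v with ⟨v', rfl, h2⟩ | ⟨h1, h2⟩
  · right; rw [h2]; simp
  · left; rw [h2]; simp

lemma nb_inj {i j : α} {v : List α} (h : nb i v = nb j v) : i = j := by
  rcases nb_cases i v with ⟨v', hv, h2⟩ | ⟨h1, h2⟩ <;>
    rcases nb_cases j v with ⟨v'', hv', h2'⟩ | ⟨h1', h2'⟩
  · rw [hv] at hv'
    simp only [List.cons.injEq] at hv'
    exact hv'.1
  · rw [h2, h2', hv] at h
    have := congrArg List.length h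
    simp only [List.length_cons] at this
    omega
  · rw [h2, h2', hv'] at h
    have := congrArg List.length h
    simp only [List.length_cons] at this
    omega
  · rw [h2, h2'] at h
    simp only [List.cons.injEq] at h
    exact h.1

/-- distances change by one -/
lemma td_nb (i : α) (v w : List α) :
    td (nb i v) w = td v w + 1 ∨ td (nb i v) w + 1 = td v w := by
  rcases nb_cases i v with ⟨v', rfl, h2⟩ | ⟨h1, h2⟩
  · rw [h2]
    rcases td_cons i v' w with ⟨-, h⟩ | ⟨-, h⟩ <;> omega
  · rw [h2]
    rcases td_cons i v w with ⟨-, h⟩ | ⟨-, h⟩ <;> omega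

lemma td_nb_self (i : α) (v : List α) : td (nb i v) v = 1 := by
  have := td_nb i v v
  rw [td_self] at this
  omega

/-- exactly one neighbour is closer -/
lemma near {v w : List α} (hw : w.IsChain (· ≠ ·)) (hne : v ≠ w) :
    ∃ i, td (nb i v) w + 1 = td v w ∧ ∀ j, j ≠ i → td (nb j v) w = td v w + 1 := by
  by_cases h : v <:+ w
  · -- `w` continues `v` away from the root
    obtain ⟨t, ht⟩ := h
    rcases List.eq_nil_or_concat t with h0 | ⟨t', a, rfl⟩
    · subst h0; exact absurd (by simpa using ht) hne
    have hsuf : (a :: v) <:+ w := ⟨t', by rw [← ht]; simp⟩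
    have hred : (a :: v).IsChain (· ≠ ·) := hw.suffix hsuf
    have hhead : v.head? ≠ some a := by
      intro he
      exact (List.isChain_cons.1 hred).1 a he rfl
    have hnba : nb a v = a :: v := by simp [nb, hhead]
    refine ⟨a, ?_, ?_⟩
    · rw [hnba]
      rcases td_cons a v w with ⟨-, h⟩ | ⟨h', -⟩
      · exact h
      · exact absurd hsuf h'
    · intro j hj
      rcases nb_cases j v with ⟨v', hv, h2⟩ | ⟨h1, h2⟩
      · rw [h2, hv]
        rcases td_cons j v' w with ⟨-, h⟩ | ⟨h', -⟩
        · omega
        · exact absurd (hv ▸ (List.suffix_cons a v).trans hsuf) h'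
      · rw [h2]
        rcases td_cons j v w with ⟨h', -⟩ | ⟨-, h⟩
        · exfalso
          have := List.suffix_of_suffix_length_le h' hsuf (by simp)
          have h3 := this.eq_of_length (by simp)
          simp only [List.cons.injEq] at h3
          exact hj h3.1
        · exact h
  · rcases v with _ | ⟨a, v'⟩
    · exact absurd List.nil_suffix h
    · have hnba : nb a (a :: v') = v' := by simp [nb]
      refine ⟨a, ?_, ?_⟩
      · rw [hnba]
        rcases td_cons a v' w with ⟨h', -⟩ | ⟨-, h2⟩
        · exact absurd h' h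
        · omega
      · intro j hj
        have hnbj : nb j (a :: v') = j :: a :: v' := by
          simp [nb, Ne.symm hj]
        rw [hnbj]
        rcases td_cons j (a :: v') w with ⟨h', -⟩ | ⟨-, h2⟩
        · exact absurd ((List.suffix_cons j _).trans h') h
        · exact h2

/-- vertices at distance one are neighbours -/
lemma exists_nb {v w : List α} (hw : w.IsChain (· ≠ ·)) (h : td v w = 1) : ∃ i, w = nb i v := by
  have hne : v ≠ w := by
    rintro rfl; rw [td_self] at h; omega
  obtain ⟨i, hi, -⟩ := near hw hne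
  exact ⟨i, (eq_of_td_eq_zero (by omega)).symm⟩

lemma td_triangle (m : ℕ) : ∀ u v w : List α, v.IsChain (· ≠ ·) → td u v = m →
    td u w ≤ td u v + td v w := by
  induction m with
  | zero =>
    intro u v w _ h
    rw [eq_of_td_eq_zero h]; omega
  | succ m ih =>
    intro u v w hv h
    have hne : u ≠ v := by
      rintro rfl; rw [td_self] at h; omega
    obtain ⟨i, hi, -⟩ := near hv hne
    have h1 := ih (nb i u) v w hv (by omega)
    have h2 := td_nb i u w
    omega

end Words

/-- the points `(v, h)`: `v` a vertex of the `n`-regular tree, given by a reduced word (the path to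
the root), and `h` an integer with the parity of the distance of `v` to the root -/
@[ext] structure TreePt (n : ℕ) where
  v : List (Fin n)
  h : ℤ
  red : v.IsChain (· ≠ ·)
  par : Even (h + v.length)

namespace TreePt

variable {n : ℕ}

instance : PartialOrder (TreePt n) where
  le p q := (td p.v q.v : ℤ) ≤ q.h - p.h
  le_refl p := by simp [td_self]
  le_trans p q r hpq hqr := by
    have := td_triangle _ p.v q.v r.v q.red rfl
    show (td p.v r.v : ℤ) ≤ r.h - p.h
    have h1 : (td p.v q.v : ℤ) ≤ q.h - p.h := hpq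
    have h2 : (td q.v r.v : ℤ) ≤ r.h - q.h := hqr
    omega
  le_antisymm p q hpq hqp := by
    have h1 : (td p.v q.v : ℤ) ≤ q.h - p.h := hpq
    have h2 : (td q.v p.v : ℤ) ≤ p.h - q.h := hqp
    have h3 : td p.v q.v = 0 := by omega
    apply TreePt.ext (eq_of_td_eq_zero h3)
    omega

/-- the alternating word of length `d` in the letters `0` and `1` -/
def alt (hn : 2 ≤ n) : ℕ → List (Fin n)
  | 0 => []
  | d + 1 => (if Even d then ⟨0, by omega⟩ else ⟨1, by omega⟩) :: alt hn d

lemma alt_length (hn : 2 ≤ n) (d : ℕ) : (alt hn d).length = d := by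
  induction d with
  | zero => rfl
  | succ d ih => simp [alt, ih]

lemma alt_red (hn : 2 ≤ n) (d : ℕ) : (alt hn d).IsChain (· ≠ ·) := by
  induction d with
  | zero => exact List.isChain_nil
  | succ d ih =>
    rw [alt, List.isChain_cons]
    refine ⟨?_, ih⟩
    intro y hy
    rcases d with _ | d
    · simp [alt] at hy
    · simp only [alt, List.head?_cons, Option.mem_def, Option.some.injEq] at hy
      rw [← hy]
      by_cases hd : Even d
      · have : ¬ Even (d + 1) := by rw [Nat.even_add_one]; simpa using hd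
        simp [hd]
      · have : Even (d + 1) := by rw [Nat.even_add_one]; exact hd
        simpa [hd] using this

/-- the bottom of the model lattices -/
def o : TreePt n where
  v := []
  h := 0
  red := List.isChain_nil
  par := by simp

/-- the generators of the model lattices -/
def pt (hn : 2 ≤ n) (a b : ℕ) : TreePt n where
  v := alt hn a
  h := a + 2 * b
  red := alt_red hn a
  par := by
    rw [alt_length, Int.even_iff]
    omega

/-- the model lattice with the parameters `n, d, c`: the points `z` above `o` which are below some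
`pt a b` with `a ≤ d` and `b ≤ c` -/
def Model (hn : 2 ≤ n) (d c : ℕ∞) : Set (TreePt n) :=
  {z | o ≤ z ∧ ∃ a b : ℕ, (a : ℕ∞) ≤ d ∧ (b : ℕ∞) ≤ c ∧ z ≤ pt hn a b}

end TreePt

end Pool.Agent.Helper87.ML
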