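import Mathlib

set_option autoImplicit false

/-! Definitions: self-dual intervals, primary lattices. -/

namespace Pool.Agent.Helper87.ML

/-- every interval is self-dual -/
def SD' (L : Type*) [PartialOrder L] : Prop :=
  ∀ x y : L, x ≤ y → Nonempty (Set.Icc x y ≃o (Set.Icc x y)ᵒᵈ)

/-- Primary lattice: every interval is a chain or has at least three atoms and at least three
coatoms. -/
def Primary (K : Type*) [Lattice K] : Prop :=
  ∀ x y : K, x ≤ y → (∀ u v, x ≤ u → u ≤ y → x ≤ v → v ≤ y → u ≤ v ∨ v ≤ u) ∨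
    ((∃ a b c, (x ⋖ a ∧ x ⋖ b ∧ x ⋖ c) ∧ (a ≤ y ∧ b ≤ y ∧ c ≤ y) ∧ a ≠ b ∧ a ≠ c ∧ b ≠ c) ∧
      ∃ a b c, (a ⋖ y ∧ b ⋖ y ∧ c ⋖ y) ∧ (x ≤ a ∧ x ≤ b ∧ x ≤ c) ∧ a ≠ b ∧ a ≠ c ∧ b ≠ c)

/-- there is a number `q ≥ 2` such that any two distinct covers of an element `x` have exactly
`q + 1` covers of `x` below their join -/
def HasOrder (K : Type*) [Lattice K] : Prop :=
  ∃ q : ℕ, 2 ≤ q ∧ ∀ x y z : K, x ⋖ y → x ⋖ z → y ≠ z → {w | x ⋖ w ∧ w ≤ y ⊔ z}.ncard = q + 1

/-- nontrivial primary modular lattices with finite principal ideals and finite covers, all of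
whose intervals are self-dual and all of whose lines have the same number of points -/
structure PrimSD (K : Type*) [Lattice K] : Prop where
  nontriv : Nontrivial K
  mod : IsModularLattice K
  fin : ∀ x : K, (Set.Iic x).Finite
  cov : ∀ x : K, {y | x ⋖ y}.Finite
  prim : Primary K
  sd : SD' K
  order : HasOrder K

end Pool.Agent.Helper87.ML
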