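import Pool.Agent.Helper87.ML.TreeLat

set_option autoImplicit false

/-! Self-duality of the intervals of the tree lattice; self-duality implies equality of the numbers
of atoms and coatoms. -/

namespace Pool.Agent.Helper87.ML

namespace Arb.TIso

variable {n : ℕ} {P P' : Type*} [PartialOrder P] [PartialOrder P'] {A : Arb n P} {A' : Arb n P'}
  {x : P} {x' : P'} {f : P → P'} {g : P' → P}

/-- the order isomorphism of the upper sets -/
def iso (h : TIso A A' x x' f g) : Set.Ici x ≃o Set.Ici x' where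
  toFun z := ⟨f z.1, h.le z.1 z.2⟩
  invFun z := ⟨g z.1, h.le' z.1 z.2⟩
  left_inv z := Subtype.ext (h.gf z.1 z.2)
  right_inv z := Subtype.ext (h.fg z.1 z.2)
  map_rel_iff' {z w} := (h.mono z.1 w.1 z.2 w.2).symm

end Arb.TIso

/-- the part above `p` of the part below `q` -/
def iciIso {α : Type*} [PartialOrder α] {p q : α} (h : p ≤ q) :
    Set.Ici (⟨p, h⟩ : {x : α // x ≤ q}) ≃o Set.Icc p q where
  toFun z := ⟨z.1.1, z.2, z.1.2⟩
  invFun z := ⟨⟨z.1, z.2.2⟩, z.2.1⟩
  left_inv _ := rfl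
  right_inv _ := rfl
  map_rel_iff' := Iff.rfl

namespace TreePt

variable {n : ℕ}

/-- reversal -/
def starIso (p q : TreePt n) : Set.Icc (star q) (star p) ≃o (Set.Icc p q)ᵒᵈ where
  toFun z := OrderDual.toDual ⟨star z.1, by rw [le_star']; exact z.2.2, by
    rw [star_le']; exact z.2.1⟩
  invFun z := ⟨star (OrderDual.ofDual z).1, star_le.2 (OrderDual.ofDual z).2.2,
    star_le.2 (OrderDual.ofDual z).2.1⟩
  left_inv z := Subtype.ext (star_star z.1)
  right_inv z := by
    apply OrderDual.ofDual.injective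
    exact Subtype.ext (star_star _)
  map_rel_iff' {z w} := by
    show star w.1 ≤ star z.1 ↔ z.1 ≤ w.1
    exact star_le

/-- intervals with the same length and the same type are isomorphic -/
lemma icc_iso (hn : 2 ≤ n) {p q p' q' : TreePt n} (h : p ≤ q) (h' : p' ≤ q')
    (hk : q'.h - p'.h = q.h - p.h) (hd : td p'.v q'.v = td p.v q.v) :
    Nonempty (Set.Icc p q ≃o Set.Icc p' q') := by
  obtain ⟨⟨F, G, hFG⟩, -⟩ := Arb.exists_tiso (A := arb q hn) (A' := arb q' hn) hn
    ((arb q hn).k ⟨p, h⟩) ⟨p, h⟩ ⟨p', h'⟩ rfl (by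
      show (q'.h - p'.h).toNat = (q.h - p.h).toNat
      rw [hk]) (by
      show td p'.v q'.v = td p.v q.v
      rw [hd])
  exact ⟨(iciIso h).symm.trans (hFG.iso.trans (iciIso h'))⟩

/-- intervals of the tree lattice are self-dual -/
lemma sd_tree (hn : 2 ≤ n) {p q : TreePt n} (h : p ≤ q) :
    Nonempty (Set.Icc p q ≃o (Set.Icc p q)ᵒᵈ) := by
  obtain ⟨e⟩ := icc_iso hn h (star_le.2 h) (by
    show -p.h - -q.h = q.h - p.h
    ring) (by
    show td q.v p.v = td p.v q.v
    rw [td_comm])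
  exact ⟨e.trans (starIso p q)⟩

/-- intervals of `L` as intervals of the tree lattice -/
def iccIso {L : Type*} [Lattice L] {S : Set (TreePt n)} (φ : L ≃o S) (hS : S.OrdConnected)
    (x y : L) : Set.Icc x y ≃o Set.Icc (φ x).1 (φ y).1 where
  toFun z := ⟨(φ z.1).1, φ.monotone z.2.1, φ.monotone z.2.2⟩
  invFun z := ⟨φ.symm ⟨z.1, hS.out (φ x).2 (φ y).2 z.2⟩, by
    constructor
    · rw [φ.le_symm_apply]; exact z.2.1
    · rw [φ.symm_apply_le]; exact z.2.2⟩
  left_inv z := by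
    apply Subtype.ext
    show φ.symm (φ z.1) = z.1
    simp
  right_inv z := by
    apply Subtype.ext
    show (φ (φ.symm ⟨z.1, _⟩)).1 = z.1
    rw [φ.apply_symm_apply]
  map_rel_iff' {z w} := by
    show φ z.1 ≤ φ w.1 ↔ z.1 ≤ w.1
    exact φ.le_iff_le

lemma sd_of_convex (hn : 2 ≤ n) {L : Type*} [Lattice L] {S : Set (TreePt n)} (φ : L ≃o S)
    (hS : S.OrdConnected) : SD' L := by
  intro x y hxy
  obtain ⟨e⟩ := sd_tree hn (show (φ x).1 ≤ (φ y).1 from φ.monotone hxy)
  exact ⟨(iccIso φ hS x y).trans (e.trans (iccIso φ hS x y).symm.dual)⟩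

end TreePt

/-- a self-dual interval has as many atoms as coatoms -/
lemma ncard_of_dual {L : Type*} [PartialOrder L] {x y : L} (hxy : x ≤ y)
    (e : Set.Icc x y ≃o (Set.Icc x y)ᵒᵈ) :
    {z | x ⋖ z ∧ z ≤ y}.ncard = {z | x ≤ z ∧ z ⋖ y}.ncard := by
  let bx : Set.Icc x y := ⟨x, le_rfl, hxy⟩
  let ty : Set.Icc x y := ⟨y, hxy, le_rfl⟩
  have e1 : {z | x ⋖ z ∧ z ≤ y} = Subtype.val '' {a : Set.Icc x y | bx ⋖ a} := by
    ext z
    constructor
    · rintro ⟨h1, h2⟩
      exact ⟨⟨z, h1.le, h2⟩, ⟨h1.lt, fun c hc hc' => h1.2 (c := c.1) hc hc'⟩, rfl⟩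
    · rintro ⟨a, ha, rfl⟩
      refine ⟨⟨ha.lt, fun c hc hc' => ?_⟩, a.2.2⟩
      exact ha.2 (c := ⟨c, hc.le, hc'.le.trans a.2.2⟩) hc hc'
  have e2 : {z | x ≤ z ∧ z ⋖ y} = Subtype.val '' {a : Set.Icc x y | a ⋖ ty} := by
    ext z
    constructor
    · rintro ⟨h1, h2⟩
      exact ⟨⟨z, h1, h2.le⟩, ⟨h2.lt, fun c hc hc' => h2.2 (c := c.1) hc hc'⟩, rfl⟩
    · rintro ⟨a, ha, rfl⟩
      refine ⟨a.2.1, ⟨ha.lt, fun c hc hc' => ?_⟩⟩
      exact ha.2 (c := ⟨c, a.2.1.trans hc.le, hc'.le⟩) hc hc'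
  rw [e1, e2, Set.ncard_image_of_injective _ Subtype.val_injective,
    Set.ncard_image_of_injective _ Subtype.val_injective]
  have hbt : OrderDual.ofDual (e bx) = ty := by
    apply le_antisymm
    · exact (OrderDual.ofDual (e bx)).2.2
    · have h1 : bx ≤ e.symm (OrderDual.toDual ty) := (e.symm (OrderDual.toDual ty)).2.1
      rw [e.le_symm_apply] at h1
      exact h1
  have h3 : {a : Set.Icc x y | a ⋖ ty} =
      (fun a => OrderDual.ofDual (e a)) '' {a : Set.Icc x y | bx ⋖ a} := by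
    ext a
    constructor
    · intro ha
      refine ⟨e.symm (OrderDual.toDual a), ?_, ?_⟩
      · rw [Set.mem_ofPred_eq]
        have h4 : OrderDual.toDual ty ⋖ OrderDual.toDual a := CovBy.toDual ha
        have h5 : e bx ⋖ e (e.symm (OrderDual.toDual a)) := by
          rw [e.apply_symm_apply]
          have h6 : e bx = OrderDual.toDual ty := by rw [← hbt]; rfl
          rw [h6]; exact h4
        exact (apply_covBy_apply_iff e).1 h5
      · simp
    · rintro ⟨b, hb, rfl⟩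
      have h5 : e bx ⋖ e b := (apply_covBy_apply_iff e).2 hb
      have h6 := h5.ofDual
      rw [hbt] at h6
      exact h6
  rw [h3, Set.ncard_image_of_injective]
  intro a b hab
  exact e.injective (OrderDual.ofDual.injective hab)

lemma NN_of_SD {L : Type*} [Lattice L] (h : SD' L) : NN' L := by
  intro x y hxy
  obtain ⟨e⟩ := h x y hxy
  exact ncard_of_dual hxy e

end Pool.Agent.Helper87.ML
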