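import Pool.Agent.Helper87.ML.Uniq

set_option autoImplicit false

/-! The irredundant classification of the plane-free lattices. -/

namespace Pool.Agent.Helper87.ML

open TreePt

section ModelAtoms

variable {n : ℕ} (hn : 2 ≤ n) {d c : ℕ∞}

lemma up_mem (h : c ≠ 0) (i : Fin n) : up i o ∈ Model hn d c := by
  have h1 : ((1 : ℕ) : ℕ∞) ≤ c := by
    push_cast
    exact Order.one_le_iff_pos.2 (pos_iff_ne_zero.2 h)
  have h2 : pt hn 0 1 = up2 o := by
    apply TreePt.ext
    · rfl
    · show ((0 : ℕ) : ℤ) + 2 * ((1 : ℕ) : ℤ) = 0 + 2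
      norm_num
  exact ⟨(lt_up i o).le, 0, 1, by simp, h1, by rw [h2]; exact up_le_up2 i o⟩

lemma up_zero_mem (h : d ≠ 0) : up ⟨0, by omega⟩ o ∈ Model hn d c := by
  have h1 : ((1 : ℕ) : ℕ∞) ≤ d := by
    push_cast
    exact Order.one_le_iff_pos.2 (pos_iff_ne_zero.2 h)
  have h2 : pt hn 1 0 = up ⟨0, by omega⟩ o := by
    apply TreePt.ext
    · rfl
    · show ((1 : ℕ) : ℤ) + 2 * ((0 : ℕ) : ℤ) = 0 + 1
      norm_num
  exact ⟨(lt_up _ o).le, 1, 0, h1, by simp, by rw [h2]⟩

lemma model_atom {i : Fin n} (h : up i o ∈ Model hn d c) :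
    (⟨o, model_o_mem hn d c⟩ : Model hn d c) ⋖ ⟨up i o, h⟩ := by
  refine ⟨lt_up i o, ?_⟩
  intro z h1 h2
  have h3 := h_lt (show o < z.1 from h1)
  have h4 := h_lt (show z.1 < up i o from h2)
  have h5 : (up i (o : TreePt n)).h = 1 := rfl
  have h6 : (o : TreePt n).h = 0 := rfl
  omega

lemma model_adm (hr : Reduced n d c) : Adm (Model hn d c) ⟨o, model_o_mem hn d c⟩ where
  bot x := x.2.1
  ex := by
    rcases hr with ⟨-, -, hd⟩ | ⟨-, hc, -⟩
    · exact ⟨_, model_atom hn (up_zero_mem hn hd)⟩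
    · exact ⟨_, model_atom hn (up_mem hn hc ⟨0, by omega⟩)⟩
  below x hx := by
    have h1 : o < x.1 := lt_of_le_of_ne x.2.1 (fun h => hx (Subtype.ext h.symm))
    obtain ⟨i, hi⟩ := exists_up_le (by omega) h1
    have hmem : up i o ∈ Model hn d c := (model_ordConnected hn d c).out (model_o_mem hn d c) x.2
      ⟨(lt_up i o).le, hi⟩
    exact ⟨⟨up i o, hmem⟩, model_atom hn hmem, hi⟩
  third p q hp hq hpq := by
    obtain ⟨i, hi⟩ := model_cov_up hn hp
    obtain ⟨j, hj⟩ := model_cov_up hn hq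
    have hij : i ≠ j := by
      rintro rfl
      exact hpq (Subtype.ext (hi.trans hj.symm))
    rcases hr with ⟨-, hc, hd⟩ | ⟨hn3, hc, -⟩
    · exfalso
      subst hc
      have h1 := (c_zero hn p.2).1
      have h2 := (c_zero hn q.2).1
      have h3 : p.1.v.length = 1 := by
        rw [hi]
        show (nb i []).length = 1
        simp [nb]
      have h4 : q.1.v.length = 1 := by
        rw [hj]
        show (nb j []).length = 1
        simp [nb]
      rw [h3] at h1
      rw [h4] at h2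
      exact hpq (Subtype.ext (h1.trans h2.symm))
    · obtain ⟨e, he⟩ : ∃ e : Fin n, e ∉ ({i, j} : Finset (Fin n)) := by
        by_contra hcon
        push Not at hcon
        have h1 : (Finset.univ : Finset (Fin n)).card ≤ ({i, j} : Finset (Fin n)).card :=
          Finset.card_le_card fun x _ => hcon x
        have h2 := Finset.card_le_two (a := i) (b := j)
        rw [Finset.card_univ, Fintype.card_fin] at h1
        omega
      simp only [Finset.mem_insert, Finset.mem_singleton, not_or] at he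
      refine ⟨⟨up e o, up_mem hn hc e⟩, model_atom hn _, ?_, ?_, ?_⟩
      · intro h
        have h1 : up e o = up i o := (congrArg Subtype.val h).trans hi
        exact he.1 (up_inj h1)
      · intro h
        have h1 : up e o = up j o := (congrArg Subtype.val h).trans hj
        exact he.2 (up_inj h1)
      · intro z hpz hqz
        show up e o ≤ z.1
        refine (up_le_up2 e o).trans (up2_le_of hij ?_ ?_)
        · rw [← hi]; exact hpz
        · rw [← hj]; exact hqz

end ModelAtoms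

section RedProducts

/-- finite products of reduced models -/
def IsRed (K : Type*) [PartialOrder K] : Prop :=
  ∃ (ι : Type) (_ : Finite ι) (n : ι → ℕ) (hn : ∀ i, 2 ≤ n i) (d c : ι → ℕ∞),
    (∀ i, Reduced (n i) (d i) (c i)) ∧ Nonempty (K ≃o ∀ i, Model (hn i) (d i) (c i))

lemma isRed_prod {K K1 K2 : Type*} [PartialOrder K] [PartialOrder K1] [PartialOrder K2]
    (e : K ≃o K1 × K2) (h1 : IsRed K1) (h2 : IsRed K2) : IsRed K := by
  obtain ⟨ι1, hf1, n1, hn1, d1, c1, hr1, ⟨e1⟩⟩ := h1
  obtain ⟨ι2, hf2, n2, hn2, d2, c2, hr2, ⟨e2⟩⟩ := h2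
  refine ⟨ι1 ⊕ ι2, inferInstance, Sum.elim n1 n2, ?_, Sum.elim d1 d2, Sum.elim c1 c2, ?_, ⟨?_⟩⟩
  · rintro (i | i)
    · exact hn1 i
    · exact hn2 i
  · rintro (i | i)
    · exact hr1 i
    · exact hr2 i
  · refine e.trans (OrderIso.trans ?_ (sumPiIso _).symm)
    exact {
      toEquiv := e1.toEquiv.prodCongr e2.toEquiv
      map_rel_iff' := by
        rintro ⟨a, b⟩ ⟨a', b'⟩
        exact and_congr e1.le_iff_le e2.le_iff_le }

lemma isRed_model {K : Type*} [PartialOrder K] {n : ℕ} (hn : 2 ≤ n) {d c : ℕ∞}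
    (hr : Reduced n d c) (e : K ≃o Model hn d c) : IsRed K :=
  ⟨Unit, inferInstance, fun _ => n, fun _ => hn, fun _ => d, fun _ => c, fun _ => hr,
    ⟨e.trans (OrderIso.funUnique Unit (Model hn d c)).symm⟩⟩

lemma isRed_base {L : Type*} [Lattice L] [OrderBot L] {U : Set L} (hU : Idl U)
    (hC : ∀ a b, (⊥ : L) ⋖ a → a ∈ U → ⊥ ⋖ b → b ∈ U → a ≠ b → Th ⊥ a b) {n : ℕ} (hn : 2 ≤ n)
    (d c : ℕ∞) (e : U ≃o Model hn d c) : IsRed U := by
  by_cases hc : c = 0
  · subst hc
    by_cases hd : d = 0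
    · -- trivial lattice
      subst hd
      have h1 : ∀ z : Model hn 0 0, z = ⟨o, model_o_mem hn 0 0⟩ := by
        intro z
        obtain ⟨h1, h2⟩ := c_zero hn z.2
        have h3 : z.1.v.length = 0 := by
          have h3 := le_antisymm h2 (by simp)
          exact_mod_cast h3
        rw [h3] at h1
        apply Subtype.ext
        rw [h1]
        rfl
      have h2 : ∀ x y : U, x = y := fun x y => e.injective ((h1 _).trans (h1 _).symm)
      refine ⟨Empty, inferInstance, fun i => i.elim, fun i => i.elim, fun i => i.elim,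
        fun i => i.elim, fun i => i.elim, ⟨?_⟩⟩
      exact {
        toFun := fun _ i => i.elim
        invFun := fun _ => ⟨⊥, hU.bot⟩
        left_inv := fun x => h2 _ _
        right_inv := fun w => by
          funext i
          exact i.elim
        map_rel_iff' := by
          intro x y
          rw [h2 x y]
          exact ⟨fun _ => le_rfl, fun _ i => i.elim⟩ }
    · exact isRed_model (n := 2) le_rfl (Or.inl ⟨rfl, rfl, hd⟩)
        (e.trans ((chainIso hn d).symm.trans (chainIso le_rfl d)))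
  · have hn3 : 3 ≤ n := by
      by_contra hlt
      have hn2 : n = 2 := by omega
      subst hn2
      have hbot : e ⟨⊥, hU.bot⟩ = ⟨o, model_o_mem hn d c⟩ := by
        apply le_antisymm
        · rw [← e.le_symm_apply]
          exact (bot_le : (⊥ : L) ≤ _)
        · exact (e ⟨⊥, hU.bot⟩).2.1
      have hatom : ∀ i : Fin 2, (⊥ : L) ⋖ (e.symm ⟨up i o, up_mem hn hc i⟩).1 := by
        intro i
        have h1 : (⟨⊥, hU.bot⟩ : U) ⋖ e.symm ⟨up i o, up_mem hn hc i⟩ := by
          rw [← apply_covBy_apply_iff e, hbot, e.apply_symm_apply]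
          exact model_atom hn _
        refine ⟨h1.lt, fun z h2 h3 => ?_⟩
        exact h1.2 (c := ⟨z, hU.lower _ _ h3.le (Subtype.prop _)⟩) h2 h3
      set a := e.symm ⟨up 0 o, up_mem hn hc 0⟩ with ha
      set b := e.symm ⟨up 1 o, up_mem hn hc 1⟩ with hb
      have hab : a ≠ b := by
        intro h
        have h1 := e.symm.injective h
        have h2 := up_inj (congrArg Subtype.val h1)
        simp at h2
      obtain ⟨w, hw, hwab, hwa, hwb⟩ := hC a.1 b.1 (hatom 0) a.2 (hatom 1) b.2
        (fun h => hab (Subtype.ext h))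
      have hwU : w ∈ U := hU.lower _ _ hwab (hU.sup _ _ a.2 b.2)
      have h1 : (⟨⊥, hU.bot⟩ : U) ⋖ ⟨w, hwU⟩ := by
        refine ⟨hw.lt, fun z h2 h3 => ?_⟩
        exact hw.2 (c := z.1) h2 h3
      rw [← apply_covBy_apply_iff e, hbot] at h1
      obtain ⟨i, hi⟩ := model_cov_up hn h1
      have h2 : (⟨w, hwU⟩ : U) = e.symm ⟨up i o, up_mem hn hc i⟩ := by
        rw [e.eq_symm_apply]
        exact Subtype.ext hi
      have hi2 : i = 0 ∨ i = 1 := by
        rcases i with ⟨i, hi⟩
        interval_cases i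
        · left; rfl
        · right; rfl
      rcases hi2 with rfl | rfl
      · exact hwa (congrArg Subtype.val h2)
      · exact hwb (congrArg Subtype.val h2)
    by_cases hct : c = ⊤
    · subst hct
      have h1 : Nonempty (Model hn d ⊤ ≃o Model hn ⊤ ⊤) :=
        (model_iso hn hn d ⊤ ⊤ ⊤).2 (Or.inr (Or.inl ⟨rfl, rfl, rfl⟩))
      obtain ⟨e1⟩ := h1
      exact isRed_model hn (Or.inr ⟨hn3, hc, fun _ => rfl⟩) (e.trans e1)
    · exact isRed_model hn (Or.inr ⟨hn3, hc, fun h => absurd h hct⟩) e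

theorem isRed_fwd {L : Type*} [Lattice L] [Nonempty L] (hfin : ∀ x : L, (Set.Iic x).Finite)
    (hm : IsModularLattice L) (hfc : ∀ x : L, {y | x ⋖ y}.Finite) (hpf : PlaneFree L)
    (hs : SD' L) : IsRed L := by
  obtain ⟨b, hb⟩ := exists_bot hfin
  let inst : OrderBot L := { bot := b, bot_le := hb }
  have hF := LF.of_fin hfin
  have hN := NN_of_SD hs
  have h := dec_induction (L := L) hF hN (Q := fun U => IsRed U) (by
      intro U hU hC
      obtain ⟨n, hn, d, c, ⟨e⟩⟩ := base_case hfin hpf hs hU hC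
      exact isRed_base hU hC hn d c e) (by
      rintro U U1 U2 - - - ⟨e⟩ h1 h2
      exact isRed_prod e h1 h2) _ Set.univ
    ⟨Set.mem_univ _, fun _ _ _ _ => Set.mem_univ _, fun _ _ _ _ => Set.mem_univ _⟩
    ((hfc ⊥).subset fun c hc => hc.1) rfl
  obtain ⟨ι, hι, n, hn, d, c, hr, ⟨e⟩⟩ := h
  exact ⟨ι, hι, n, hn, d, c, hr, ⟨(OrderIso.Set.univ).symm.trans e⟩⟩

theorem planeFree_iff_red {L : Type*} [Lattice L] [Nonempty L]
    (hfin : ∀ x : L, (Set.Iic x).Finite) :
    (IsModularLattice L ∧ (∀ x : L, {y | x ⋖ y}.Finite) ∧ PlaneFree L ∧ SD' L) ↔ IsRed L := by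
  constructor
  · rintro ⟨hm, hfc, hpf, hs⟩
    exact isRed_fwd hfin hm hfc hpf hs
  · rintro ⟨ι, hι, n, hn, d, c, -, ⟨φ⟩⟩
    exact ⟨pi_modular φ, pi_covers φ, pi_planeFree φ, pi_sd φ⟩

/-- products of models are finitary lattices -/
theorem prod_lattice {ι : Type} [Finite ι] {n : ι → ℕ} (hn : ∀ i, 2 ≤ n i) (d c : ι → ℕ∞) :
    (∀ x y : (∀ i, Model (hn i) (d i) (c i)), (∃ j, IsLUB {x, y} j) ∧ ∃ g, IsGLB {x, y} g) ∧
    (∀ x : (∀ i, Model (hn i) (d i) (c i)), (Set.Iic x).Finite) ∧
    (Finite (∀ i, Model (hn i) (d i) (c i)) ↔ ∀ i, d i ≠ ⊤ ∧ c i ≠ ⊤) := by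
  classical
  refine ⟨?_, ?_, ?_⟩
  · intro x y
    have h := fun i => (model_lattice (hn i) (d i) (c i)).1 (x i) (y i)
    constructor
    · choose j hj using fun i => (h i).1
      refine ⟨j, ?_, ?_⟩
      · intro z hz
        simp only [Set.mem_insert_iff, Set.mem_singleton_iff] at hz
        rcases hz with rfl | rfl
        · exact fun i => (hj i).1 (by simp)
        · exact fun i => (hj i).1 (by simp)
      · intro z hz i
        apply (hj i).2
        intro w hw
        simp only [Set.mem_insert_iff, Set.mem_singleton_iff] at hw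
        rcases hw with rfl | rfl
        · exact hz (by simp : x ∈ ({x, y} : Set _)) i
        · exact hz (by simp : y ∈ ({x, y} : Set _)) i
    · choose j hj using fun i => (h i).2
      refine ⟨j, ?_, ?_⟩
      · intro z hz
        simp only [Set.mem_insert_iff, Set.mem_singleton_iff] at hz
        rcases hz with rfl | rfl
        · exact fun i => (hj i).1 (by simp)
        · exact fun i => (hj i).1 (by simp)
      · intro z hz i
        apply (hj i).2
        intro w hw
        simp only [Set.mem_insert_iff, Set.mem_singleton_iff] at hw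
        rcases hw with rfl | rfl
        · exact hz (by simp : x ∈ ({x, y} : Set _)) i
        · exact hz (by simp : y ∈ ({x, y} : Set _)) i
  · intro x
    have h1 : (Set.Iic x) = Set.pi Set.univ (fun i => Set.Iic (x i)) := by
      ext z
      simp [Pi.le_def]
    rw [h1]
    exact Set.Finite.pi fun i => ((model_lattice (hn i) (d i) (c i)).2 (x i)).1
  · constructor
    · intro hf i
      rw [← model_finite (hn i)]
      let z : ∀ k, Model (hn k) (d k) (c k) := fun k => ⟨o, model_o_mem (hn k) (d k) (c k)⟩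
      have hinj : Function.Injective (fun w : Model (hn i) (d i) (c i) =>
          Function.update z i w) := by
        intro w w' h
        have h1 := congrFun h i
        simpa using h1
      exact Finite.of_injective _ hinj
    · intro h
      have : ∀ i, Finite (Model (hn i) (d i) (c i)) := fun i => (model_finite (hn i) _ _).2 (h i)
      infer_instance

/-- the isomorphisms between products of reduced models -/
theorem prod_iso_iff {ι ι' : Type} {n : ι → ℕ} (hn : ∀ i, 2 ≤ n i) (d c : ι → ℕ∞)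
    {n' : ι' → ℕ} (hn' : ∀ i, 2 ≤ n' i) (d' c' : ι' → ℕ∞)
    (hr : ∀ i, Reduced (n i) (d i) (c i)) (hr' : ∀ i, Reduced (n' i) (d' i) (c' i)) :
    Nonempty ((∀ i, Model (hn i) (d i) (c i)) ≃o ∀ i, Model (hn' i) (d' i) (c' i)) ↔
      ∃ σ : ι ≃ ι', ∀ i, n i = n' (σ i) ∧ d i = d' (σ i) ∧ c i = c' (σ i) := by
  constructor
  · rintro ⟨Φ⟩
    obtain ⟨σ, hσ⟩ := prod_unique (b := fun i => ⟨o, model_o_mem (hn i) (d i) (c i)⟩)
      (b' := fun i => ⟨o, model_o_mem (hn' i) (d' i) (c' i)⟩)
      (fun i => model_adm (hn i) (hr i)) (fun i => model_adm (hn' i) (hr' i)) Φ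
    refine ⟨σ, fun i => ?_⟩
    have h1 := (model_iso (hn i) (hn' (σ i)) _ _ _ _).1 (hσ i)
    have h2 := hr i
    have h3 := hr' (σ i)
    rcases h1 with ⟨h1, h1', h1''⟩ | ⟨h1, h1', h1''⟩ | h1
    · rcases h2 with ⟨k1, k2, k3⟩ | ⟨k1, k2, k3⟩
      · rcases h3 with ⟨l1, l2, l3⟩ | ⟨l1, l2, l3⟩
        · exact ⟨k1.trans l1.symm, h1'', h1.trans h1'.symm⟩
        · exact absurd h1' l2
      · exact absurd h1 k2
    · rcases h2 with ⟨k1, k2, k3⟩ | ⟨k1, k2, k3⟩
      · rw [h1] at k2; simp at k2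
      · rcases h3 with ⟨l1, l2, l3⟩ | ⟨l1, l2, l3⟩
        · rw [h1'] at l2; simp at l2
        · exact ⟨h1'', (k3 h1).trans (l3 h1').symm, h1.trans h1'.symm⟩
    · exact h1
  · rintro ⟨σ, hσ⟩
    have h1 : ∀ i, Nonempty (Model (hn i) (d i) (c i) ≃o
        Model (hn' (σ i)) (d' (σ i)) (c' (σ i))) := fun i =>
      (model_iso (hn i) (hn' (σ i)) _ _ _ _).2 (Or.inr (Or.inr (hσ i)))
    let f := fun i => (h1 i).some
    have key : ∀ (w : ∀ i, Model (hn i) (d i) (c i)) (i : ι),
        Equiv.piCongrLeft (fun j => ↥(Model (hn' j) (d' j) (c' j))) σ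
          (fun i => f i (w i)) (σ i) = f i (w i) := fun w i =>
      Equiv.piCongrLeft_apply_apply _ _ _ _
    refine ⟨{
      toEquiv := (Equiv.piCongrRight fun i => (f i).toEquiv).trans
        (Equiv.piCongrLeft (fun j => ↥(Model (hn' j) (d' j) (c' j))) σ)
      map_rel_iff' := ?_ }⟩
    intro w w'
    show (Equiv.piCongrLeft (fun j => ↥(Model (hn' j) (d' j) (c' j))) σ
          (fun i => f i (w i))) ≤ (Equiv.piCongrLeft (fun j => ↥(Model (hn' j) (d' j) (c' j))) σ
          (fun i => f i (w' i))) ↔ w ≤ w'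
    constructor
    · intro h i
      have h2 := h (σ i)
      rw [key, key] at h2
      exact (f i).le_iff_le.1 h2
    · intro h j
      obtain ⟨i, rfl⟩ := σ.surjective j
      rw [key, key]
      exact (f i).le_iff_le.2 (h i)

end RedProducts

end Pool.Agent.Helper87.ML
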