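import Pool.Agent.Helper87.ML.Model

set_option autoImplicit false

/-! The classification of finitary lattices of breadth at most two. -/

namespace Pool.Agent.Helper87.ML

lemma Arb.par {n : ℕ} {P : Type*} [PartialOrder P] (A : Arb n P) (hn : 2 ≤ n) (m : ℕ) :
    ∀ x, A.k x = m → ∃ c, A.k x = A.d x + 2 * c := by
  induction m using Nat.strong_induction_on with
  | _ m ih =>
    intro x hx
    by_cases h : A.d x = A.k x
    · exact ⟨0, by rw [h]; rfl⟩
    · have h1 := A.card x h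
      have h2 : {y | x ⋖ y}.Nonempty := by
        apply Set.nonempty_of_ncard_ne_zero
        omega
      obtain ⟨y, hy⟩ := h2
      have h3 := A.k_cov hy
      have h4 := A.k_cov (A.s_cov x h y hy)
      obtain ⟨c, hc⟩ := ih (A.k (A.s x)) (by omega) (A.s x) rfl
      rw [A.s_d x h] at hc
      exact ⟨c + 1, by omega⟩

lemma NN'.dual {P : Type*} [Lattice P] (h : NN' P) : NN' Pᵒᵈ := by
  intro x y hxy
  have h1 := h (OrderDual.ofDual y) (OrderDual.ofDual x) hxy
  have e1 : {z | x ⋖ z ∧ z ≤ y} =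
      OrderDual.toDual '' {z | OrderDual.ofDual y ≤ z ∧ z ⋖ OrderDual.ofDual x} := by
    ext z
    constructor
    · rintro ⟨h1, h2⟩
      exact ⟨OrderDual.ofDual z, ⟨h2, h1.ofDual⟩, rfl⟩
    · rintro ⟨w, ⟨h1, h2⟩, rfl⟩
      exact ⟨h2.toDual, h1⟩
  have e2 : {z | x ≤ z ∧ z ⋖ y} =
      OrderDual.toDual '' {z | OrderDual.ofDual y ⋖ z ∧ z ≤ OrderDual.ofDual x} := by
    ext z
    constructor
    · rintro ⟨h1, h2⟩
      exact ⟨OrderDual.ofDual z, ⟨h2.ofDual, h1⟩, rfl⟩
    · rintro ⟨w, ⟨h1, h2⟩, rfl⟩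
      exact ⟨h2, h1.toDual⟩
  rw [e1, e2, Set.ncard_image_of_injective _ OrderDual.toDual.injective,
    Set.ncard_image_of_injective _ OrderDual.toDual.injective, h1]

lemma exists_bot {L : Type*} [Lattice L] [Nonempty L] (hfin : ∀ x : L, (Set.Iic x).Finite) :
    ∃ b : L, ∀ x, b ≤ x := by
  obtain ⟨x0⟩ := (inferInstance : Nonempty L)
  obtain ⟨b, hb⟩ := (hfin x0).exists_minimal ⟨x0, le_rfl⟩
  refine ⟨b, fun x => ?_⟩
  have h1 : b ⊓ x ≤ b := inf_le_left
  exact (hb.2 (show b ⊓ x ∈ Set.Iic x0 from h1.trans hb.1) h1).trans inf_le_right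

open TreePt

/-- the local structure of a finitary modular lattice of breadth two with self-dual intervals -/
lemma exists_arb_of_sd {L : Type*} [Lattice L] [Nonempty L] [IsModularLattice L]
    (hfin : ∀ x : L, (Set.Iic x).Finite) (hb : Breadth2 L) (hs : SD' L) :
    ∃ n, 2 ≤ n ∧ Nonempty (Arb n Lᵒᵈ) := by
  obtain ⟨b, hbot⟩ := exists_bot hfin
  let inst : OrderBot L := { bot := b, bot_le := hbot }
  exact exists_arb (P := Lᵒᵈ) ⟨fun x => hfin (OrderDual.ofDual x), hb.dual, (NN_of_SD hs).dual⟩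

section Embed

variable {n : ℕ} {L : Type*} [Lattice L] (k d : L → ℕ) (M : Set (TreePt n))

/-- `f` embeds the elements below `x` into `M` as a lower set above `o` -/
structure GoodMap (x : L) (f : L → TreePt n) : Prop where
  mono : ∀ y z, y ≤ x → z ≤ x → (y ≤ z ↔ f y ≤ f z)
  mem : ∀ y, y ≤ x → f y ∈ M
  above : ∀ y, y ≤ x → o ≤ f y
  h : ∀ y, y ≤ x → (f y).h = k y
  l : ∀ y, y ≤ x → (f y).v.length = d y
  low : ∀ y, y ≤ x → ∀ z, o ≤ z → z ≤ f y → ∃ w, w ≤ y ∧ f w = z

variable {k d M}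

open Classical in
lemma exists_global [Nonempty L] (hfin : ∀ x : L, (Set.Iic x).Finite)
    (hex : ∀ x, ∃ f : L → TreePt n, GoodMap k d M x f) :
    ∃ f : L → TreePt n, ∀ x, GoodMap k d M x f := by
  choose F hF using hex
  obtain ⟨b, hb⟩ := exists_bot hfin
  let inst : OrderBot L := { bot := b, bot_le := hb }
  have hfinite : ∀ a : L, Finite {z : TreePt n // o ≤ z ∧ z.h ≤ k a} := fun a =>
    finite_below (k a)
  obtain ⟨χ, hχ⟩ := Finset.rado_selection (β := fun a : L => {z : TreePt n // o ≤ z ∧ z.h ≤ k a})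
    (fun s a => if h : a ≤ s.sup id then ⟨F (s.sup id) a, (hF _).above a h, ((hF _).h a h).le⟩
      else ⟨o, le_rfl, by show (0 : ℤ) ≤ k a; omega⟩)
  have key : ∀ s : Finset L, ∃ x, (∀ a ∈ s, a ≤ x) ∧ ∀ a ∈ s, (χ a).1 = F x a := by
    intro s
    obtain ⟨t, hst, h⟩ := hχ s
    have h1 : ∀ a ∈ s, a ≤ t.sup id := fun a ha => Finset.le_sup (f := id) (hst ha)
    refine ⟨t.sup id, h1, fun a ha => ?_⟩
    rw [h a ha, dif_pos (h1 a ha)]
  refine ⟨fun a => (χ a).1, fun x => ?_⟩
  constructor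
  · intro y z _ _
    obtain ⟨t, h1, h2⟩ := key {y, z}
    have hy := h2 y (by simp)
    have hz := h2 z (by simp)
    show y ≤ z ↔ (χ y).1 ≤ (χ z).1
    rw [hy, hz]
    exact (hF t).mono y z (h1 y (by simp)) (h1 z (by simp))
  · intro y _
    obtain ⟨t, h1, h2⟩ := key {y}
    show (χ y).1 ∈ M
    rw [h2 y (by simp)]
    exact (hF t).mem y (h1 y (by simp))
  · intro y _
    obtain ⟨t, h1, h2⟩ := key {y}
    show o ≤ (χ y).1
    rw [h2 y (by simp)]
    exact (hF t).above y (h1 y (by simp))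
  · intro y _
    obtain ⟨t, h1, h2⟩ := key {y}
    show (χ y).1.h = k y
    rw [h2 y (by simp)]
    exact (hF t).h y (h1 y (by simp))
  · intro y _
    obtain ⟨t, h1, h2⟩ := key {y}
    show (χ y).1.v.length = d y
    rw [h2 y (by simp)]
    exact (hF t).l y (h1 y (by simp))
  · intro y _ z hz hzy
    obtain ⟨t, h1, h2⟩ := key (hfin y).toFinset
    have hy := h2 y (by simp)
    have hzy' : z ≤ (χ y).1 := hzy
    rw [hy] at hzy'
    obtain ⟨w, hw, hwz⟩ := (hF t).low y (h1 y (by simp)) z hz hzy'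
    refine ⟨w, hw, ?_⟩
    show (χ w).1 = z
    rw [h2 w (by simpa using hw), hwz]

end Embed

section Main

variable {n : ℕ} (hn : 2 ≤ n) {L : Type*} [Lattice L] (A : Arb n Lᵒᵈ)

include hn

/-- local embeddings -/
lemma exists_local (M : Set (TreePt n)) (hM : ∀ z w, z ≤ w → o ≤ z → w ∈ M → z ∈ M) (x : L)
    (a b : ℕ) (hk : A.k (OrderDual.toDual x) = a + 2 * b) (hd : A.d (OrderDual.toDual x) = a)
    (hpt : pt hn a b ∈ M) :
    ∃ f : L → TreePt n, f x = pt hn a b ∧
      GoodMap (fun y => A.k (OrderDual.toDual y)) (fun y => A.d (OrderDual.toDual y)) M x f := by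
  have hso : star (o : TreePt n) = o := by
    apply TreePt.ext
    · rfl
    · show -(0 : ℤ) = 0
      rfl
  have hle : star (pt hn a b) ≤ o := by
    rw [star_le', hso]; exact o_le_pt hn a b
  obtain ⟨⟨F, G, hT⟩, -⟩ := Arb.exists_tiso (A := A) (A' := arb o hn) hn (a + 2 * b)
    (OrderDual.toDual x) ⟨star (pt hn a b), hle⟩ hk (by
      show ((0 : ℤ) - (-((a : ℤ) + 2 * b))).toNat = a + 2 * b
      omega) (by
      show td (alt hn a) [] = _
      rw [td_comm, td_nil, alt_length, hd])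
  have hbase := hT.map_base
  have hFx : star (F (OrderDual.toDual x)).1 = pt hn a b := by
    rw [hbase]; exact star_star _
  have hmono : ∀ y z : L, y ≤ x → z ≤ x →
      (y ≤ z ↔ star (F (OrderDual.toDual y)).1 ≤ star (F (OrderDual.toDual z)).1) := by
    intro y z hy hz
    rw [star_le]
    exact hT.mono (OrderDual.toDual z) (OrderDual.toDual y) hz hy
  refine ⟨fun y => star (F (OrderDual.toDual y)).1, hFx, ?_⟩
  have habove : ∀ y : L, o ≤ star (F (OrderDual.toDual y)).1 := by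
    intro y
    rw [le_star', hso]
    exact (F (OrderDual.toDual y)).2
  constructor
  · exact hmono
  · intro y hy
    refine hM _ _ ((hmono y x hy le_rfl).1 hy) (habove y) ?_
    rw [hFx]; exact hpt
  · exact fun y _ => habove y
  · intro y hy
    have h1 := hT.k (OrderDual.toDual y) hy
    have h2 := kk_cast (F (OrderDual.toDual y))
    have h3 : (arb o hn).k (F (OrderDual.toDual y)) = kk o (F (OrderDual.toDual y)) := rfl
    have h4 : (o : TreePt n).h = 0 := rfl
    show -(F (OrderDual.toDual y)).1.h = (A.k (OrderDual.toDual y) : ℤ)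
    rw [h3] at h1
    rw [h4] at h2
    omega
  · intro y hy
    have h1 := hT.d (OrderDual.toDual y) hy
    have h2 : (arb o hn).d (F (OrderDual.toDual y)) = td (F (OrderDual.toDual y)).1.v [] := rfl
    rw [h2, td_comm, td_nil] at h1
    exact h1
  · intro y hy z hz hzy
    have hz' : star z ≤ o := by rw [star_le', hso]; exact hz
    have h1 : F (OrderDual.toDual y) ≤ ⟨star z, hz'⟩ := by
      show (F (OrderDual.toDual y)).1 ≤ star z
      rw [le_star']; exact hzy
    have h2 : (⟨star (pt hn a b), hle⟩ : {x : TreePt n // x ≤ o}) ≤ ⟨star z, hz'⟩ :=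
      (hT.le _ hy).trans h1
    have h3 := hT.le' _ h2
    have h4 := hT.fg _ h2
    refine ⟨OrderDual.ofDual (G ⟨star z, hz'⟩), ?_, ?_⟩
    · have h5 := (hT.mono (OrderDual.toDual y) (G ⟨star z, hz'⟩) hy h3).2 (by rw [h4]; exact h1)
      exact h5
    · show star (F (G ⟨star z, hz'⟩)).1 = z
      rw [h4, star_star]

end Main

end Pool.Agent.Helper87.ML
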