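import Pool.Agent.Helper87.ML.Arb

set_option autoImplicit false

/-! Modular lattices of breadth at most two in which every interval has as many atoms as coatoms
have the local structure of the tree lattice. -/

namespace Pool.Agent.Helper87.ML

/-- breadth at most two -/
def Breadth2 (P : Type*) [Lattice P] : Prop :=
  ∀ x y z : P, x ⊔ y ⊔ z = x ⊔ y ∨ x ⊔ y ⊔ z = x ⊔ z ∨ x ⊔ y ⊔ z = y ⊔ z

/-- every interval has as many atoms as coatoms -/
def NN' (P : Type*) [Lattice P] : Prop :=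
  ∀ x y : P, x ≤ y → {z | x ⋖ z ∧ z ≤ y}.ncard = {z | x ≤ z ∧ z ⋖ y}.ncard

lemma Breadth2.dual {P : Type*} [Lattice P] (h : Breadth2 P) : Breadth2 Pᵒᵈ := by
  intro x y z
  have key : ∀ x y z : P, x ⊓ y ⊓ z = x ⊓ y ∨ x ⊓ y ⊓ z = x ⊓ z ∨ x ⊓ y ⊓ z = y ⊓ z := by
    intro x y z
    rcases h (x ⊓ y) (x ⊓ z) (y ⊓ z) with h1 | h1 | h1
    · right; right
      have h2 : y ⊓ z ≤ x := by
        have : y ⊓ z ≤ (x ⊓ y) ⊔ (x ⊓ z) := by rw [← h1]; exact le_sup_right
        exact this.trans (sup_le inf_le_left inf_le_left)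
      rw [inf_assoc]
      exact inf_eq_right.2 h2
    · right; left
      have h2 : x ⊓ z ≤ y := by
        have : x ⊓ z ≤ (x ⊓ y) ⊔ (y ⊓ z) := by
          rw [← h1]; exact le_sup_right.trans le_sup_left
        exact this.trans (sup_le inf_le_right inf_le_left)
      rw [inf_assoc, inf_comm y z, ← inf_assoc]
      exact inf_eq_left.2 h2
    · left
      have h2 : x ⊓ y ≤ z := by
        have : x ⊓ y ≤ (x ⊓ z) ⊔ (y ⊓ z) := by
          rw [← h1]; exact le_sup_left.trans le_sup_left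
        exact this.trans (sup_le inf_le_right inf_le_right)
      exact inf_eq_left.2 h2
  exact key x y z

section

variable {P : Type*} [Lattice P] [IsModularLattice P]

omit [IsModularLattice P] in
lemma inf_base {o u x : P} (hou : o ⋖ u) (hox : o ≤ x) (hux : ¬ u ≤ x) : x ⊓ u = o := by
  have h1 : x ⊓ u < u := lt_of_le_of_ne inf_le_right (fun h => hux (inf_eq_right.1 h))
  rcases eq_or_lt_of_le (le_inf hox hou.le) with h | h
  · exact h.symm
  · exact absurd h1 (hou.2 h)

lemma cov_sup {o u x : P} (hou : o ⋖ u) (hox : o ≤ x) (hux : ¬ u ≤ x) : x ⋖ x ⊔ u := by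
  apply covBy_sup_of_inf_covBy_right
  rw [inf_base hou hox hux]
  exact hou

omit [IsModularLattice P] in
lemma not_le_cov {o u v : P} (hu : o ⋖ u) (hv : o ⋖ v) (h : u ≠ v) : ¬ u ≤ v := by
  intro hle
  rcases eq_or_lt_of_le hle with h' | h'
  · exact h h'
  · exact hv.2 hu.lt h'

lemma cov_sup' {o u v : P} (hu : o ⋖ u) (hv : o ⋖ v) (h : u ≠ v) : u ⋖ u ⊔ v :=
  cov_sup hv hu.le (not_le_cov hv hu h.symm)

omit [IsModularLattice P] in
/-- two elements covering the same element and one below the other agree -/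
lemma eq_of_cov_le {o u v : P} (hu : o ⋖ u) (hv : o ⋖ v) (h : u ≤ v) : u = v := by
  by_contra hne
  exact not_le_cov hu hv hne h

/-- pairwise joins of three covers agree -/
lemma join_eq (hb : Breadth2 P) {x y y' c : P} (hy : x ⋖ y) (hy' : x ⋖ y') (hc : x ⋖ c)
    (hne : y ≠ y') (hcy : c ≠ y) : y ⊔ c = y ⊔ y' := by
  by_cases h : c = y'
  · rw [h]
  have h1 := cov_sup' hy hy' hne
  have h2 := cov_sup' hy hc hcy.symm
  have h3 := cov_sup' hy' hc (Ne.symm h)
  have h4 : y' ⋖ y' ⊔ y := cov_sup' hy' hy hne.symm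
  have h5 : c ⋖ c ⊔ y := cov_sup' hc hy hcy
  have h6 : c ⋖ c ⊔ y' := cov_sup' hc hy' h
  rcases hb y y' c with h0 | h0 | h0
  · have hle : c ≤ y ⊔ y' := by rw [← h0]; exact le_sup_right
    exact eq_of_cov_le h2 h1 (sup_le le_sup_left hle)
  · have hle : y' ≤ y ⊔ c := by rw [← h0]; exact le_sup_right.trans le_sup_left
    exact (eq_of_cov_le h1 h2 (sup_le le_sup_left hle)).symm
  · have hle : y ≤ y' ⊔ c := by rw [← h0]; exact le_sup_left.trans le_sup_left
    have e1 : y' ⊔ y = y' ⊔ c := eq_of_cov_le h4 h3 (sup_le le_sup_left hle)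
    have e2 : c ⊔ y = c ⊔ y' := eq_of_cov_le h5 h6 (sup_le le_sup_left (by rwa [sup_comm c y']))
    rw [sup_comm y c, e2, sup_comm c y', ← e1, sup_comm y' y]

/-- two distinct covers -/
def Two (x : P) : Prop := ∃ y y', x ⋖ y ∧ x ⋖ y' ∧ y ≠ y'

omit [IsModularLattice P] in
lemma eq_of_not_two {x y y' : P} (h : ¬ Two x) (hy : x ⋖ y) (hy' : x ⋖ y') : y = y' := by
  by_contra hne
  exact h ⟨y, y', hy, hy', hne⟩

open Classical in
/-- join of the covers -/
noncomputable def sj (x : P) : P :=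
  if h : Two x then h.choose ⊔ h.choose_spec.choose else x

omit [IsModularLattice P] in
lemma sj_spec {x : P} (h : Two x) : ∃ a b, x ⋖ a ∧ x ⋖ b ∧ a ≠ b ∧ sj x = a ⊔ b :=
  ⟨h.choose, h.choose_spec.choose, h.choose_spec.choose_spec.1, h.choose_spec.choose_spec.2.1,
    h.choose_spec.choose_spec.2.2, by unfold sj; rw [dif_pos h]⟩

lemma sj_eq (hb : Breadth2 P) {x y y' : P} (hy : x ⋖ y) (hy' : x ⋖ y') (hne : y ≠ y') :
    sj x = y ⊔ y' := by
  obtain ⟨a, b, ha, hb', hab, e⟩ := sj_spec (⟨y, y', hy, hy', hne⟩ : Two x)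
  rw [e]
  by_cases hay : a = y
  · rw [hay] at hab ⊢
    exact join_eq hb hy hy' hb' hne hab.symm
  · rw [← join_eq hb hy hy' ha hne hay, sup_comm y a]
    exact (join_eq hb ha hb' hy hab (Ne.symm hay)).symm

omit [IsModularLattice P] in
lemma other {x y : P} (h : Two x) : ∃ y', x ⋖ y' ∧ y ≠ y' := by
  obtain ⟨a, b, ha, hb, hab⟩ := h
  by_cases hya : y = a
  · exact ⟨b, hb, by rw [hya]; exact hab⟩
  · exact ⟨a, ha, hya⟩

lemma sj_cov (hb : Breadth2 P) {x y : P} (h : Two x) (hy : x ⋖ y) : y ⋖ sj x := by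
  obtain ⟨y', hy', hne⟩ := other (y := y) h
  rw [sj_eq hb hy hy' hne]
  exact cov_sup' hy hy' hne

lemma lt_sj (hb : Breadth2 P) {x : P} (h : Two x) : x < sj x := by
  obtain ⟨a, b, ha, hb', hab⟩ := id h
  exact ha.lt.trans (sj_cov hb h ha).lt

end

section Fin

variable {P : Type*} [Lattice P]

lemma fin_cov (hfin : ∀ x : P, (Set.Ici x).Finite) {x z : P} (h : x < z) :
    ∃ y, x ⋖ y ∧ y ≤ z := by
  have hf : {y | x < y ∧ y ≤ z}.Finite := (hfin x).subset fun y hy => hy.1.le
  obtain ⟨y, hy⟩ := hf.exists_minimal ⟨z, h, le_rfl⟩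
  refine ⟨y, ⟨hy.1.1, fun w hxw hwy => ?_⟩, hy.1.2⟩
  exact absurd (hy.2 ⟨hxw, hwy.le.trans hy.1.2⟩ hwy.le) (not_le_of_gt hwy)

lemma fin_cov' (hfin : ∀ x : P, (Set.Ici x).Finite) {x z : P} (h : x < z) :
    ∃ y, x ≤ y ∧ y ⋖ z := by
  have hf : {y | x ≤ y ∧ y < z}.Finite := (hfin x).subset fun y hy => hy.1
  obtain ⟨y, hy⟩ := hf.exists_maximal ⟨x, le_rfl, h⟩
  refine ⟨y, hy.1.1, ⟨hy.1.2, fun w hyw hwz => ?_⟩⟩
  exact absurd (hy.2 ⟨hy.1.1.trans hyw.le, hwz⟩ hyw.le) (not_le_of_gt hyw)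

lemma fin_wf (hfin : ∀ x : P, (Set.Ici x).Finite) : WellFoundedGT P := by
  refine ⟨?_⟩
  rw [WellFounded.wellFounded_iff_has_min]
  intro s hs
  obtain ⟨x, hx⟩ := hs
  have hf : {y | x ≤ y ∧ y ∈ s}.Finite := (hfin x).subset fun y hy => hy.1
  obtain ⟨y, hy⟩ := hf.exists_maximal ⟨x, le_rfl, hx⟩
  refine ⟨y, hy.1.2, fun w hw hyw => ?_⟩
  exact absurd (hy.2 ⟨hy.1.1.trans (le_of_lt hyw), hw⟩ (le_of_lt hyw)) (not_le_of_gt hyw)

/-- Hypotheses: modular (a class), finite upper sets, breadth two, as many atoms as coatoms in every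
interval. -/
structure Good (P : Type*) [Lattice P] : Prop where
  fin : ∀ x : P, (Set.Ici x).Finite
  br : Breadth2 P
  nn : NN' P

variable [OrderTop P] [IsModularLattice P]

section Len

open Classical in
/-- length of the interval from `x` to the top -/
noncomputable def len (hG : Good P) : P → ℕ :=
  (fin_wf hG.fin).wf.fix fun x ih =>
    if h : ∃ y, x ⋖ y then ih h.choose h.choose_spec.lt + 1 else 0

open Classical in
omit [OrderTop P] [IsModularLattice P] in
lemma len_eq (hG : Good P) (x : P) : (¬ (∃ y, x ⋖ y) ∧ len hG x = 0) ∨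
    ∃ y, x ⋖ y ∧ len hG x = len hG y + 1 := by
  by_cases h : ∃ y, x ⋖ y
  · right
    refine ⟨h.choose, h.choose_spec, ?_⟩
    unfold len
    rw [WellFounded.fix_eq, dif_pos h]
  · left
    refine ⟨h, ?_⟩
    unfold len
    rw [WellFounded.fix_eq, dif_neg h]

omit [OrderTop P] in
lemma len_cov (hG : Good P) : ∀ {x y : P}, x ⋖ y → len hG y + 1 = len hG x := by
  have := fin_wf hG.fin
  intro x
  induction x using WellFoundedGT.induction with
  | _ x ih =>
    intro y hy
    rcases len_eq hG x with ⟨h, -⟩ | ⟨y', hy', h⟩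
    · exact absurd ⟨y, hy⟩ h
    · by_cases hne : y = y'
      · rw [hne, h]
      · have h1 := ih y hy.lt (cov_sup' hy hy' hne)
        have h2 := ih y' hy'.lt (cov_sup' hy' hy (Ne.symm hne))
        rw [sup_comm y' y] at h2
        omega

omit [OrderTop P] in
lemma len_lt (hG : Good P) : ∀ {x y : P}, x < y → len hG y < len hG x := by
  have := fin_wf hG.fin
  intro x
  induction x using WellFoundedGT.induction with
  | _ x ih =>
    intro y hxy
    obtain ⟨z, hz, hzy⟩ := fin_cov hG.fin hxy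
    have h1 := len_cov hG hz
    rcases eq_or_lt_of_le hzy with h | h
    · rw [← h]; omega
    · have := ih z hz.lt h
      omega

omit [IsModularLattice P] in
lemma len_top (hG : Good P) : len hG (⊤ : P) = 0 := by
  rcases len_eq hG (⊤ : P) with ⟨-, h⟩ | ⟨y, hy, -⟩
  · exact h
  · exact absurd hy.lt not_top_lt

lemma cov_of_len (hG : Good P) {x : P} (h : len hG x ≠ 0) : ∃ y, x ⋖ y := by
  have h1 : x < ⊤ := by
    rw [lt_top_iff_ne_top]
    rintro rfl
    exact h (len_top hG)
  obtain ⟨y, hy, -⟩ := fin_cov hG.fin h1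
  exact ⟨y, hy⟩

lemma eq_top_of_len (hG : Good P) {x : P} (h : len hG x = 0) : x = ⊤ := by
  by_contra hne
  have h1 : x < ⊤ := lt_top_iff_ne_top.2 hne
  have := len_lt hG h1
  omega

end Len

/-- number of covers -/
noncomputable def nc (x : P) : ℕ := {z | x ⋖ z}.ncard

section Counting

variable (hG : Good P)

include hG

omit [OrderTop P] in
lemma cov_le_sj {x y : P} (h : Two x) (hy : x ⋖ y) : y ≤ sj x := (sj_cov hG.br h hy).le

omit [OrderTop P] [IsModularLattice P] in
lemma fin_covs (x : P) : {z | x ⋖ z}.Finite := (hG.fin x).subset fun _ hz => hz.le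

omit [OrderTop P] in
/-- the coatoms of `[x, sj x]` -/
lemma coatom_sj {x w : P} (h : Two x) (hxw : x ≤ w) (hw : w ⋖ sj x) : x ⋖ w := by
  have h1 : x < w := by
    apply lt_of_le_of_ne hxw
    rintro rfl
    obtain ⟨a, b, ha, hb, hab⟩ := id h
    exact hw.2 ha.lt (sj_cov hG.br h ha).lt
  obtain ⟨y, hy, hyw⟩ := fin_cov hG.fin h1
  rcases eq_or_lt_of_le hyw with h2 | h2
  · rwa [← h2]
  · exact absurd hw.lt ((sj_cov hG.br h hy).2 h2)

omit [OrderTop P] in
/-- above an element with a unique cover -/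
lemma not_two_of_cov {x y : P} (h : ¬ Two x) (hy : x ⋖ y) : ¬ Two y := by
  intro h2
  obtain ⟨a, b, ha, hb, hab⟩ := h2
  have h1 := hG.nn x (a ⊔ b) (hy.le.trans (ha.le.trans le_sup_left))
  have h3 : {z | x ⋖ z ∧ z ≤ a ⊔ b}.ncard ≤ 1 := by
    rw [Set.ncard_le_one (s := {z | x ⋖ z ∧ z ≤ a ⊔ b})
      ((fin_covs hG x).subset fun _ hz => hz.1)]
    intro u hu v hv
    exact eq_of_not_two h hu.1 hv.1
  rw [h1, Set.ncard_le_one (s := {z | x ≤ z ∧ z ⋖ a ⊔ b})
      ((hG.fin x).subset fun _ hz => hz.1)] at h3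
  apply hab
  refine h3 a ⟨hy.le.trans ha.le, cov_sup' ha hb hab⟩ b ⟨hy.le.trans hb.le, ?_⟩
  rw [sup_comm]
  exact cov_sup' hb ha hab.symm

omit [OrderTop P] in
/-- the coatoms of `sj y` -/
lemma coatom_above {y w : P} (h2 : Two y) (hw : w ⋖ sj y) : y ⋖ w := by
  obtain ⟨a, b, ha, hb, hab⟩ := id h2
  have ha' := sj_cov hG.br h2 ha
  have hb' := sj_cov hG.br h2 hb
  by_cases hwa : w = a
  · rw [hwa]; exact ha
  · apply coatom_sj hG h2 _ hw
    have h1 := join_eq (P := Pᵒᵈ) hG.br.dual (x := OrderDual.toDual (sj y))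
      (y := OrderDual.toDual a) (y' := OrderDual.toDual b) (c := OrderDual.toDual w)
      ha'.toDual hb'.toDual hw.toDual hab hwa
    have h3 : a ⊓ w = a ⊓ b := h1
    have h4 : y ≤ a ⊓ b := le_inf ha.le hb.le
    rw [← h3] at h4
    exact h4.trans inf_le_right

omit [OrderTop P] in
lemma nc_eq {x y : P} (hy : x ⋖ y) (h : Two x) (h2 : Two y) : nc x = nc y := by
  have hs : sj x ≤ sj y := (sj_cov hG.br h2 (sj_cov hG.br h hy)).le
  have h1 := hG.nn x (sj y) (hy.le.trans (lt_sj hG.br h2).le)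
  have e1 : {z | x ⋖ z ∧ z ≤ sj y} = {z | x ⋖ z} := by
    ext z
    constructor
    · exact fun hz => hz.1
    · exact fun hz => ⟨hz, (cov_le_sj hG h hz).trans hs⟩
  have e2 : {z | x ≤ z ∧ z ⋖ sj y} = {z | y ⋖ z} := by
    ext z
    constructor
    · exact fun hz => coatom_above hG h2 hz.2
    · exact fun hz => ⟨hy.le.trans (CovBy.le hz), sj_cov hG.br h2 hz⟩
  rw [e1, e2] at h1
  exact h1

omit [OrderTop P] in
lemma sj_inj_le {y y' : P} (h : Two y) (h' : Two y') (he : sj y = sj y') : y' ≤ y := by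
  obtain ⟨a, b, ha, hb, hab⟩ := id h
  have ha' := sj_cov hG.br h ha
  have hb' := sj_cov hG.br h hb
  rw [he] at ha' hb'
  have h1 := coatom_above hG h' ha'
  have h2 := coatom_above hG h' hb'
  rw [← inf_base ha hb.le (not_le_cov ha hb hab)]
  exact le_inf h2.le h1.le

omit [OrderTop P] in
lemma sj_inj {y y' : P} (h : Two y) (h' : Two y') (he : sj y = sj y') : y = y' :=
  le_antisymm (sj_inj_le hG h' h he.symm) (sj_inj_le hG h h' he)

omit [OrderTop P] in
lemma two_of_cov {x y : P} (hy : x ⋖ y) (h : Two y) : Two x := by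
  by_contra h2
  exact not_two_of_cov hG h2 hy h

omit [OrderTop P] in
lemma two_of_sj {x y : P} (h : Two x) (h2 : Two (sj x)) (hy : x ⋖ y) : Two y :=
  two_of_cov hG (sj_cov hG.br h hy) h2

omit [OrderTop P] in
lemma sj_surj {x e : P} (h : Two x) (h2 : Two (sj x)) (he : sj x ⋖ e) :
    ∃ y, x ⋖ y ∧ sj y = e := by
  have h1 : sj '' {y | x ⋖ y} = {e | sj x ⋖ e} := by
    apply Set.eq_of_subset_of_ncard_le _ _ (fin_covs hG (sj x))
    · rintro _ ⟨y, hy, rfl⟩
      exact sj_cov hG.br (two_of_sj hG h h2 hy) (sj_cov hG.br h hy)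
    · rw [Set.InjOn.ncard_image]
      · obtain ⟨y, -, hy, -, -⟩ := id h
        have h3 := two_of_sj hG h h2 hy
        have h4 := nc_eq hG hy h h3
        have h5 := nc_eq hG (sj_cov hG.br h hy) h3 h2
        exact (h4.trans h5).ge
      · intro y hy y' hy' hyy
        exact sj_inj hG (two_of_sj hG h h2 hy) (two_of_sj hG h h2 hy') hyy
  have h3 : e ∈ sj '' {y | x ⋖ y} := by rw [h1]; exact he
  exact h3

omit hG in
open Classical in
/-- the type of `x` -/
noncomputable def ty (hG : Good P) : P → ℕ :=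
  (fin_wf hG.fin).wf.fix fun x ih =>
    if h : Two x then ih (sj x) (lt_sj hG.br h) else len hG x

omit [OrderTop P] in
lemma ty_two {x : P} (h : Two x) : ty hG x = ty hG (sj x) := by
  conv_lhs => unfold ty
  rw [WellFounded.fix_eq, dif_pos h]
  rfl

omit [OrderTop P] in
lemma ty_not {x : P} (h : ¬ Two x) : ty hG x = len hG x := by
  unfold ty
  rw [WellFounded.fix_eq, dif_neg h]

omit [OrderTop P] in
lemma len_sj {x : P} (h : Two x) : len hG (sj x) + 2 = len hG x := by
  obtain ⟨y, -, hy, -, -⟩ := id h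
  have h1 := len_cov hG hy
  have h2 := len_cov hG (sj_cov hG.br h hy)
  omega

omit [OrderTop P] in
lemma ty_le (x : P) : ∃ c, len hG x = ty hG x + 2 * c ∧ (Two x ↔ c ≠ 0) := by
  have := fin_wf hG.fin
  induction x using WellFoundedGT.induction with
  | _ x ih =>
    by_cases h : Two x
    · obtain ⟨c, hc, -⟩ := ih (sj x) (lt_sj hG.br h)
      refine ⟨c + 1, ?_, ?_⟩
      · rw [ty_two hG h, ← len_sj hG h, hc]; ring
      · simp [h]
    · exact ⟨0, by rw [ty_not hG h]; rfl, by simp [h]⟩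

omit [OrderTop P] in
lemma ty_ne_iff (x : P) : ty hG x ≠ len hG x ↔ Two x := by
  obtain ⟨c, h1, h2⟩ := ty_le hG x
  rw [h2]
  omega

/-- types of the covers -/
lemma types (x : P) : Two x → (ty hG x = 0 → ∀ y, x ⋖ y → ty hG y = 1) ∧
    (ty hG x ≠ 0 → ∃ y0, x ⋖ y0 ∧ ty hG y0 + 1 = ty hG x ∧
      ∀ y, x ⋖ y → y ≠ y0 → ty hG y = ty hG x + 1) := by
  have := fin_wf hG.fin
  induction x using WellFoundedGT.induction with
  | _ x ih =>
    intro h
    have hls := len_sj hG h
    by_cases h2 : Two (sj x)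
    · -- the join of the covers is branched
      obtain ⟨h3, h4⟩ := ih (sj x) (lt_sj hG.br h) h2
      rw [← ty_two hG h] at h3 h4
      have key : ∀ y, x ⋖ y → ty hG y = ty hG (sj y) ∧ sj x ⋖ sj y := fun y hy =>
        ⟨ty_two hG (two_of_sj hG h h2 hy),
          sj_cov hG.br (two_of_sj hG h h2 hy) (sj_cov hG.br h hy)⟩
      refine ⟨fun h0 y hy => ?_, fun h0 => ?_⟩
      · rw [(key y hy).1]
        exact h3 h0 _ (key y hy).2
      · obtain ⟨e0, he0, he1, he2⟩ := h4 h0
        obtain ⟨y0, hy0, rfl⟩ := sj_surj hG h h2 he0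
        refine ⟨y0, hy0, by rw [(key y0 hy0).1]; exact he1, fun y hy hne => ?_⟩
        rw [(key y hy).1]
        apply he2 _ (key y hy).2
        intro he
        exact hne (sj_inj hG (two_of_sj hG h h2 hy) (two_of_sj hG h h2 hy0) he)
    · have hty : ty hG x = len hG (sj x) := by rw [ty_two hG h, ty_not hG h2]
      by_cases h3 : len hG (sj x) = 0
      · -- the join of the covers is the top
        have h4 := eq_top_of_len hG h3
        refine ⟨fun h0 y hy => ?_, fun h0 => absurd (hty.trans h3) h0⟩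
        have h5 := sj_cov hG.br h hy
        rw [h4] at h5
        have h6 : ¬ Two y := by
          rintro ⟨a, b, ha, hb, hab⟩
          apply hab
          rw [eq_of_cov_le ha h5 le_top, eq_of_cov_le hb h5 le_top]
        rw [ty_not hG h6]
        have h7 := len_cov hG hy
        omega
      · obtain ⟨u, hu⟩ := cov_of_len hG h3
        have hu2 : ¬ Two u := not_two_of_cov hG h2 hu
        have hlu := len_cov hG hu
        refine ⟨fun h0 => absurd (hty.symm.trans h0) h3, fun _ => ?_⟩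
        -- a branched cover of `x`
        obtain ⟨y0, hy0, hy0'⟩ : ∃ y0, x ⋖ y0 ∧ Two y0 := by
          have h4 := hG.nn x u ((lt_sj hG.br h).le.trans hu.le)
          have e1 : {z | x ⋖ z ∧ z ≤ u} = {z | x ⋖ z} := by
            ext z
            constructor
            · exact fun hz => hz.1
            · exact fun hz => ⟨hz, (cov_le_sj hG h hz).trans hu.le⟩
          rw [e1] at h4
          have h5 : 1 < {z | x ⋖ z}.ncard := by
            rw [Set.one_lt_ncard (fin_covs hG x)]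
            obtain ⟨a, b, ha, hb, hab⟩ := id h
            exact ⟨a, ha, b, hb, hab⟩
          rw [h4] at h5
          obtain ⟨z, hz, hzs⟩ := Set.exists_ne_of_one_lt_ncard h5 (sj x)
          have h6 : ¬ z ≤ sj x := by
            intro hle
            rcases eq_or_lt_of_le hle with h | h
            · exact hzs h
            · exact hz.2.2 h hu.lt
          have h7 : sj x ⊔ z = u := by
            rcases eq_or_lt_of_le (sup_le hu.le hz.2.le) with h | h
            · exact h
            · exact absurd h (hu.2 (lt_of_le_of_ne le_sup_left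
                (fun h' => h6 (h' ▸ le_sup_right))))
          have h8 : sj x ⊓ z ⋖ sj x := by
            apply inf_covBy_of_covBy_sup_right
            rw [h7]; exact hz.2
          have h9 : sj x ⊓ z ⋖ z := by
            apply inf_covBy_of_covBy_sup_left
            rw [h7]; exact hu
          have h10 := coatom_sj hG h (le_inf (lt_sj hG.br h).le hz.1) h8
          exact ⟨sj x ⊓ z, h10, z, sj x, h9, h8, hzs⟩
        have key : ∀ y, x ⋖ y → Two y → sj y = u := fun y hy hy2 =>
          eq_of_not_two h2 (sj_cov hG.br hy2 (sj_cov hG.br h hy)) hu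
        refine ⟨y0, hy0, ?_, ?_⟩
        · rw [ty_two hG hy0', key y0 hy0 hy0', ty_not hG hu2, hty]
          exact hlu
        · intro y hy hne
          have h4 : ¬ Two y := by
            intro h5
            exact hne (sj_inj hG h5 hy0' ((key y hy h5).trans (key y0 hy0 hy0').symm))
          rw [ty_not hG h4, hty]
          have h7 := len_cov hG hy
          omega

omit [OrderTop P] in
/-- number of covers along chains -/
lemma nc_le (z : P) (hz : Two z) : ∀ w, w ≤ z → Two w ∧ nc w = nc z := by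
  have := fin_wf hG.fin
  intro w
  induction w using WellFoundedGT.induction with
  | _ w ih =>
    intro hw
    rcases eq_or_lt_of_le hw with rfl | hlt
    · exact ⟨hz, rfl⟩
    · obtain ⟨w', hw', hw'z⟩ := fin_cov hG.fin hlt
      obtain ⟨h1, h2⟩ := ih w' hw'.lt hw'z
      have h3 := two_of_cov hG hw' h1
      exact ⟨h3, (nc_eq hG hw' h3 h1).trans h2⟩

/-- the local structure -/
theorem exists_arb : ∃ n, 2 ≤ n ∧ Nonempty (Arb n P) := by
  obtain ⟨n, hn, hall⟩ : ∃ n, 2 ≤ n ∧ ∀ x : P, Two x → nc x = n := by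
    by_cases h : ∃ x : P, Two x
    · obtain ⟨x, hx⟩ := h
      refine ⟨nc x, ?_, fun y hy => ?_⟩
      · show 1 < {z | x ⋖ z}.ncard
        rw [Set.one_lt_ncard (fin_covs hG x)]
        obtain ⟨a, b, ha, hb, hab⟩ := id hx
        exact ⟨a, ha, b, hb, hab⟩
      · rw [← (nc_le hG y hy (x ⊓ y) inf_le_right).2, (nc_le hG x hx (x ⊓ y) inf_le_left).2]
    · exact ⟨2, le_rfl, fun x hx => absurd ⟨x, hx⟩ h⟩
  refine ⟨n, hn, ⟨?_⟩⟩
  exact {
    k := len hG
    d := ty hG
    s := sj
    k_cov := len_cov hG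
    k_lt := len_lt hG
    cov := fin_cov hG.fin
    ex := fun x h => cov_of_len hG h
    unb := fun x h y y' hy hy' =>
      eq_of_not_two (fun h2 => (ty_ne_iff hG x).2 h2 h) hy hy'
    unb' := fun x h y hy => by
      have h1 : ¬ Two x := fun h2 => (ty_ne_iff hG x).2 h2 h
      exact ty_not hG (not_two_of_cov hG h1 hy)
    card := fun x h => hall x ((ty_ne_iff hG x).1 h)
    join := fun x _ y y' hy hy' hne z hz hz' => by
      rw [sj_eq hG.br hy hy' hne]
      exact sup_le hz hz'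
    s_cov := fun x h y hy => sj_cov hG.br ((ty_ne_iff hG x).1 h) hy
    s_d := fun x h => (ty_two hG ((ty_ne_iff hG x).1 h)).symm
    s_inj := fun x _ y y' _ _ hb hb' he =>
      sj_inj hG ((ty_ne_iff hG y).1 hb) ((ty_ne_iff hG y').1 hb') he
    s_surj := fun x h h' e he => by
      have h1 := (ty_ne_iff hG x).1 h
      have h2 := (ty_ne_iff hG (sj x)).1 h'
      obtain ⟨y, hy, hye⟩ := sj_surj hG h1 h2 he
      exact ⟨y, hy, (ty_ne_iff hG y).2 (two_of_sj hG h1 h2 hy), hye⟩
    d_zero := fun x h h0 => (types hG x ((ty_ne_iff hG x).1 h)).1 h0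
    d_pos := fun x h h0 => (types hG x ((ty_ne_iff hG x).1 h)).2 h0 }

end Counting

end Fin

end Pool.Agent.Helper87.ML
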