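import Pool.Agent.Helper87.ML.Model

set_option autoImplicit false

/-! The models are finitary lattices; isomorphisms between them. -/

namespace Pool.Agent.Helper87.ML

open TreePt

namespace TreePt

variable {n : ℕ}

/-- the lower cover in direction `i` -/
def dn (i : Fin n) (q : TreePt n) : TreePt n := star (up i (star q))

/-- the double lower cover -/
def dn2 (q : TreePt n) : TreePt n := star (up2 (star q))

lemma dn_h (i : Fin n) (q : TreePt n) : (dn i q).h = q.h - 1 := by
  show -(-q.h + 1) = q.h - 1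
  ring

lemma dn2_h (q : TreePt n) : (dn2 q).h = q.h - 2 := by
  show -(-q.h + 2) = q.h - 2
  ring

lemma dn2_v (q : TreePt n) : (dn2 q).v = q.v := rfl

lemma dn_v (i : Fin n) (q : TreePt n) : (dn i q).v = nb i q.v := rfl

lemma dn_inj {i j : Fin n} {q : TreePt n} (h : dn i q = dn j q) : i = j := by
  have h1 := congrArg TreePt.v h
  exact nb_inj h1

lemma dn_lt (i : Fin n) (q : TreePt n) : dn i q < q := by
  have h1 := lt_up i (star q)
  apply lt_of_le_of_ne
  · exact star_le'.2 h1.le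
  · intro h
    have := congrArg TreePt.h h
    rw [dn_h] at this
    omega

lemma exists_le_dn (hn : 0 < n) {p q : TreePt n} (h : p < q) : ∃ i, p ≤ dn i q := by
  have h2 : star q < star p := by
    apply lt_of_le_not_ge (star_le.2 h.le)
    rw [star_le]
    exact not_le_of_gt h
  obtain ⟨i, hi⟩ := exists_up_le hn h2
  exact ⟨i, le_star'.1 hi⟩

lemma dn2_le_dn (i : Fin n) (q : TreePt n) : dn2 q ≤ dn i q := star_le.2 (up_le_up2 i _)

lemma le_dn2 {i j : Fin n} (hij : i ≠ j) {p q : TreePt n} (h1 : p ≤ dn i q) (h2 : p ≤ dn j q) :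
    p ≤ dn2 q := by
  unfold dn2
  rw [le_star']
  exact up2_le_of hij (le_star'.1 h1) (le_star'.1 h2)

/-- the lower covers of a branched point -/
lemma o_le_dn {q : TreePt n} (h : o ≤ q) (h' : (q.v.length : ℤ) ≠ q.h) (i : Fin n) :
    o ≤ dn i q := by
  rw [o_le_iff] at h ⊢
  rw [dn_h, dn_v]
  have h1 := nb_length i q.v
  obtain ⟨c, hc⟩ := c_even q
  omega

end TreePt

section Conv

variable {n : ℕ} {M : Set (TreePt n)} (hM : M.OrdConnected) (ho : ∀ z ∈ M, o ≤ z) (hoM : o ∈ M)
  (hn : 0 < n)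

include hM hn

lemma conv_covBy {x y : M} : x ⋖ y ↔ ∃ i, x.1 = dn i y.1 := by
  constructor
  · intro h
    obtain ⟨i, hi⟩ := exists_le_dn hn (show x.1 < y.1 from h.lt)
    refine ⟨i, ?_⟩
    have hmem : dn i y.1 ∈ M := hM.out x.2 y.2 ⟨hi, (dn_lt i y.1).le⟩
    rcases eq_or_lt_of_le hi with h1 | h1
    · exact h1
    · exact absurd (show (⟨dn i y.1, hmem⟩ : M) < y from dn_lt i y.1) (h.2 (c := ⟨dn i y.1, hmem⟩) h1)
  · rintro ⟨i, hi⟩
    refine ⟨?_, ?_⟩
    · show x.1 < y.1
      rw [hi]; exact dn_lt i y.1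
    · intro z hxz hzy
      have h1 := h_lt (show x.1 < z.1 from hxz)
      have h2 := h_lt (show z.1 < y.1 from hzy)
      rw [hi, dn_h] at h1
      omega

omit hM hn in
include ho in
lemma conv_glb {x y y' : M} {i j : Fin n} (hij : i ≠ j) (hy : y.1 = dn i x.1)
    (hy' : y'.1 = dn j x.1) (hM : M.OrdConnected) (hoM : o ∈ M) :
    ∃ g : M, g.1 = dn2 x.1 ∧ IsGLB {y, y'} g := by
  have h1 : o ≤ dn2 x.1 := le_dn2 hij (by rw [← hy]; exact ho _ y.2) (by rw [← hy']; exact ho _ y'.2)
  have h2 : dn2 x.1 ∈ M :=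
    hM.out hoM x.2 ⟨h1, (dn2_le_dn i x.1).trans (dn_lt i x.1).le⟩
  refine ⟨⟨dn2 x.1, h2⟩, rfl, ?_, ?_⟩
  · intro z hz
    simp only [Set.mem_insert_iff, Set.mem_singleton_iff] at hz
    rcases hz with rfl | rfl
    · show dn2 x.1 ≤ z.1
      rw [hy]; exact dn2_le_dn i x.1
    · show dn2 x.1 ≤ z.1
      rw [hy']; exact dn2_le_dn j x.1
  · intro z hz
    have hz1 : z.1 ≤ dn i x.1 := by rw [← hy]; exact hz (by simp)
    have hz2 : z.1 ≤ dn j x.1 := by rw [← hy']; exact hz (by simp)
    exact le_dn2 hij hz1 hz2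

end Conv

section Iso

variable {n n' : ℕ} {M : Set (TreePt n)} {M' : Set (TreePt n')}
  (hM : M.OrdConnected) (ho : ∀ z ∈ M, o ≤ z) (hoM : o ∈ M)
  (hM' : M'.OrdConnected) (ho' : ∀ z ∈ M', o ≤ z) (hoM' : o ∈ M')
  (hn : 2 ≤ n) (hn' : 2 ≤ n') (φ : M ≃o M')

include hM ho hoM hM' ho' hoM' hn hn' in
lemma iso_h (m : ℕ) : ∀ x : M, x.1.h = m → (φ x).1.h = m := by
  induction m with
  | zero =>
    intro x hx
    have h1 : x.1 = o := (eq_of_le_of_h (ho _ x.2) hx.symm).symm
    have h2 : φ x ≤ ⟨o, hoM'⟩ := by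
      rw [← φ.le_symm_apply]
      show x.1 ≤ (φ.symm ⟨o, hoM'⟩).1
      rw [h1]; exact ho _ (φ.symm ⟨o, hoM'⟩).2
    have h3 : (φ x).1 = o := le_antisymm h2 (ho' _ (φ x).2)
    rw [h3]; rfl
  | succ m ih =>
    intro x hx
    have h1 : (o : TreePt n) < x.1 := by
      apply lt_of_le_of_ne (ho _ x.2)
      intro h
      rw [← h] at hx
      have : (o : TreePt n).h = 0 := rfl
      omega
    obtain ⟨i, hi⟩ := exists_le_dn (by omega) h1
    have hmem : dn i x.1 ∈ M := hM.out hoM x.2 ⟨hi, (dn_lt i x.1).le⟩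
    have h2 : (⟨dn i x.1, hmem⟩ : M) ⋖ x := (conv_covBy hM (by omega)).2 ⟨i, rfl⟩
    have h3 : φ ⟨dn i x.1, hmem⟩ ⋖ φ x := (apply_covBy_apply_iff φ).2 h2
    obtain ⟨j, hj⟩ := (conv_covBy hM' (by omega)).1 h3
    have h4 := ih ⟨dn i x.1, hmem⟩ (by
      show (dn i x.1).h = m
      rw [dn_h, hx]; push_cast; ring)
    rw [hj, dn_h] at h4
    push_cast
    omega

include hM ho hoM hM' ho' hoM' hn hn' in
lemma iso_h' (x : M) : (φ x).1.h = x.1.h := by
  have h1 := o_le_iff.1 (ho _ x.2)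
  have h2 := iso_h hM ho hoM hM' ho' hoM' hn hn' φ x.1.h.toNat x (by omega)
  omega

include hM hoM hn in
/-- a point with `v.length ≠ h` has several lower covers -/
lemma branched {x : M} (h : (x.1.v.length : ℤ) ≠ x.1.h) (h0 : o ≤ x.1) (i : Fin n) :
    ∃ y : M, y ⋖ x ∧ y.1 = dn i x.1 := by
  have hmem : dn i x.1 ∈ M := hM.out hoM x.2 ⟨o_le_dn h0 h i, (dn_lt i x.1).le⟩
  exact ⟨⟨dn i x.1, hmem⟩, (conv_covBy hM (by omega)).2 ⟨i, rfl⟩, rfl⟩

include hM ho hn in
/-- a point with two lower covers has `v.length ≠ h` -/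
lemma branched' {x y y' : M} (hy : y ⋖ x) (hy' : y' ⋖ x) (hne : y ≠ y') :
    (x.1.v.length : ℤ) ≠ x.1.h := by
  obtain ⟨i, hi⟩ := (conv_covBy hM (by omega)).1 hy
  obtain ⟨j, hj⟩ := (conv_covBy hM (by omega)).1 hy'
  have hij : i ≠ j := by
    rintro rfl
    exact hne (Subtype.ext (hi.trans hj.symm))
  have h1 : o ≤ dn2 x.1 :=
    le_dn2 hij (by rw [← hi]; exact ho _ y.2) (by rw [← hj]; exact ho _ y'.2)
  rw [o_le_iff, dn2_h, dn2_v] at h1
  omega

include hM ho hoM hM' ho' hoM' hn hn' in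
lemma iso_l (m : ℕ) : ∀ x : M, x.1.h ≤ m → (φ x).1.v.length = x.1.v.length := by
  induction m using Nat.strong_induction_on with
  | _ m ih =>
    intro x hx
    have hh := iso_h' hM ho hoM hM' ho' hoM' hn hn' φ x
    by_cases hb : (x.1.v.length : ℤ) = x.1.h
    · have hb' : ((φ x).1.v.length : ℤ) = (φ x).1.h := by
        by_contra hb'
        obtain ⟨y, hy, hy2⟩ := branched hM' hoM' hn' hb' (ho' _ (φ x).2) ⟨0, by omega⟩
        obtain ⟨y', hy', hy2'⟩ := branched hM' hoM' hn' hb' (ho' _ (φ x).2) ⟨1, by omega⟩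
        have h1 : φ.symm y ⋖ x := by
          have := (apply_covBy_apply_iff φ.symm).2 hy
          rwa [φ.symm_apply_apply] at this
        have h2 : φ.symm y' ⋖ x := by
          have := (apply_covBy_apply_iff φ.symm).2 hy'
          rwa [φ.symm_apply_apply] at this
        refine branched' hM ho hn h1 h2 ?_ hb
        intro h
        have h3 := φ.symm.injective h
        have h4 := dn_inj ((hy2.symm.trans (congrArg Subtype.val h3)).trans hy2')
        simp at h4
      omega
    · obtain ⟨y, hy, hy2⟩ := branched hM hoM hn hb (ho _ x.2) ⟨0, by omega⟩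
      obtain ⟨y', hy', hy2'⟩ := branched hM hoM hn hb (ho _ x.2) ⟨1, by omega⟩
      have h01 : (⟨0, by omega⟩ : Fin n) ≠ ⟨1, by omega⟩ := by simp
      obtain ⟨g, hg, hg2⟩ := conv_glb ho h01 hy2 hy2' hM hoM
      have k1 : φ y ⋖ φ x := (apply_covBy_apply_iff φ).2 hy
      have k2 : φ y' ⋖ φ x := (apply_covBy_apply_iff φ).2 hy'
      obtain ⟨i, hi⟩ := (conv_covBy hM' (by omega)).1 k1
      obtain ⟨j, hj⟩ := (conv_covBy hM' (by omega)).1 k2
      have hij : i ≠ j := by
        rintro rfl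
        have h1 := φ.injective (Subtype.ext (hi.trans hj.symm))
        exact h01 (dn_inj ((hy2.symm.trans (congrArg Subtype.val h1)).trans hy2'))
      obtain ⟨g', hg', hg2'⟩ := conv_glb ho' hij hi hj hM' hoM'
      have h1 : IsGLB {φ y, φ y'} (φ g) := by
        constructor
        · intro z hz
          simp only [Set.mem_insert_iff, Set.mem_singleton_iff] at hz
          rcases hz with rfl | rfl
          · exact φ.monotone (hg2.1 (by simp))
          · exact φ.monotone (hg2.1 (by simp))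
        · intro z hz
          rw [← φ.symm_apply_le]
          apply hg2.2
          intro w hw
          simp only [Set.mem_insert_iff, Set.mem_singleton_iff] at hw
          rcases hw with rfl | rfl
          · rw [φ.symm_apply_le]; exact hz (by simp)
          · rw [φ.symm_apply_le]; exact hz (by simp)
      have h2 : φ g = g' := h1.unique hg2'
      have h3 : g.1.h = x.1.h - 2 := by rw [hg, dn2_h]
      have h4 := o_le_iff.1 (ho _ g.2)
      have h5 := ih (m - 2) (by omega) g (by omega)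
      rw [h2, hg', hg, dn2_v, dn2_v] at h5
      exact h5

include hM ho hoM hM' ho' hoM' hn hn' in
lemma iso_l' (x : M) : (φ x).1.v.length = x.1.v.length := by
  have h1 := o_le_iff.1 (ho _ x.2)
  exact iso_l hM ho hoM hM' ho' hoM' hn hn' φ x.1.h.toNat x (by omega)

include hM ho hoM hn in
/-- number of lower covers -/
lemma card_lower {x : M} (h : (x.1.v.length : ℤ) ≠ x.1.h) : {y | y ⋖ x}.ncard = n := by
  have hmem : ∀ i, dn i x.1 ∈ M := fun i =>
    hM.out hoM x.2 ⟨o_le_dn (ho _ x.2) h i, (dn_lt i x.1).le⟩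
  have h1 : {y | y ⋖ x} = Set.range (fun i : Fin n => (⟨dn i x.1, hmem i⟩ : M)) := by
    ext y
    rw [Set.mem_ofPred_eq, conv_covBy hM (by omega), Set.mem_range]
    constructor
    · rintro ⟨i, hi⟩
      exact ⟨i, Subtype.ext hi.symm⟩
    · rintro ⟨i, rfl⟩
      exact ⟨i, rfl⟩
  rw [h1, ← Set.image_univ, Set.ncard_image_of_injective, Set.ncard_univ,
    Nat.card_eq_fintype_card, Fintype.card_fin]
  intro i j hij
  exact dn_inj (congrArg Subtype.val hij)

include hM ho hoM hM' ho' hoM' hn hn' φ in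
lemma iso_n {x : M} (h : (x.1.v.length : ℤ) ≠ x.1.h) : n = n' := by
  have h1 := card_lower hM ho hoM hn h
  have h2 := card_lower hM' ho' hoM' hn' (x := φ x) (by
    rw [iso_h' hM ho hoM hM' ho' hoM' hn hn', iso_l' hM ho hoM hM' ho' hoM' hn hn']
    exact h)
  rw [← h1, ← h2]
  have h3 : {y | y ⋖ φ x} = φ '' {y | y ⋖ x} := by
    ext y
    constructor
    · intro hy
      refine ⟨φ.symm y, ?_, φ.apply_symm_apply y⟩
      have := (apply_covBy_apply_iff φ.symm).2 hy
      rwa [φ.symm_apply_apply] at this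
    · rintro ⟨z, hz, rfl⟩
      exact (apply_covBy_apply_iff φ).2 hz
  rw [h3, Set.ncard_image_of_injective _ φ.injective]

end Iso

section Models

variable {n : ℕ} (hn : 2 ≤ n)

lemma model_o_mem (d c : ℕ∞) : o ∈ Model hn d c :=
  ⟨le_rfl, 0, 0, by simp, by simp, o_le_pt hn 0 0⟩

lemma pt_mem {d c : ℕ∞} {a b : ℕ} (ha : (a : ℕ∞) ≤ d) (hb : (b : ℕ∞) ≤ c) :
    pt hn a b ∈ Model hn d c := ⟨o_le_pt hn a b, a, b, ha, hb, le_rfl⟩

lemma pt_v_length (a b : ℕ) : (pt hn a b).v.length = a := alt_length hn a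

lemma pt_h (a b : ℕ) : (pt hn a b).h = a + 2 * b := rfl

/-- the models are finitary lattices with finite covers -/
theorem model_lattice (d c : ℕ∞) :
    (∀ x y : Model hn d c, (∃ j, IsLUB {x, y} j) ∧ ∃ g, IsGLB {x, y} g) ∧
    (∀ x : Model hn d c, (Set.Iic x).Finite ∧ {y | x ⋖ y}.Finite) := by
  have hOC := model_ordConnected hn d c
  constructor
  · intro x y
    constructor
    · obtain ⟨j, h1, h2, h3, -⟩ := exists_join _ x.1 y.1 rfl
      obtain ⟨-, a, b, ha, hb, hab⟩ := x.2
      obtain ⟨-, a', b', ha', hb', hab'⟩ := y.2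
      have hle : j ≤ pt hn (max a a') (max b b') :=
        h3 _ (hab.trans (pt_mono hn (le_max_left _ _) (le_max_left _ _)))
          (hab'.trans (pt_mono hn (le_max_right _ _) (le_max_right _ _)))
      have hj : j ∈ Model hn d c := by
        refine ⟨x.2.1.trans h1, max a a', max b b', ?_, ?_, hle⟩
        · exact max_le ha ha'
        · exact max_le hb hb'
      refine ⟨⟨j, hj⟩, ?_, ?_⟩
      · intro z hz
        simp only [Set.mem_insert_iff, Set.mem_singleton_iff] at hz
        rcases hz with rfl | rfl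
        · exact h1
        · exact h2
      · intro z hz
        exact h3 _ (hz (by simp : x ∈ ({x, y} : Set _))) (hz (by simp : y ∈ ({x, y} : Set _)))
    · obtain ⟨g, h1, h2, h3, -⟩ := exists_meet x.1 y.1
      have hg : g ∈ Model hn d c :=
        hOC.out (model_o_mem hn d c) x.2 ⟨h3 _ x.2.1 y.2.1, h1⟩
      refine ⟨⟨g, hg⟩, ?_, ?_⟩
      · intro z hz
        simp only [Set.mem_insert_iff, Set.mem_singleton_iff] at hz
        rcases hz with rfl | rfl
        · exact h1
        · exact h2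
      · intro z hz
        exact h3 _ (hz (by simp : x ∈ ({x, y} : Set _))) (hz (by simp : y ∈ ({x, y} : Set _)))
  · intro x
    have hx0 := o_le_iff.1 x.2.1
    constructor
    · refine Set.Finite.of_injOn (f := Subtype.val) ?_ Subtype.val_injective.injOn
        (finite_below (n := n) x.1.h.toNat)
      intro z hz
      refine ⟨z.2.1, ?_⟩
      have := h_mono (show z.1 ≤ x.1 from hz)
      omega
    · refine Set.Finite.of_injOn (f := Subtype.val) ?_ Subtype.val_injective.injOn
        (finite_below (n := n) (x.1.h.toNat + 1))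
      intro z hz
      refine ⟨z.2.1, ?_⟩
      obtain ⟨i, hi⟩ := (conv_covBy hOC (by omega)).1 hz
      have h1 : x.1.h = z.1.h - 1 := by rw [hi, dn_h]
      push_cast
      omega

theorem model_finite (d c : ℕ∞) : Finite (Model hn d c) ↔ d ≠ ⊤ ∧ c ≠ ⊤ := by
  constructor
  · intro hfin
    constructor
    · rintro rfl
      have : Function.Injective (fun a : ℕ =>
          (⟨pt hn a 0, pt_mem hn le_top (by simp)⟩ : Model hn ⊤ c)) := by
        intro a b hab
        have h1 := congrArg (fun z : Model hn ⊤ c => z.1.v.length) hab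
        simpa [pt_v_length] using h1
      exact not_injective_infinite_finite _ this
    · rintro rfl
      have : Function.Injective (fun a : ℕ =>
          (⟨pt hn 0 a, pt_mem hn (by simp) le_top⟩ : Model hn d ⊤)) := by
        intro a b hab
        have h1 := congrArg (fun z : Model hn d ⊤ => z.1.h) hab
        simp only [pt_h] at h1
        omega
      exact not_injective_infinite_finite _ this
  · rintro ⟨hd, hc⟩
    obtain ⟨d, rfl⟩ := ENat.ne_top_iff_exists.1 hd
    obtain ⟨c, rfl⟩ := ENat.ne_top_iff_exists.1 hc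
    rw [model_coe]
    refine Set.Finite.subset (finite_below (n := n) (d + 2 * c)) ?_
    rintro z ⟨h1, h2⟩
    refine ⟨h1, ?_⟩
    have := h_mono h2
    rw [pt_h] at this
    push_cast
    exact this

lemma c_zero {d : ℕ∞} {z : TreePt n} (hz : z ∈ Model hn d 0) :
    z = pt hn z.v.length 0 ∧ (z.v.length : ℕ∞) ≤ d := by
  obtain ⟨h0, a, b, ha, hb, hab⟩ := hz
  have hb0 : b = 0 := by
    have : b ≤ 0 := by exact_mod_cast hb
    omega
  subst hb0
  have h1 := c_mono hab
  rw [pt_v_length, pt_h] at h1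
  have h2 := o_le_iff.1 h0
  have h3 := eq_pt hn (c := 0) le_rfl hab (by push_cast at h1 ⊢; omega)
  refine ⟨h3, ?_⟩
  have h4 := h_mono hab
  rw [pt_h] at h4
  have h5 : z.v.length ≤ a := by
    push_cast at h4
    omega
  exact le_trans (by exact_mod_cast h5) ha

/-- the models with `c = 0` are chains -/
def chainIso (d : ℕ∞) : {m : ℕ // (m : ℕ∞) ≤ d} ≃o Model hn d 0 where
  toFun m := ⟨pt hn m.1 0, pt_mem hn m.2 (by simp)⟩
  invFun z := ⟨z.1.v.length, (c_zero hn z.2).2⟩
  left_inv m := Subtype.ext (pt_v_length hn m.1 0)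
  right_inv z := Subtype.ext (c_zero hn z.2).1.symm
  map_rel_iff' {m m'} := by
    show pt hn m.1 0 ≤ pt hn m'.1 0 ↔ m.1 ≤ m'.1
    constructor
    · intro h
      have := h_mono h
      rw [pt_h, pt_h] at this
      push_cast at this
      omega
    · intro h
      exact pt_mono hn h le_rfl

/-- the parameter `c` -/
lemma le_c_iff {d c : ℕ∞} {b : ℕ} :
    (b : ℕ∞) ≤ c ↔ ∃ z ∈ Model hn d c, z.h - z.v.length = 2 * b := by
  constructor
  · intro h
    refine ⟨pt hn 0 b, pt_mem hn (by simp) h, ?_⟩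
    rw [pt_h, pt_v_length]
    push_cast
    ring
  · rintro ⟨z, ⟨-, a, b', -, hb', hab⟩, hz⟩
    have h1 := c_mono hab
    rw [pt_v_length, pt_h] at h1
    have h2 : b ≤ b' := by omega
    exact le_trans (by exact_mod_cast h2) hb'

/-- the parameter `d` -/
lemma le_d_iff {d : ℕ∞} {c a : ℕ} :
    (a : ℕ∞) ≤ d ↔ ∃ z ∈ Model hn d c, z.h - z.v.length = 2 * c ∧ z.v.length = a := by
  constructor
  · intro h
    refine ⟨pt hn a c, pt_mem hn h le_rfl, ?_, pt_v_length hn a c⟩
    rw [pt_h, pt_v_length]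
    ring
  · rintro ⟨z, ⟨-, a', b', ha', hb', hab⟩, hz, hza⟩
    have h1 := h_mono hab
    rw [pt_h] at h1
    have hb'' : b' ≤ c := by exact_mod_cast hb'
    have h2 : a ≤ a' := by omega
    exact le_trans (by exact_mod_cast h2) ha'

lemma enat_ext {x y : ℕ∞} (h : ∀ m : ℕ, (m : ℕ∞) ≤ x ↔ (m : ℕ∞) ≤ y) : x = y := by
  apply le_antisymm
  · by_contra hc
    have h1 := not_le.1 hc
    obtain ⟨m, hm⟩ := ENat.ne_top_iff_exists.1 h1.ne_top
    have h2 : ((m + 1 : ℕ) : ℕ∞) ≤ x := by
      rw [← hm] at h1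
      push_cast
      exact Order.add_one_le_of_lt h1
    rw [h, ← hm] at h2
    have : m + 1 ≤ m := by exact_mod_cast h2
    omega
  · by_contra hc
    have h1 := not_le.1 hc
    obtain ⟨m, hm⟩ := ENat.ne_top_iff_exists.1 h1.ne_top
    have h2 : ((m + 1 : ℕ) : ℕ∞) ≤ y := by
      rw [← hm] at h1
      push_cast
      exact Order.add_one_le_of_lt h1
    rw [← h, ← hm] at h2
    have : m + 1 ≤ m := by exact_mod_cast h2
    omega

/-- the isomorphisms between the models -/
theorem model_iso {n' : ℕ} (hn' : 2 ≤ n') (d c d' c' : ℕ∞) :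
    Nonempty (Model hn d c ≃o Model hn' d' c') ↔
      (c = 0 ∧ c' = 0 ∧ d = d') ∨ (c = ⊤ ∧ c' = ⊤ ∧ n = n') ∨ (n = n' ∧ d = d' ∧ c = c') := by
  constructor
  · rintro ⟨φ⟩
    have hM := model_ordConnected hn d c
    have hM' := model_ordConnected hn' d' c'
    have ho : ∀ z ∈ Model hn d c, o ≤ z := fun z hz => hz.1
    have ho' : ∀ z ∈ Model hn' d' c', o ≤ z := fun z hz => hz.1
    have hoM := model_o_mem hn d c
    have hoM' := model_o_mem hn' d' c'
    have hh := iso_h' hM ho hoM hM' ho' hoM' hn hn' φ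
    have hl := iso_l' hM ho hoM hM' ho' hoM' hn hn' φ
    have hcc : c = c' := by
      apply enat_ext
      intro m
      rw [le_c_iff hn (d := d), le_c_iff hn' (d := d')]
      constructor
      · rintro ⟨z, hz, h⟩
        exact ⟨_, (φ ⟨z, hz⟩).2, by rw [hh, hl]; exact h⟩
      · rintro ⟨z, hz, h⟩
        refine ⟨_, (φ.symm ⟨z, hz⟩).2, ?_⟩
        rw [← hh, ← hl, φ.apply_symm_apply]
        exact h
    have hnn : c ≠ 0 → n = n' := by
      intro hc
      have h1 : ((1 : ℕ) : ℕ∞) ≤ c := by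
        push_cast
        exact Order.one_le_iff_pos.2 (pos_iff_ne_zero.2 hc)
      refine iso_n hM ho hoM hM' ho' hoM' hn hn' φ (x := ⟨pt hn 0 1, pt_mem hn (by simp) h1⟩) ?_
      show ((pt hn 0 1).v.length : ℤ) ≠ (pt hn 0 1).h
      rw [pt_h, pt_v_length]
      norm_num
    by_cases hct : c = ⊤
    · right; left
      exact ⟨hct, hcc ▸ hct, hnn (by rw [hct]; simp)⟩
    · obtain ⟨C, rfl⟩ := ENat.ne_top_iff_exists.1 hct
      subst hcc
      have hdd : d = d' := by
        apply enat_ext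
        intro m
        rw [le_d_iff hn (c := C), le_d_iff hn' (c := C)]
        constructor
        · rintro ⟨z, hz, h, h'⟩
          exact ⟨_, (φ ⟨z, hz⟩).2, by rw [hh, hl]; exact h, by rw [hl]; exact h'⟩
        · rintro ⟨z, hz, h, h'⟩
          refine ⟨_, (φ.symm ⟨z, hz⟩).2, ?_, ?_⟩
          · rw [← hh, ← hl, φ.apply_symm_apply]
            exact h
          · rw [← hl, φ.apply_symm_apply]
            exact h'
      by_cases hC : (C : ℕ∞) = 0
      · left
        exact ⟨hC, hC, hdd⟩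
      · right; right
        exact ⟨hnn hC, hdd, rfl⟩
  · rintro (⟨rfl, rfl, rfl⟩ | ⟨rfl, rfl, rfl⟩ | ⟨rfl, rfl, rfl⟩)
    · exact ⟨(chainIso hn d).symm.trans (chainIso hn' d)⟩
    · exact ⟨OrderIso.setCongr _ _ (by rw [model_top, model_top])⟩
    · exact ⟨OrderIso.refl _⟩

end Models

end Pool.Agent.Helper87.ML
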