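import Pool.Agent.Helper87.ML.Finitary
import Pool.Agent.Helper87.ML.ModelIso

set_option autoImplicit false

/-! The classification of finitary lattices of breadth at most two: main theorem. -/

namespace Pool.Agent.Helper87.ML

open TreePt

section

variable {n : ℕ} {L : Type*} [Lattice L] {k d : L → ℕ} {M : Set (TreePt n)}

lemma iso_of_global {f : L → TreePt n} (hf : ∀ x, GoodMap k d M x f)
    (hsurj : ∀ z ∈ M, o ≤ z ∧ ∃ x, z ≤ f x) : Nonempty (L ≃o M) := by
  let e : L ↪o M := OrderEmbedding.ofMapLEIff (fun x => ⟨f x, (hf x).mem x le_rfl⟩) (by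
    intro a b
    exact ((hf (a ⊔ b)).mono a b le_sup_left le_sup_right).symm)
  refine ⟨RelIso.ofSurjective e ?_⟩
  rintro ⟨z, hz⟩
  obtain ⟨hz0, x, hx⟩ := hsurj z hz
  obtain ⟨w, hw, hwz⟩ := (hf x).low x le_rfl z hz0 hx
  exact ⟨w, Subtype.ext hwz⟩

end

theorem classify_fwd {L : Type*} [Lattice L] [Nonempty L] (hfin : ∀ x : L, (Set.Iic x).Finite)
    (hm : IsModularLattice L) (hb : Breadth2 L) (hs : SD' L) :
    ∃ (n : ℕ) (hn : 2 ≤ n) (d c : ℕ∞), Nonempty (L ≃o Model hn d c) := by
  obtain ⟨n, hn, ⟨A⟩⟩ := exists_arb_of_sd hfin hb hs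
  refine ⟨n, hn, ?_⟩
  have hpar : ∀ x : L, ∃ c, A.k (OrderDual.toDual x) = A.d (OrderDual.toDual x) + 2 * c :=
    fun x => A.par hn _ _ rfl
  choose c hc using hpar
  set k : L → ℕ := fun y => A.k (OrderDual.toDual y) with hk
  set d : L → ℕ := fun y => A.d (OrderDual.toDual y) with hd
  have hkc : ∀ x, k x = d x + 2 * c x := hc
  by_cases htop : ∃ t : L, ∀ x, x ≤ t
  · obtain ⟨t, ht⟩ := htop
    refine ⟨(d t : ℕ∞), (c t : ℕ∞), ?_⟩
    obtain ⟨f, hft, hf⟩ := exists_local hn A (Model hn (d t) (c t)) (by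
      rintro z w hzw hz ⟨-, a, b, ha, hb, hab⟩
      exact ⟨hz, a, b, ha, hb, hzw.trans hab⟩) t (d t) (c t) (hkc t) rfl
      ⟨o_le_pt hn _ _, _, _, le_rfl, le_rfl, le_rfl⟩
    have hf' : ∀ x, GoodMap k d (Model hn (d t) (c t)) x f := by
      intro x
      exact ⟨fun y z _ _ => hf.mono y z (ht y) (ht z), fun y _ => hf.mem y (ht y),
        fun y _ => hf.above y (ht y), fun y _ => hf.h y (ht y), fun y _ => hf.l y (ht y),
        fun y _ => hf.low y (ht y)⟩
    refine iso_of_global hf' ?_
    rintro z ⟨hz, a, b, ha, hb, hab⟩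
    refine ⟨hz, t, ?_⟩
    rw [hft]
    exact hab.trans (pt_mono hn (by exact_mod_cast ha) (by exact_mod_cast hb))
  · push Not at htop
    set C : ℕ∞ := ⨆ x, (c x : ℕ∞) with hC
    have hcC : ∀ x, (c x : ℕ∞) ≤ C := fun x => le_iSup (fun x => (c x : ℕ∞)) x
    refine ⟨⊤, C, ?_⟩
    obtain ⟨f, hf⟩ := exists_global (k := k) (d := d) (M := Model hn ⊤ C) hfin (by
      intro x
      obtain ⟨f, -, hf⟩ := exists_local hn A (Model hn ⊤ C) (by
        rintro z w hzw hz ⟨-, a, b, ha, hb, hab⟩
        exact ⟨hz, a, b, ha, hb, hzw.trans hab⟩) x (d x) (c x) (hkc x) rfl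
        ⟨o_le_pt hn _ _, d x, c x, le_top, hcC x, le_rfl⟩
      exact ⟨f, hf⟩)
    have hfh : ∀ x, (f x).h = k x := fun x => (hf x).h x le_rfl
    have hfl : ∀ x, (f x).v.length = d x := fun x => (hf x).l x le_rfl
    refine iso_of_global hf ?_
    rintro z ⟨hz, a, b, ha, hb, hab⟩
    refine ⟨hz, ?_⟩
    by_cases hCt : C = ⊤
    · -- unbounded
      obtain ⟨x, hx⟩ : ∃ x, z.v.length + z.h.toNat ≤ c x := by
        by_contra hcon
        push Not at hcon
        have h1 : C ≤ (z.v.length + z.h.toNat : ℕ) := by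
          apply iSup_le
          intro x
          exact_mod_cast (hcon x).le
        rw [hCt, top_le_iff] at h1
        exact ENat.natCast_ne_top _ h1
      refine ⟨x, le_of_c ?_⟩
      rw [hfh, hfl]
      have h1 := hkc x
      have h2 := o_le_iff.1 hz
      omega
    · obtain ⟨C0, hC0⟩ := ENat.ne_top_iff_exists.1 hCt
      have hcC0 : ∀ x, c x ≤ C0 := by
        intro x
        have := hcC x
        rw [← hC0] at this
        exact_mod_cast this
      obtain ⟨x0, hx0⟩ : ∃ x0, c x0 = C0 := by
        by_contra hcon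
        push Not at hcon
        obtain ⟨y0⟩ := (inferInstance : Nonempty L)
        have h0 : 0 < C0 := by
          have h1 := hcC0 y0
          have h2 := hcon y0
          omega
        have h1 : C ≤ (C0 - 1 : ℕ) := by
          apply iSup_le
          intro x
          have h1 := hcC0 x
          have h2 := hcon x
          have : c x ≤ C0 - 1 := by omega
          exact_mod_cast this
        rw [← hC0] at h1
        have h2 : C0 ≤ C0 - 1 := by exact_mod_cast h1
        omega
      have hcx : ∀ x, x0 ≤ x → c x = C0 := by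
        intro x hx
        have h1 := c_mono (((hf x).mono x0 x hx le_rfl).1 hx)
        rw [hfh, hfl, hfh, hfl] at h1
        have h2 := hkc x
        have h3 := hkc x0
        have h4 := hcC0 x
        omega
      have hpt : ∀ x, x0 ≤ x → f x = pt hn (d x) C0 := by
        intro x hx
        obtain ⟨-, a', b', -, hb', hab'⟩ := (hf x).mem x le_rfl
        have hb'' : b' ≤ C0 := by
          rw [← hC0] at hb'
          exact_mod_cast hb'
        have h1 := eq_pt hn hb'' hab' (by
          rw [hfh, hfl]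
          have h2 := hkc x
          have h3 := hcx x hx
          omega)
        rw [hfl] at h1
        exact h1
      have hlarge : ∀ N : ℕ, ∃ x, x0 ≤ x ∧ N ≤ k x := by
        intro N
        induction N with
        | zero => exact ⟨x0, le_rfl, Nat.zero_le _⟩
        | succ N ih =>
          obtain ⟨x, hx, hxN⟩ := ih
          obtain ⟨y, hy⟩ := htop x
          have h1 : x < x ⊔ y := lt_of_le_of_ne le_sup_left
            (fun h => hy (h ▸ le_sup_right))
          have h2 : A.k (OrderDual.toDual x) < A.k (OrderDual.toDual (x ⊔ y)) :=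
            A.k_lt (OrderDual.toDual_lt_toDual.2 h1)
          exact ⟨x ⊔ y, hx.trans le_sup_left, Nat.succ_le_of_lt (lt_of_le_of_lt hxN h2)⟩
      obtain ⟨x, hx, hxN⟩ := hlarge (a + 2 * C0)
      refine ⟨x, ?_⟩
      rw [hpt x hx]
      refine hab.trans (pt_mono hn ?_ ?_)
      · have h1 := hkc x
        have h2 := hcx x hx
        omega
      · rw [← hC0] at hb
        exact_mod_cast hb

theorem classify_bwd {L : Type*} [Lattice L] {n : ℕ} (hn : 2 ≤ n) (d c : ℕ∞)
    (φ : L ≃o Model hn d c) : IsModularLattice L ∧ Breadth2 L ∧ SD' L :=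
  ⟨modular_of_convex φ (model_ordConnected hn d c),
    breadth_of_convex φ (model_ordConnected hn d c) (by omega),
    sd_of_convex hn φ (model_ordConnected hn d c)⟩

end Pool.Agent.Helper87.ML
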