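import Pool.Agent.Helper87.ML.Dual

set_option autoImplicit false

/-! The model lattices. -/

namespace Pool.Agent.Helper87.ML

namespace TreePt

variable {n : ℕ}

lemma alt_suffix (hn : 2 ≤ n) {d e : ℕ} (h : d ≤ e) : alt hn d <:+ alt hn e := by
  induction e, h using Nat.le_induction with
  | base => exact List.suffix_rfl
  | succ e _ ih => exact ih.trans (List.suffix_cons _ _)

lemma td_of_suffix {v w : List (Fin n)} (h : v <:+ w) : td v w = w.length - v.length := by
  unfold td
  rw [cs_eq_of_suffix h]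
  have := h.length_le
  omega

lemma pt_mono (hn : 2 ≤ n) {a b a' b' : ℕ} (h : a ≤ a') (h' : b ≤ b') :
    pt hn a b ≤ pt hn a' b' := by
  rw [le_iff]
  show (td (alt hn a) (alt hn a') : ℤ) ≤ (a' + 2 * b' : ℤ) - (a + 2 * b)
  rw [td_of_suffix (alt_suffix hn h), alt_length, alt_length]
  omega

lemma td_nil (v : List (Fin n)) : td [] v = v.length := by
  rw [td_of_suffix List.nil_suffix]
  rfl

lemma o_le_iff {z : TreePt n} : o ≤ z ↔ (z.v.length : ℤ) ≤ z.h := by
  rw [le_iff]
  show (td [] z.v : ℤ) ≤ z.h - 0 ↔ _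
  rw [td_nil, sub_zero]

lemma o_le_pt (hn : 2 ≤ n) (a b : ℕ) : o ≤ pt hn a b := by
  rw [o_le_iff]
  show ((alt hn a).length : ℤ) ≤ a + 2 * b
  rw [alt_length]
  omega

lemma model_ordConnected (hn : 2 ≤ n) (d c : ℕ∞) : (Model hn d c).OrdConnected := by
  refine ⟨fun x hx y hy z hz => ?_⟩
  obtain ⟨-, a, b, ha, hb, hab⟩ := hy
  exact ⟨hx.1.trans hz.1, a, b, ha, hb, hz.2.trans hab⟩

lemma model_coe (hn : 2 ≤ n) (d c : ℕ) :
    Model hn (d : ℕ∞) (c : ℕ∞) = Set.Icc o (pt hn d c) := by
  ext z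
  constructor
  · rintro ⟨h, a, b, ha, hb, hab⟩
    exact ⟨h, hab.trans (pt_mono hn (by exact_mod_cast ha) (by exact_mod_cast hb))⟩
  · rintro ⟨h, h'⟩
    exact ⟨h, d, c, le_rfl, le_rfl, h'⟩

lemma length_le_td (v w : List (Fin n)) : w.length ≤ v.length + td v w := by
  unfold td
  have := cs_le_left v w
  have := cs_le_right v w
  omega

/-- twice the number `c` of a point is monotone -/
lemma c_mono {z w : TreePt n} (h : z ≤ w) : z.h - z.v.length ≤ w.h - w.v.length := by
  rw [le_iff] at h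
  have := length_le_td z.v w.v
  omega

lemma h_mono {z w : TreePt n} (h : z ≤ w) : z.h ≤ w.h := by
  rcases eq_or_lt_of_le h with rfl | h
  · exact le_rfl
  · exact (h_lt h).le

lemma c_even (z : TreePt n) : ∃ c : ℤ, z.h - z.v.length = 2 * c := by
  obtain ⟨r, hr⟩ := z.par
  exact ⟨r - z.v.length, by omega⟩

/-- a point with a large number `c` is above a given point -/
lemma le_of_c {z w : TreePt n} (h : z.v.length + z.h ≤ w.h - w.v.length) : z ≤ w := by
  rw [le_iff]
  have : (td z.v w.v : ℤ) ≤ z.v.length + w.v.length := by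
    unfold td
    have := cs_le_left z.v w.v
    omega
  omega

lemma model_top (hn : 2 ≤ n) (d : ℕ∞) : Model hn d ⊤ = {z | o ≤ z} := by
  ext z
  constructor
  · exact fun h => h.1
  · intro h
    have h0 : (z.v.length : ℤ) ≤ z.h := o_le_iff.1 h
    refine ⟨h, 0, (z.v.length + z.h).toNat, by simp, le_top, ?_⟩
    apply le_of_c
    show (z.v.length : ℤ) + z.h ≤ ((0 : ℕ) + 2 * ((z.v.length + z.h).toNat : ℤ)) - (alt hn 0).length
    rw [Int.toNat_of_nonneg (by omega)]
    simp only [alt, List.length_nil, Nat.cast_zero]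
    omega

/-- the points of the model lattice whose number `c` is maximal -/
lemma eq_pt (hn : 2 ≤ n) {c : ℕ} {z : TreePt n} {a b : ℕ} (hb : b ≤ c) (hz : z ≤ pt hn a b)
    (hc : z.h - z.v.length = 2 * c) : z = pt hn z.v.length c := by
  have h1 := hz
  rw [le_iff] at h1
  have h2 : (td z.v (alt hn a) : ℤ) ≤ (a + 2 * b : ℤ) - z.h := h1
  have h3 : (td z.v (alt hn a) : ℤ) ≤ a - z.v.length := by omega
  have h4 : z.v <:+ alt hn a := by
    apply suffix_of_cs
    have h5 := cs_le_left z.v (alt hn a)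
    have h6 := cs_le_right z.v (alt hn a)
    have h7 := alt_length hn a
    unfold td at h3
    omega
  have h5 : z.v.length ≤ a := by
    have := h4.length_le
    rwa [alt_length] at this
  have h6 : z.v = alt hn z.v.length := by
    have h7 := List.suffix_of_suffix_length_le h4 (alt_suffix hn h5) (by rw [alt_length])
    exact h7.eq_of_length (by rw [alt_length])
  apply TreePt.ext
  · exact h6
  · show z.h = z.v.length + 2 * c
    omega

lemma finite_below (N : ℕ) : {z : TreePt n | o ≤ z ∧ z.h ≤ N}.Finite := by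
  have h1 : ({l : List (Fin n) | l.length ≤ N} ×ˢ Set.Icc (0 : ℤ) N).Finite :=
    (List.finite_length_le (Fin n) N).prod (Set.finite_Icc _ _)
  refine Set.Finite.of_injOn (f := fun z : TreePt n => (z.v, z.h)) ?_ ?_ h1
  · rintro z ⟨h2, h3⟩
    rw [o_le_iff] at h2
    simp only [Set.mem_prod, Set.mem_ofPred_eq, Set.mem_Icc]
    omega
  · intro z _ w _ h
    simp only [Prod.mk.injEq] at h
    exact TreePt.ext h.1 h.2

end TreePt

end Pool.Agent.Helper87.ML
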