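import Pool.Agent.Helper87.ML.Decomp

set_option autoImplicit false

/-! The finite and finitary modular lattices with self-dual intervals are, uniquely, the finite
products of primary ones. -/

namespace Pool.Agent.Helper87.ML.OldDecomposition

open Pool.Agent.Helper87.ML

universe u

theorem result :
    (∀ (L : Type u) [Lattice L] [Nonempty L], (∀ x : L, (Set.Iic x).Finite) →
      IsModularLattice L → (∀ x : L, {y | x ⋖ y}.Finite) →
      (SD' L ↔ ∃ (ι : Type) (_ : Finite ι) (K : ι → Type u) (_ : ∀ i, Lattice (K i)),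
        (∀ i, PrimSD (K i)) ∧ Nonempty (L ≃o ∀ i, K i))) ∧
    (∀ (ι ι' : Type) (K : ι → Type u) (K' : ι' → Type u) [∀ i, Lattice (K i)]
      [∀ i, Lattice (K' i)], (∀ i, PrimSD (K i)) → (∀ i, PrimSD (K' i)) →
      Nonempty ((∀ i, K i) ≃o ∀ i, K' i) →
      ∃ σ : ι ≃ ι', ∀ i, Nonempty (K i ≃o K' (σ i))) := by
  refine ⟨?_, ?_⟩
  · intro L _ _ hfin hm hfc
    exact decomposition hfin hm hfc
  · rintro ι ι' K K' _ _ hK hK' ⟨Φ⟩
    exact primary_unique (fun i => ⟨(hK i).nontriv, (hK i).fin, (hK i).prim⟩)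
      (fun i => ⟨(hK' i).nontriv, (hK' i).fin, (hK' i).prim⟩) Φ

end Pool.Agent.Helper87.ML.OldDecomposition
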