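import Pool.Agent.Helper87.ML.Primary

set_option autoImplicit false

/-! In a primary lattice with as many atoms as coatoms in every interval all lines have the same
number of points. -/

namespace Pool.Agent.Helper87.ML

section Planes

variable {L : Type*} [Lattice L]

/-- the points on a line -/
def pts (o l : L) : Set L := {z | o ⋖ z ∧ z ≤ l}

lemma pts_fin (hF : LF L) (o l : L) : (pts o l).Finite := lf_at hF o l

/-- projection from a point -/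
lemma plane_proj (hF : LF L) {o t : L} (hP : IsPlane o t) {l m z : L} (hol : o ≤ l) (hlt : l ⋖ t)
    (hom : o ≤ m) (hmt : m ⋖ t) (hz : o ⋖ z) (hzt : z ≤ t) (hzl : ¬ z ≤ l) (hzm : ¬ z ≤ m) :
    (pts o l).ncard ≤ (pts o m).ncard := by
  classical
  obtain ⟨-, h2, h3, -, -⟩ := hP
  have hex : ∀ s ∈ pts o l, ∃ u ∈ pts o m, ∃ n, (o ≤ n ∧ n ⋖ t) ∧ s ≤ n ∧ z ≤ n ∧ u ≤ n := by
    rintro s ⟨hs, hsl⟩
    have hsz : s ≠ z := fun h => hzl (h ▸ hsl)
    obtain ⟨n, ⟨⟨hon, hnt⟩, hsn, hzn⟩, -⟩ := h2 s z hs (hsl.trans hlt.le) hz hzt hsz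
    have hnm : n ≠ m := fun h => hzm (h ▸ hzn)
    obtain ⟨u, ⟨⟨hu, -⟩, hun, hum⟩, -⟩ := h3 n m hon hnt hom hmt hnm
    exact ⟨u, ⟨hu, hum⟩, n, ⟨hon, hnt⟩, hsn, hzn, hun⟩
  choose f hf using hex
  refine Set.ncard_le_ncard_of_injOn (fun s => if h : s ∈ pts o l then f s h else s) ?_ ?_
    (pts_fin hF o m)
  · intro s hs
    show (if h : s ∈ pts o l then f s h else s) ∈ pts o m
    rw [dif_pos hs]
    exact (hf s hs).1
  · intro s hs s' hs' he
    simp only at he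
    rw [dif_pos hs, dif_pos hs'] at he
    obtain ⟨hu, n, ⟨hon, hnt⟩, hsn, hzn, hun⟩ := hf s hs
    obtain ⟨hu', n', ⟨hon', hnt'⟩, hsn', hzn', hun'⟩ := hf s' hs'
    rw [← he] at hun'
    set u := f s hs
    have huz : u ≠ z := fun h => hzm (h ▸ hu.2)
    have hnn : n = n' := by
      obtain ⟨k, -, hk⟩ := h2 u z hu.1 (hu.2.trans hmt.le) hz hzt huz
      rw [hk n ⟨⟨hon, hnt⟩, hun, hzn⟩, hk n' ⟨⟨hon', hnt'⟩, hun', hzn'⟩]
    subst hnn
    by_contra hne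
    obtain ⟨k, -, hk⟩ := h2 s s' hs.1 (hs.2.trans hlt.le) hs'.1 (hs'.2.trans hlt.le) hne
    have h4 : n = l := by
      rw [hk n ⟨⟨hon, hnt⟩, hsn, hsn'⟩, hk l ⟨⟨hol, hlt⟩, hs.2, hs'.2⟩]
    exact hzl (h4 ▸ hzn)

/-- a point off two lines -/
lemma plane_off {o t : L} (hP : IsPlane o t) {l m : L} (hol : o ≤ l) (hlt : l ⋖ t)
    (hom : o ≤ m) (hmt : m ⋖ t) (hlm : l ≠ m) : ∃ z, o ⋖ z ∧ z ≤ t ∧ ¬ z ≤ l ∧ ¬ z ≤ m := by
  obtain ⟨-, h2, h3, h4, -⟩ := hP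
  obtain ⟨u, ⟨⟨hu, hut⟩, hul, hum⟩, huu⟩ := h3 l m hol hlt hom hmt hlm
  have hoff : ∀ l, o ≤ l → l ⋖ t → ∃ a, o ⋖ a ∧ a ≤ l ∧ a ≠ u := by
    intro l hol hlt
    obtain ⟨p, q, r, ⟨hp, hq, hr⟩, ⟨hpl, hql, hrl⟩, hpq, hpr, hqr⟩ := h4 l hol hlt
    by_cases h : p = u
    · exact ⟨q, hq, hql, fun h' => hpq (h.trans h'.symm)⟩
    · exact ⟨p, hp, hpl, h⟩
  obtain ⟨a, ha, hal, hau⟩ := hoff l hol hlt
  obtain ⟨b, hb, hbm, hbu⟩ := hoff m hom hmt
  have ham : ¬ a ≤ m := fun h => hau (huu a ⟨⟨ha, hal.trans hlt.le⟩, hal, h⟩)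
  have hbl : ¬ b ≤ l := fun h => hbu (huu b ⟨⟨hb, hbm.trans hmt.le⟩, h, hbm⟩)
  have hab : a ≠ b := fun h => ham (h ▸ hbm)
  obtain ⟨n, ⟨⟨hon, hnt⟩, han, hbn⟩, -⟩ := h2 a b ha (hal.trans hlt.le) hb (hbm.trans hmt.le) hab
  obtain ⟨z, hz, hzn, hza, hzb⟩ : ∃ z, o ⋖ z ∧ z ≤ n ∧ z ≠ a ∧ z ≠ b := by
    obtain ⟨p, q, r, ⟨hp, hq, hr⟩, ⟨hpl, hql, hrl⟩, hpq, hpr, hqr⟩ := h4 n hon hnt
    by_cases c1 : p = a ∨ p = b
    · by_cases c2 : q = a ∨ q = b
      · refine ⟨r, hr, hrl, ?_, ?_⟩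
        · rintro rfl
          rcases c1 with c1 | c1 <;> rcases c2 with c2 | c2
          · exact hpr c1
          · exact hpr c1
          · exact hqr c2
          · exact hpq (c1.trans c2.symm)
        · rintro rfl
          rcases c1 with c1 | c1 <;> rcases c2 with c2 | c2
          · exact hpq (c1.trans c2.symm)
          · exact hqr c2
          · exact hpr c1
          · exact hpr c1
      · push Not at c2
        exact ⟨q, hq, hql, c2.1, c2.2⟩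
    · push Not at c1
      exact ⟨p, hp, hpl, c1.1, c1.2⟩
  refine ⟨z, hz, hzn.trans hnt.le, ?_, ?_⟩
  · intro hzl
    obtain ⟨k, -, hk⟩ := h2 z a hz (hzn.trans hnt.le) ha (hal.trans hlt.le) hza
    have h5 : n = l := by
      rw [hk n ⟨⟨hon, hnt⟩, hzn, han⟩, hk l ⟨⟨hol, hlt⟩, hzl, hal⟩]
    exact hbl (h5 ▸ hbn)
  · intro hzm
    obtain ⟨k, -, hk⟩ := h2 z b hz (hzn.trans hnt.le) hb (hbm.trans hmt.le) hzb
    have h5 : n = m := by
      rw [hk n ⟨⟨hon, hnt⟩, hzn, hbn⟩, hk m ⟨⟨hom, hmt⟩, hzm, hbm⟩]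
    exact ham (h5 ▸ han)

/-- all lines of a plane have the same number of points -/
lemma plane_lines (hF : LF L) {o t : L} (hP : IsPlane o t) {l m : L} (hol : o ≤ l) (hlt : l ⋖ t)
    (hom : o ≤ m) (hmt : m ⋖ t) : (pts o l).ncard = (pts o m).ncard := by
  by_cases hlm : l = m
  · rw [hlm]
  · obtain ⟨z, hz, hzt, hzl, hzm⟩ := plane_off hP hol hlt hom hmt hlm
    exact le_antisymm (plane_proj hF hP hol hlt hom hmt hz hzt hzl hzm)
      (plane_proj hF hP hom hmt hol hlt hz hzt hzm hzl)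

/-- the number of lines through a point -/
lemma plane_pencil (hF : LF L) {o t : L} (hP : IsPlane o t) {u l : L} (hu : o ⋖ u) (hut : u ≤ t)
    (hol : o ≤ l) (hlt : l ⋖ t) : {n | u ≤ n ∧ n ⋖ t}.ncard = (pts o l).ncard := by
  classical
  obtain ⟨-, h2, h3, h4, p, q, r, ⟨hp, hq, hr⟩, ⟨hpt, hqt, hrt⟩, ⟨hpq, hpr, hqr⟩, hno⟩ := id hP
  -- a line off `u`
  obtain ⟨m, hom, hmt, hum⟩ : ∃ m, o ≤ m ∧ m ⋖ t ∧ ¬ u ≤ m := by
    by_contra hcon
    push Not at hcon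
    obtain ⟨a, ⟨⟨h5, h6⟩, h7, h8⟩, -⟩ := h2 p q hp hpt hq hqt hpq
    obtain ⟨b, ⟨⟨h9, h10⟩, h11, h12⟩, -⟩ := h2 p r hp hpt hr hrt hpr
    obtain ⟨c, ⟨⟨h13, h14⟩, h15, h16⟩, -⟩ := h2 q r hq hqt hr hrt hqr
    have hab : a ≠ b := fun h => hno a h5 h6 ⟨h7, h8, h ▸ h12⟩
    have hac : a ≠ c := fun h => hno a h5 h6 ⟨h7, h8, h ▸ h16⟩
    obtain ⟨k, -, hk⟩ := h3 a b h5 h6 h9 h10 hab
    obtain ⟨k', -, hk'⟩ := h3 a c h5 h6 h13 h14 hac
    have e1 : u = p := by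
      rw [hk u ⟨⟨hu, hut⟩, hcon a h5 h6, hcon b h9 h10⟩, hk p ⟨⟨hp, hpt⟩, h7, h11⟩]
    have e2 : u = q := by
      rw [hk' u ⟨⟨hu, hut⟩, hcon a h5 h6, hcon c h13 h14⟩, hk' q ⟨⟨hq, hqt⟩, h8, h15⟩]
    exact hpq (e1.symm.trans e2)
  rw [plane_lines hF hP hol hlt hom hmt]
  apply le_antisymm
  · -- from lines to points
    have hex : ∀ n ∈ {n | u ≤ n ∧ n ⋖ t}, ∃ s ∈ pts o m, s ≤ n := by
      rintro n ⟨hun, hnt⟩
      have hnm : n ≠ m := fun h => hum (h ▸ hun)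
      obtain ⟨s, ⟨⟨hs, -⟩, hsn, hsm⟩, -⟩ := h3 n m (hu.le.trans hun) hnt hom hmt hnm
      exact ⟨s, ⟨hs, hsm⟩, hsn⟩
    choose f hf using hex
    refine Set.ncard_le_ncard_of_injOn (fun s => if h : s ∈ {n | u ≤ n ∧ n ⋖ t} then f s h else s)
      ?_ ?_ (pts_fin hF o m)
    · intro s hs
      show (if h : s ∈ {n | u ≤ n ∧ n ⋖ t} then f s h else s) ∈ pts o m
      rw [dif_pos hs]
      exact (hf s hs).1
    · intro n hn n' hn' he
      simp only at he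
      rw [dif_pos hn, dif_pos hn'] at he
      obtain ⟨h5, h6⟩ := hf n hn
      obtain ⟨h7, h8⟩ := hf n' hn'
      rw [← he] at h8
      have hne : u ≠ f n hn := fun h => hum (h ▸ h5.2)
      obtain ⟨k, -, hk⟩ := h2 u (f n hn) hu hut h5.1 (h5.2.trans hmt.le) hne
      rw [hk n ⟨⟨hu.le.trans hn.1, hn.2⟩, hn.1, h6⟩, hk n' ⟨⟨hu.le.trans hn'.1, hn'.2⟩, hn'.1, h8⟩]
  · have hex : ∀ s ∈ pts o m, ∃ n ∈ {n | u ≤ n ∧ n ⋖ t}, s ≤ n := by
      rintro s ⟨hs, hsm⟩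
      have hne : u ≠ s := fun h => hum (h ▸ hsm)
      obtain ⟨n, ⟨⟨-, hnt⟩, hun, hsn⟩, -⟩ := h2 u s hu hut hs (hsm.trans hmt.le) hne
      exact ⟨n, ⟨hun, hnt⟩, hsn⟩
    choose f hf using hex
    refine Set.ncard_le_ncard_of_injOn (fun s => if h : s ∈ pts o m then f s h else s)
      ?_ ?_ (lf_co hF u t)
    · intro s hs
      show (if h : s ∈ pts o m then f s h else s) ∈ {n | u ≤ n ∧ n ⋖ t}
      rw [dif_pos hs]
      exact (hf s hs).1
    · intro s hs s' hs' he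
      simp only at he
      rw [dif_pos hs, dif_pos hs'] at he
      obtain ⟨h5, h6⟩ := hf s hs
      obtain ⟨h7, h8⟩ := hf s' hs'
      rw [← he] at h8
      have hne : f s hs ≠ m := fun h => hum (h ▸ h5.1)
      obtain ⟨k, -, hk⟩ := h3 (f s hs) m (hu.le.trans h5.1) h5.2 hom hmt hne
      rw [hk s ⟨⟨hs.1, hs.2.trans hmt.le⟩, h6, hs.2⟩, hk s' ⟨⟨hs'.1, hs'.2.trans hmt.le⟩, h8, hs'.2⟩]

end Planes

section Order

variable {L : Type*} [Lattice L] [IsModularLattice L]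

/-- lines over the same element -/
lemma same_base (hF : LF L) {o p q r : L} (hC : ∀ t, Conn o t) (hp : o ⋖ p)
    (hq : o ⋖ q) (hr : o ⋖ r) (hpq : p ≠ q) (hpr : p ≠ r) :
    (pts o (p ⊔ q)).ncard = (pts o (p ⊔ r)).ncard := by
  by_cases h : r ≤ p ⊔ q
  · rw [gen_cov hp (cov_sup' hp hq hpq) hr hpr h]
  · have hP := isPlane_of hF hp hq hr hpq h (hC _)
    have h1 : p ⊔ q ⋖ p ⊔ q ⊔ r := cov_sup hr (hp.le.trans le_sup_left) h
    have h2 : ¬ q ≤ p ⊔ r := by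
      intro h'
      have h3 : p ⊔ q = p ⊔ r := gen_cov hp (cov_sup' hp hr hpr) hq hpq h'
      exact h (h3 ▸ le_sup_right)
    have h3 : p ⊔ r ⋖ p ⊔ q ⊔ r := by
      have h4 : p ⊔ r ⋖ p ⊔ r ⊔ q := cov_sup hq (hp.le.trans le_sup_left) h2
      rwa [sup_right_comm] at h4
    exact plane_lines hF hP (hp.le.trans le_sup_left) h1 (hp.le.trans le_sup_left) h3

lemma same_base' (hF : LF L) {o p q r s : L} (hC : ∀ t, Conn o t) (hp : o ⋖ p)
    (hq : o ⋖ q) (hr : o ⋖ r) (hs : o ⋖ s) (hpq : p ≠ q) (hrs : r ≠ s) :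
    (pts o (p ⊔ q)).ncard = (pts o (r ⊔ s)).ncard := by
  by_cases hpr : p = r
  · subst hpr
    exact same_base hF hC hp hq hs hpq hrs
  · rw [same_base hF hC hp hq hr hpq hpr, sup_comm p r]
    exact same_base hF hC hr hp hs (Ne.symm hpr) hrs

/-- passing to a cover -/
lemma step_up (hF : LF L) (hN : NN' L) {o y e f : L} (hC : ∀ t, Conn o t) (hy : o ⋖ y)
    (he : y ⋖ e) (hf : y ⋖ f) (hef : e ≠ f) :
    ∃ p q, o ⋖ p ∧ o ⋖ q ∧ p ≠ q ∧ (pts y (e ⊔ f)).ncard = (pts o (p ⊔ q)).ncard := by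
  set t := e ⊔ f with ht
  have het : e ⋖ t := cov_sup' he hf hef
  have hft : f ⋖ t := by rw [ht, sup_comm]; exact cov_sup' hf he hef.symm
  have hot : o ≤ t := hy.le.trans (he.le.trans het.le)
  -- `[y, t]` has length two
  have hlen : ∀ w, y ⋖ w → w ≤ t → w ⋖ t := by
    intro w hw hwt
    by_cases hwe : w = e
    · rw [hwe]; exact het
    · have h1 : w ⋖ w ⊔ e := cov_sup' hw he hwe
      have h2 : w ⊔ e = t := by
        have h3 : e ⋖ e ⊔ w := cov_sup' he hw (Ne.symm hwe)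
        rw [sup_comm w e]
        exact eq_of_cov_le h3 het (sup_le het.le hwt)
      rwa [h2] at h1
  have hlen' : ∀ w, y ≤ w → w ⋖ t → y ⋖ w := by
    intro w hyw hwt
    have h1 : y ≠ w := by
      rintro rfl
      exact hwt.2 he.lt het.lt
    obtain ⟨w', hw', hw'w⟩ := lf_cov hF (lt_of_le_of_ne hyw h1)
    have h2 := hlen w' hw' (hw'w.trans hwt.le)
    rcases eq_or_lt_of_le hw'w with h | h
    · rwa [← h]
    · exact absurd hwt.lt (h2.2 h)
  have hset : pts y t = {w | y ≤ w ∧ w ⋖ t} := by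
    ext w
    exact ⟨fun h => ⟨h.1.le, hlen w h.1 h.2⟩, fun h => ⟨hlen' w h.1 h.2, h.2.le⟩⟩
  -- a second atom
  obtain ⟨y', hy', hy't, hyy'⟩ : ∃ y', o ⋖ y' ∧ y' ≤ t ∧ y' ≠ y := by
    have h1 : 1 < {z | o ≤ z ∧ z ⋖ t}.ncard := by
      rw [Set.one_lt_ncard (lf_co hF o t)]
      exact ⟨e, ⟨hy.le.trans he.le, het⟩, f, ⟨hy.le.trans hf.le, hft⟩, hef⟩
    rw [← hN o t hot] at h1
    obtain ⟨z, hz, hzy⟩ := Set.exists_ne_of_one_lt_ncard h1 y
    exact ⟨z, hz.1, hz.2, hzy⟩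
  refine ⟨y, y', hy, hy', hyy'.symm, ?_⟩
  set s := y ⊔ y' with hs
  have hys : y ⋖ s := cov_sup' hy hy' hyy'.symm
  have hst : s ≤ t := sup_le (he.le.trans het.le) hy't
  have hst' : s ⋖ t := hlen s hys hst
  by_cases hz : ∃ z, o ⋖ z ∧ z ≤ t ∧ ¬ z ≤ s
  · obtain ⟨z, hz, hzt, hzs⟩ := hz
    have h1 : s ⊔ z = t := eq_sup_cov hst' hzt hzs
    have hP := isPlane_of hF hy hy' hz hyy'.symm hzs (hC _)
    rw [← hs, h1] at hP
    rw [hset]
    exact plane_pencil hF hP hy (he.le.trans het.le) (hy.le.trans hys.le) hst'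
  · push Not at hz
    have hat : {z | o ⋖ z ∧ z ≤ t} = pts o s := by
      ext z
      exact ⟨fun h => ⟨h.1, hz z h.1 h.2⟩, fun h => ⟨h.1, h.2.trans hst⟩⟩
    have hco : {z | o ≤ z ∧ z ⋖ t} = {w | y ≤ w ∧ w ⋖ t} := by
      ext w
      constructor
      · rintro ⟨how, hwt⟩
        refine ⟨?_, hwt⟩
        by_contra hyw
        -- the meets with `e` and `f` are atoms
        have key : ∀ e, y ⋖ e → e ⋖ t → e ≤ s := by
          intro e he het
          have hwe : ¬ e ≤ w := fun h => hyw (he.le.trans h)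
          have h1 : w ⊓ e ⋖ e := inf_cov hwt het.le hwe
          have hyg : ¬ w ⊓ e = y := fun h => hyw (h ▸ inf_le_left)
          have hgy : ¬ w ⊓ e ≤ y := by
            intro h
            rcases eq_or_lt_of_le h with h | h
            · exact hyg h
            · exact h1.2 h he.lt
          have h2 : y ⊓ (w ⊓ e) ⋖ w ⊓ e := inf_cov he h1.le hgy
          have h3 : y ⊓ (w ⊓ e) = o := by
            have h4 : y ⊓ (w ⊓ e) < y := by
              apply lt_of_le_of_ne inf_le_left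
              intro h
              exact hyw ((inf_eq_left.1 h).trans inf_le_left)
            have h5 : o ≤ y ⊓ (w ⊓ e) := le_inf hy.le (le_inf how (hy.le.trans he.le))
            rcases eq_or_lt_of_le h5 with h | h
            · exact h.symm
            · exact absurd h4 (hy.2 h)
          rw [h3] at h2
          have h4 : w ⊓ e ≤ s := hz _ h2 (inf_le_right.trans het.le)
          rw [← eq_sup_cov he h1.le hgy]
          exact sup_le hys.le h4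
        have h1 := key e he het
        have h2 := key f hf hft
        have h3 : t ≤ s := sup_le h1 h2
        exact absurd hst'.lt (not_lt_of_ge h3)
      · rintro ⟨h1, h2⟩
        exact ⟨hy.le.trans h1, h2⟩
    have h1 := hN o t hot
    rw [hat, hco] at h1
    rw [hset]
    exact h1.symm

/-- all lines have the same number of points -/
theorem uniform_order (hfin : ∀ x : L, (Set.Iic x).Finite) (hN : NN' L) (b : L)
    (hb : ∀ x, b ≤ x) (hC : ∀ t : L, Conn b t) :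
    ∃ q : ℕ, 2 ≤ q ∧ ∀ x y z : L, x ⋖ y → x ⋖ z → y ≠ z →
      {w | x ⋖ w ∧ w ≤ y ⊔ z}.ncard = q + 1 := by
  have hF := LF.of_fin hfin
  have hC' : ∀ x t : L, Conn x t := by
    intro x t p q hp hpt hq hqt hpq
    exact (hC t).sub hF hN (hb x) (hp.le.trans hpt) le_rfl p q hp hpt hq hqt hpq
  by_cases h : ∃ p q, b ⋖ p ∧ b ⋖ q ∧ p ≠ q
  · obtain ⟨p, q, hp, hq, hpq⟩ := h
    have h3 : 2 < (pts b (p ⊔ q)).ncard := by
      obtain ⟨w, hw, hwpq, hwp, hwq⟩ := hC (p ⊔ q) p q hp le_sup_left hq le_sup_right hpq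
      show 2 < {z | b ⋖ z ∧ z ≤ p ⊔ q}.ncard
      rw [Set.two_lt_ncard_iff (lf_at hF b (p ⊔ q))]
      exact ⟨p, q, w, ⟨hp, le_sup_left⟩, ⟨hq, le_sup_right⟩, ⟨hw, hwpq⟩, hpq, hwp.symm, hwq.symm⟩
    have key : ∀ m : ℕ, ∀ x, (Set.Icc b x).ncard = m → ∀ y z : L, x ⋖ y → x ⋖ z → y ≠ z →
        (pts x (y ⊔ z)).ncard = (pts b (p ⊔ q)).ncard := by
      intro m
      induction m using Nat.strong_induction_on with
      | _ m ih =>
        intro x hm y z hy hz hyz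
        rcases eq_or_lt_of_le (hb x) with h | h
        · subst h
          exact same_base' hF hC hy hz hp hq hyz hpq
        · obtain ⟨x', -, hx'⟩ := lf_cov' hF h
          obtain ⟨u, v, hu, hv, huv, he⟩ := step_up hF hN (hC' x') hx' hy hz hyz
          rw [he]
          exact ih _ (by rw [← hm]; exact icc_lt hF (hb x) hx'.lt) x' rfl u v hu hv huv
    refine ⟨(pts b (p ⊔ q)).ncard - 1, by omega, fun x y z hy hz hyz => ?_⟩
    have h1 := key _ x rfl y z hy hz hyz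
    show (pts x (y ⊔ z)).ncard = _
    omega
  · -- no branching
    have key : ∀ m : ℕ, ∀ x, (Set.Icc b x).ncard = m → ∀ y z : L, x ⋖ y → x ⋖ z → y = z := by
      intro m
      induction m using Nat.strong_induction_on with
      | _ m ih =>
        intro x hm y z hy hz
        by_contra hyz
        rcases eq_or_lt_of_le (hb x) with h' | h'
        · subst h'
          exact h ⟨y, z, hy, hz, hyz⟩
        · obtain ⟨x', -, hx'⟩ := lf_cov' hF h'
          obtain ⟨u, v, hu, hv, huv, -⟩ := step_up hF hN (hC' x') hx' hy hz hyz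
          exact huv (ih _ (by rw [← hm]; exact icc_lt hF (hb x) hx'.lt) x' rfl u v hu hv)
    exact ⟨2, le_rfl, fun x y z hy hz hyz => absurd (key _ x rfl y z hy hz) hyz⟩

end Order

end Pool.Agent.Helper87.ML
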