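import Pool.Agent.Helper87.ML.Split
import Pool.Agent.Helper87.ML.Main

set_option autoImplicit false

/-! Intervals which are projective planes; the inductive decomposition. -/

namespace Pool.Agent.Helper87.ML

section Plane

variable {L : Type*} [Lattice L]

variable [IsModularLattice L]

omit [IsModularLattice L] in
lemma gen_cov {o s t r : L} (hs : o ⋖ s) (ht : s ⋖ s ⊔ t) (hr : o ⋖ r) (hsr : s ≠ r)
    (hrst : r ≤ s ⊔ t) : s ⊔ r = s ⊔ t :=
  eq_sup_cov ht hrst (not_le_cov hr hs hsr.symm)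

/-- three non-collinear atoms generate a plane -/
lemma isPlane_of (hF : LF L) {o p q r : L} (hp : o ⋖ p) (hq : o ⋖ q) (hr : o ⋖ r)
    (hpq : p ≠ q) (hr' : ¬ r ≤ p ⊔ q) (hC : Conn o (p ⊔ q ⊔ r)) : IsPlane o (p ⊔ q ⊔ r) := by
  set t := p ⊔ q ⊔ r with ht
  have hpt : p ≤ t := le_sup_left.trans le_sup_left
  have hqt : q ≤ t := le_sup_right.trans le_sup_left
  have hrt : r ≤ t := le_sup_right
  have hline : p ⊔ q ⋖ t := cov_sup hr (hp.le.trans le_sup_left) hr'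
  have hppq : p ⋖ p ⊔ q := cov_sup' hp hq hpq
  -- a line through each point
  have hex : ∀ a, o ⋖ a → a ≤ t → ∃ l, a ⋖ l ∧ l ⋖ t := by
    intro a ha hat
    by_cases hap : a = p
    · exact ⟨p ⊔ q, hap ▸ hppq, hline⟩
    · refine ⟨a ⊔ p, cov_sup' ha hp hap, ?_⟩
      have h1 : p ⋖ p ⊔ a := cov_sup' hp ha (Ne.symm hap)
      rw [sup_comm a p]
      by_cases he : p ⊔ a = p ⊔ q
      · rw [he]; exact hline
      · have h2 := cov_sup' h1 hppq he
        have h3 : p ⊔ a ⊔ (p ⊔ q) = t := by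
          have h4 : p ⊔ q ≤ p ⊔ a ⊔ (p ⊔ q) := le_sup_right
          have h5 : p ⊔ a ⊔ (p ⊔ q) ≤ t := sup_le (sup_le hpt hat) hline.le
          rcases eq_or_lt_of_le h5 with h | h
          · exact h
          · exfalso
            have h6 : p ⊔ q ⋖ p ⊔ q ⊔ (p ⊔ a) := cov_sup' hppq h1 (Ne.symm he)
            rw [sup_comm (p ⊔ q) (p ⊔ a)] at h6
            exact hline.2 h6.lt h
        rwa [h3] at h2
  have hH : ∀ a, o ⋖ a → a ≤ t → ∀ z, a < z → z < t → a ⋖ z ∧ z ⋖ t := by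
    intro a ha hat z haz hzt
    obtain ⟨l, hal, hlt⟩ := hex a ha hat
    obtain ⟨z1, haz1, hz1z⟩ := lf_cov hF haz
    by_cases he : z1 = l
    · have h1 : z = l := by
        rw [he] at hz1z
        rcases eq_or_lt_of_le hz1z with h | h
        · exact h.symm
        · exact absurd hzt (hlt.2 h)
      rw [h1]; exact ⟨hal, hlt⟩
    · have h1 : z1 ⋖ z1 ⊔ l := cov_sup' haz1 hal he
      have h2 : z1 ⊔ l = t := by
        have h3 : l ⋖ l ⊔ z1 := cov_sup' hal haz1 (Ne.symm he)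
        rw [sup_comm l z1] at h3
        rcases eq_or_lt_of_le (sup_le (hz1z.trans hzt.le) hlt.le) with h | h
        · exact h
        · exact absurd h (hlt.2 h3.lt)
      rw [h2] at h1
      have h3 : z = z1 := by
        rcases eq_or_lt_of_le hz1z with h | h
        · exact h.symm
        · exact absurd hzt (h1.2 h)
      rw [h3]; exact ⟨haz1, h1⟩
  have hot : o < t := hp.lt.trans_le hpt
  -- the line through two points
  have hjoin : ∀ a b, o ⋖ a → a ≤ t → o ⋖ b → b ≤ t → a ≠ b → a ⊔ b ⋖ t := by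
    intro a b ha hat hb hbt hab
    have h1 : a ⋖ a ⊔ b := cov_sup' ha hb hab
    refine (hH a ha hat _ h1.lt (lt_of_le_of_ne (sup_le hat hbt) ?_)).2
    intro he
    obtain ⟨l, hal, hlt⟩ := hex a ha hat
    rw [he] at h1
    exact h1.2 hal.lt hlt.lt
  -- lines are not points
  have hnot : ∀ l, o ⋖ l → ¬ l ⋖ t := by
    intro l hl hlt
    obtain ⟨m, hlm, hmt⟩ := hex l hl hlt.le
    exact hlt.2 hlm.lt hmt.lt
  -- the meet of two lines
  have hmeet : ∀ l m, o ≤ l → l ⋖ t → o ≤ m → m ⋖ t → l ≠ m → o ⋖ l ⊓ m := by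
    intro l m hol hlt hom hmt hlm
    have hml : ¬ m ≤ l := by
      intro h
      rcases eq_or_lt_of_le h with h | h
      · exact hlm h.symm
      · exact hmt.2 h hlt.lt
    have h1 : l ⊓ m ⋖ m := inf_cov hlt hmt.le hml
    rcases eq_or_lt_of_le (le_inf hol hom) with h | h
    · rw [← h] at h1
      exact absurd hmt (hnot m h1)
    · obtain ⟨a, ha, halm⟩ := lf_cov hF h
      rcases eq_or_lt_of_le halm with h' | h'
      · rwa [← h']
      · have h2 := (hH a ha (halm.trans (inf_le_left.trans hlt.le)) (l ⊓ m) h'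
          (h1.lt.trans hmt.lt)).2
        exact absurd hmt.lt (h2.2 h1.lt)
  -- two points on a line
  have htwo : ∀ l, o ≤ l → l ⋖ t → ∀ a b c, o ⋖ a → a ≤ t → o ⋖ b → b ≤ t → o ⋖ c → c ≤ t →
      a ≠ b → a ≠ c → ¬ c ≤ a ⊔ b → ¬ a ≤ l →
      ∃ s s', o ⋖ s ∧ o ⋖ s' ∧ s ≤ l ∧ s' ≤ l ∧ s ≠ s' := by
    intro l hol hlt a b c ha hat hb hbt hc hct hab hac hcab hal
    have h1 := hjoin a b ha hat hb hbt hab
    have h2 := hjoin a c ha hat hc hct hac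
    have h3 : l ≠ a ⊔ b := fun h => hal (h ▸ le_sup_left)
    have h4 : l ≠ a ⊔ c := fun h => hal (h ▸ le_sup_left)
    refine ⟨l ⊓ (a ⊔ b), l ⊓ (a ⊔ c), hmeet l _ hol hlt (ha.le.trans le_sup_left) h1 h3,
      hmeet l _ hol hlt (ha.le.trans le_sup_left) h2 h4, inf_le_left, inf_le_left, ?_⟩
    intro he
    have h5 := hmeet l _ hol hlt (ha.le.trans le_sup_left) h1 h3
    set s := l ⊓ (a ⊔ b) with hs
    have h6 : s ≠ a := fun h => hal (h ▸ inf_le_left)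
    have h7 : a ⊔ s = a ⊔ b := gen_cov ha (cov_sup' ha hb hab) h5 (Ne.symm h6) inf_le_right
    have h8 : a ⊔ s = a ⊔ c := gen_cov ha (cov_sup' ha hc hac) h5 (Ne.symm h6)
      (by rw [he]; exact inf_le_right)
    exact hcab (by rw [← h7, h8]; exact le_sup_right)
  have hpr : p ≠ r := fun h => hr' (h ▸ le_sup_left)
  have hqr : q ≠ r := fun h => hr' (h ▸ le_sup_right)
  have hnone : ∀ l, l ⋖ t → ¬ (p ≤ l ∧ q ≤ l ∧ r ≤ l) := by
    rintro l hlt ⟨h1, h2, h3⟩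
    exact absurd hlt.lt (not_lt_of_ge (sup_le (sup_le h1 h2) h3))
  have hq' : ¬ q ≤ p ⊔ r := by
    intro h
    have h1 : p ⊔ q = p ⊔ r := gen_cov hp (cov_sup' hp hr hpr) hq hpq h
    exact hr' (h1 ▸ le_sup_right)
  have hp' : ¬ p ≤ q ⊔ r := by
    intro h
    have h1 : q ⊔ p = q ⊔ r := gen_cov hq (cov_sup' hq hr hqr) hp hpq.symm h
    rw [sup_comm q p] at h1
    exact hr' (h1 ▸ le_sup_right)
  refine ⟨?_, ?_, ?_, ?_, ?_⟩
  · intro z hoz hzt
    rcases eq_or_lt_of_le hoz with h | h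
    · exact Or.inl h.symm
    right
    rcases eq_or_lt_of_le hzt with h' | h'
    · exact Or.inr (Or.inr h')
    obtain ⟨a, ha, haz⟩ := lf_cov hF h
    rcases eq_or_lt_of_le haz with h'' | h''
    · exact Or.inl (h'' ▸ ha)
    · exact Or.inr (Or.inl (hH a ha (haz.trans hzt) z h'' h').2)
  · intro a b ha hat hb hbt hab
    have h1 := hjoin a b ha hat hb hbt hab
    refine ⟨a ⊔ b, ⟨⟨ha.le.trans le_sup_left, h1⟩, le_sup_left, le_sup_right⟩, ?_⟩
    rintro m ⟨⟨-, hmt⟩, ham, hbm⟩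
    rcases eq_or_lt_of_le (sup_le ham hbm) with h | h
    · exact h.symm
    · exact absurd hmt.lt (h1.2 h)
  · intro l m hol hlt hom hmt hlm
    have h1 := hmeet l m hol hlt hom hmt hlm
    refine ⟨l ⊓ m, ⟨⟨h1, inf_le_left.trans hlt.le⟩, inf_le_left, inf_le_right⟩, ?_⟩
    rintro a ⟨⟨ha, -⟩, hal, ham⟩
    exact eq_of_cov_le ha h1 (le_inf hal ham)
  · intro l hol hlt
    obtain ⟨s, s', hs, hs', hsl, hsl', hss⟩ : ∃ s s', o ⋖ s ∧ o ⋖ s' ∧ s ≤ l ∧ s' ≤ l ∧ s ≠ s' := by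
      by_cases h1 : p ≤ l
      · by_cases h2 : q ≤ l
        · exact ⟨p, q, hp, hq, h1, h2, hpq⟩
        · refine htwo l hol hlt q r p hq hqt hr hrt hp hpt hqr hpq.symm hp' h2
      · exact htwo l hol hlt p q r hp hpt hq hqt hr hrt hpq hpr hr' h1
    obtain ⟨w, hw, hwle, hws, hws'⟩ := hC s s' hs (hsl.trans hlt.le) hs' (hsl'.trans hlt.le) hss
    exact ⟨s, s', w, ⟨hs, hs', hw⟩, ⟨hsl, hsl', hwle.trans (sup_le hsl hsl')⟩, hss, hws.symm,
      hws'.symm⟩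
  · exact ⟨p, q, r, ⟨hp, hq, hr⟩, ⟨hpt, hqt, hrt⟩, ⟨hpq, hpr, hqr⟩, fun l _ hlt => hnone l hlt⟩

end Plane

section Ideals

variable {L : Type*} [Lattice L] [OrderBot L]

/-- ideals -/
structure Idl (U : Set L) : Prop where
  bot : ⊥ ∈ U
  lower : ∀ x y, x ≤ y → y ∈ U → x ∈ U
  sup : ∀ x y, x ∈ U → y ∈ U → x ⊔ y ∈ U

variable [IsModularLattice L]

open Classical in
/-- decomposition of ideals -/
lemma ideal_iso (hF : LF L) (hN : NN' L) {S : Set L}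
    (hS : ∀ c c', (⊥ : L) ⋖ c → ⊥ ⋖ c' → c ∈ S → Th ⊥ c c' → c' ∈ S) {U : Set L} (hU : Idl U) :
    Idl (U ∩ US ⊥ S) ∧ Idl (U ∩ US ⊥ Sᶜ) ∧
      Nonempty (U ≃o (↥(U ∩ US ⊥ S) × ↥(U ∩ US ⊥ Sᶜ))) := by
  refine ⟨?_, ?_, ?_⟩
  · exact ⟨⟨hU.bot, US_base _ _⟩, fun x y hxy hy => ⟨hU.lower x y hxy hy.1,
      US_mono hy.2 bot_le hxy⟩, fun x y hx hy => ⟨hU.sup x y hx.1 hy.1,
      US_sup' hF hN hS hx.2 hy.2⟩⟩
  · exact ⟨⟨hU.bot, US_base _ _⟩, fun x y hxy hy => ⟨hU.lower x y hxy hy.1,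
      US_mono hy.2 bot_le hxy⟩, fun x y hx hy => ⟨hU.sup x y hx.1 hy.1,
      US_sup' hF hN (compl_closed hS) hx.2 hy.2⟩⟩
  · have hdec : ∀ x : L, ∃ u ∈ US ⊥ S, ∃ v ∈ US ⊥ Sᶜ, u ⊔ v = x := fun x =>
      US_decomp hF hN hS _ x bot_le rfl
    choose f hf g hg hfg using hdec
    have hmono : ∀ x y, x ≤ y → f x ≤ f y ∧ g x ≤ g y := fun x y hxy =>
      US_unique hF hN hS (hf y) (hg y) (hf x) (hg x) (by rw [hfg, hfg]; exact hxy)
    refine ⟨⟨⟨fun x => (⟨f x.1, hU.lower _ _ (by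
      conv_rhs => rw [← hfg x.1]
      exact le_sup_left) x.2, hf x.1⟩, ⟨g x.1, hU.lower _ _ (by
      conv_rhs => rw [← hfg x.1]
      exact le_sup_right) x.2, hg x.1⟩), fun w => ⟨w.1.1 ⊔ w.2.1, hU.sup _ _ w.1.2.1 w.2.2.1⟩,
      ?_, ?_⟩, ?_⟩⟩
    · intro x
      exact Subtype.ext (hfg x.1)
    · rintro ⟨⟨u, hu1, hu2⟩, ⟨v, hv1, hv2⟩⟩
      have h1 := US_unique hF hN hS hu2 hv2 (hf (u ⊔ v)) (hg (u ⊔ v)) (hfg (u ⊔ v)).le
      have h2 := US_unique hF hN hS (hf (u ⊔ v)) (hg (u ⊔ v)) hu2 hv2 (hfg (u ⊔ v)).ge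
      apply Prod.ext
      · exact Subtype.ext (le_antisymm h1.1 h2.1)
      · exact Subtype.ext (le_antisymm h1.2 h2.2)
    · intro x y
      constructor
      · rintro ⟨h1, h2⟩
        show x.1 ≤ y.1
        rw [← hfg x.1, ← hfg y.1]
        exact sup_le_sup h1 h2
      · intro h
        exact ⟨(hmono x.1 y.1 h).1, (hmono x.1 y.1 h).2⟩

/-- the inductive decomposition -/
theorem dec_induction (hF : LF L) (hN : NN' L) {Q : Set L → Prop}
    (hbase : ∀ U, Idl U → (∀ a b, (⊥ : L) ⋖ a → a ∈ U → ⊥ ⋖ b → b ∈ U → a ≠ b → Th ⊥ a b) → Q U)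
    (hstep : ∀ U U1 U2 : Set L, Idl U → Idl U1 → Idl U2 → Nonempty (U ≃o (U1 × U2)) →
      Q U1 → Q U2 → Q U) (m : ℕ) :
    ∀ U, Idl U → {a | ⊥ ⋖ a ∧ a ∈ U}.Finite → {a | ⊥ ⋖ a ∧ a ∈ U}.ncard = m → Q U := by
  induction m using Nat.strong_induction_on with
  | _ m ih =>
    intro U hU hfin hm
    by_cases hc : ∀ a b, (⊥ : L) ⋖ a → a ∈ U → ⊥ ⋖ b → b ∈ U → a ≠ b → Th ⊥ a b
    · exact hbase U hU hc
    · push Not at hc
      obtain ⟨a, b, ha, haU, hb, hbU, hab, hno⟩ := hc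
      have hS := th_class ha
      set S : Set L := {c | c = a ∨ Th ⊥ a c} with hSdef
      obtain ⟨h1, h2, h3⟩ := ideal_iso hF hN hS hU
      have haS : a ∈ S := Or.inl rfl
      have hbS : b ∉ S := by
        rintro (h | h)
        · exact hab h.symm
        · exact hno h
      refine hstep U _ _ hU h1 h2 h3 ?_ ?_
      · refine ih _ ?_ _ h1 (hfin.subset fun c hc => ⟨hc.1, hc.2.1⟩) rfl
        rw [← hm]
        apply Set.ncard_lt_ncard _ hfin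
        refine ⟨fun c hc => ⟨hc.1, hc.2.1⟩, fun hcon => ?_⟩
        exact hbS ((hcon ⟨hb, hbU⟩).2.2.2 b hb le_rfl)
      · refine ih _ ?_ _ h2 (hfin.subset fun c hc => ⟨hc.1, hc.2.1⟩) rfl
        rw [← hm]
        apply Set.ncard_lt_ncard _ hfin
        refine ⟨fun c hc => ⟨hc.1, hc.2.1⟩, fun hcon => ?_⟩
        exact (hcon ⟨ha, haU⟩).2.2.2 a ha le_rfl haS

end Ideals

end Pool.Agent.Helper87.ML
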