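import Pool.Agent.Helper87.ML.Uniq

set_option autoImplicit false

/-! Decomposition of finitary modular lattices with self-dual intervals into primary lattices. -/

namespace Pool.Agent.Helper87.ML

universe u v

lemma primary_of {K : Type*} [Lattice K] [IsModularLattice K] (hF : LF K) (hN : NN' K) (b : K)
    (hb : ∀ x, b ≤ x) (hC : ∀ p q, b ⋖ p → b ⋖ q → p ≠ q → Th b p q) : Primary K := by
  intro x y hxy
  by_cases h : {z | x ⋖ z ∧ z ≤ y}.ncard ≤ 1
  · left
    exact ch_of_at hF hN _ y hxy rfl h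
  · right
    obtain ⟨p, hp, q, hq, hpq⟩ := (Set.one_lt_ncard (lf_at hF x y)).1 (not_le.1 h)
    have h1 : Conn b y := fun p q hp _ hq _ hpq => hC p q hp hq hpq
    obtain ⟨w, hw, hwpq, hwp, hwq⟩ := h1.sub hF hN (hb x) hxy le_rfl p q hp.1 hp.2 hq.1 hq.2 hpq
    refine ⟨⟨p, q, w, ⟨hp.1, hq.1, hw⟩, ⟨hp.2, hq.2, hwpq.trans (sup_le hp.2 hq.2)⟩, hpq,
      hwp.symm, hwq.symm⟩, ?_⟩
    have h2 : 2 < {z | x ⋖ z ∧ z ≤ y}.ncard := by
      rw [Set.two_lt_ncard_iff (lf_at hF x y)]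
      exact ⟨p, q, w, hp, hq, ⟨hw, hwpq.trans (sup_le hp.2 hq.2)⟩, hpq, hwp.symm, hwq.symm⟩
    rw [hN x y hxy, Set.two_lt_ncard_iff (lf_co hF x y)] at h2
    obtain ⟨a, b, c, ha, hb, hc, hab, hac, hbc⟩ := h2
    exact ⟨a, b, c, ⟨ha.2, hb.2, hc.2⟩, ⟨ha.1, hb.1, hc.1⟩, hab, hac, hbc⟩

/-- nonempty finitary modular lattices with finite covers, primary, all intervals self-dual -/
structure Good' (K : Type*) [Lattice K] : Prop where
  nontriv : Nontrivial K
  mod : IsModularLattice K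
  fin : ∀ x : K, (Set.Iic x).Finite
  cov : ∀ x : K, {y | x ⋖ y}.Finite
  prim : Primary K
  sd : SD' K

/-- finite products of primary lattices -/
def IsPrim (K : Type u) [PartialOrder K] : Prop :=
  ∃ (ι : Type) (_ : Finite ι) (M : ι → Type u) (_ : ∀ i, Lattice (M i)),
    (∀ i, Good' (M i)) ∧ Nonempty (K ≃o ∀ i, M i)

lemma isPrim_prod {K K1 K2 : Type u} [PartialOrder K] [PartialOrder K1] [PartialOrder K2]
    (e : K ≃o K1 × K2) (h1 : IsPrim K1) (h2 : IsPrim K2) : IsPrim K := by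
  obtain ⟨ι1, hf1, M1, l1, hr1, ⟨e1⟩⟩ := h1
  obtain ⟨ι2, hf2, M2, l2, hr2, ⟨e2⟩⟩ := h2
  let M : ι1 ⊕ ι2 → Type u := Sum.elim M1 M2
  let l : ∀ i, Lattice (M i) := fun i => match i with
    | Sum.inl i => l1 i
    | Sum.inr i => l2 i
  refine ⟨ι1 ⊕ ι2, inferInstance, M, l, ?_, ⟨?_⟩⟩
  · rintro (i | i)
    · exact hr1 i
    · exact hr2 i
  · refine e.trans (OrderIso.trans ?_ (sumPiIso M).symm)
    exact {
      toEquiv := e1.toEquiv.prodCongr e2.toEquiv
      map_rel_iff' := by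
        rintro ⟨a, b⟩ ⟨a', b'⟩
        exact and_congr e1.le_iff_le e2.le_iff_le }

lemma isPrim_base {L : Type u} [Lattice L] [OrderBot L] [IsModularLattice L]
    (hfin : ∀ x : L, (Set.Iic x).Finite) (hfc : ∀ x : L, {y | x ⋖ y}.Finite) (hs : SD' L)
    {U : Set L} (hU : Idl U)
    (hC : ∀ a b, (⊥ : L) ⋖ a → a ∈ U → ⊥ ⋖ b → b ∈ U → a ≠ b → Th ⊥ a b) : IsPrim U := by
  let inst : Lattice U := hU.lat
  have hm : IsModularLattice U := by
    refine ⟨fun {x} y {z} hxz => ?_⟩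
    show (x.1 ⊔ y.1) ⊓ z.1 ≤ x.1 ⊔ (y.1 ⊓ z.1)
    exact IsModularLattice.sup_inf_le_assoc_of_le y.1 hxz
  have hfin' : ∀ x : U, (Set.Iic x).Finite := by
    intro x
    refine Set.Finite.of_injOn (f := Subtype.val) ?_ Subtype.val_injective.injOn (hfin x.1)
    exact fun z hz => hz
  have hcov : ∀ x y : U, x ⋖ y → x.1 ⋖ y.1 := by
    intro x y h
    refine ⟨h.lt, fun z h2 h3 => ?_⟩
    exact h.2 (c := ⟨z, hU.lower _ _ h3.le y.2⟩) h2 h3
  have hfc' : ∀ x : U, {y | x ⋖ y}.Finite := by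
    intro x
    refine Set.Finite.of_injOn (f := Subtype.val) ?_ Subtype.val_injective.injOn (hfc x.1)
    exact fun z hz => hcov x z hz
  have hs' : SD' U := by
    intro x y hxy
    obtain ⟨e⟩ := hs x.1 y.1 hxy
    exact ⟨(idlIcc hU x y).trans (e.trans (idlIcc hU x y).symm.dual)⟩
  have hprim : Primary U := by
    refine primary_of (LF.of_fin hfin') (NN_of_SD hs') ⟨⊥, hU.bot⟩ (fun x => (bot_le : ⊥ ≤ x.1)) ?_
    intro p q hp hq hpq
    obtain ⟨w, hw, hwpq, hwp, hwq⟩ := hC p.1 q.1 (hcov _ _ hp) p.2 (hcov _ _ hq) q.2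
      (fun h => hpq (Subtype.ext h))
    have hwU : w ∈ U := hU.lower _ _ hwpq (hU.sup _ _ p.2 q.2)
    refine ⟨⟨w, hwU⟩, ⟨hw.lt, fun z h2 h3 => hw.2 (c := z.1) h2 h3⟩, hwpq, ?_, ?_⟩
    · exact fun h => hwp (congrArg Subtype.val h)
    · exact fun h => hwq (congrArg Subtype.val h)
  by_cases hnt : Nontrivial U
  · refine ⟨Unit, inferInstance, fun _ => U, fun _ => inst, fun _ =>
      ⟨hnt, hm, hfin', hfc', hprim, hs'⟩, ⟨(OrderIso.funUnique Unit U).symm⟩⟩
  · have h2 : ∀ x y : U, x = y := by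
      intro x y
      by_contra hxy
      exact hnt ⟨x, y, hxy⟩
    refine ⟨Empty, inferInstance, fun i => i.elim, fun i => i.elim, fun i => i.elim, ⟨?_⟩⟩
    exact {
      toFun := fun _ i => i.elim
      invFun := fun _ => ⟨⊥, hU.bot⟩
      left_inv := fun x => h2 _ _
      right_inv := fun w => by
        funext i
        exact i.elim
      map_rel_iff' := by
        intro x y
        rw [h2 x y]
        exact ⟨fun _ => le_rfl, fun _ i => i.elim⟩ }

theorem isPrim_fwd {L : Type u} [Lattice L] [Nonempty L] (hfin : ∀ x : L, (Set.Iic x).Finite)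
    (hm : IsModularLattice L) (hfc : ∀ x : L, {y | x ⋖ y}.Finite) (hs : SD' L) : IsPrim L := by
  obtain ⟨b, hb⟩ := exists_bot hfin
  let inst : OrderBot L := { bot := b, bot_le := hb }
  have hF := LF.of_fin hfin
  have hN := NN_of_SD hs
  have h := dec_induction (L := L) hF hN (Q := fun U => IsPrim U) (by
      intro U hU hC
      exact isPrim_base hfin hfc hs hU hC) (by
      rintro U U1 U2 - - - ⟨e⟩ h1 h2
      exact isPrim_prod e h1 h2) _ Set.univ
    ⟨Set.mem_univ _, fun _ _ _ _ => Set.mem_univ _, fun _ _ _ _ => Set.mem_univ _⟩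
    ((hfc ⊥).subset fun c hc => hc.1) rfl
  obtain ⟨ι, hι, M, l, hr, ⟨e⟩⟩ := h
  exact ⟨ι, hι, M, l, hr, ⟨(OrderIso.Set.univ).symm.trans e⟩⟩

lemma adm_of_primary {K : Type*} [Lattice K] [Nontrivial K] (hfin : ∀ x : K, (Set.Iic x).Finite)
    (hP : Primary K) : ∃ b, Adm K b := by
  obtain ⟨b, hb⟩ := exists_bot hfin
  have hF := LF.of_fin hfin
  refine ⟨b, hb, ?_, ?_, ?_⟩
  · obtain ⟨x, hx⟩ := exists_ne b
    obtain ⟨a, ha, -⟩ := lf_cov hF (lt_of_le_of_ne (hb x) hx.symm)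
    exact ⟨a, ha⟩
  · intro x hx
    exact lf_cov hF (lt_of_le_of_ne (hb x) hx.symm)
  · intro p q hp hq hpq
    rcases hP b (p ⊔ q) (hb _) with h | ⟨⟨a1, a2, a3, ⟨h1, h2, h3⟩, ⟨l1, l2, l3⟩, m12, m13, m23⟩, -⟩
    · exfalso
      rcases h p q hp.le le_sup_left hq.le le_sup_right with h | h
      · rcases eq_or_lt_of_le h with h' | h'
        · exact hpq h'
        · exact hq.2 hp.lt h'
      · rcases eq_or_lt_of_le h with h' | h'
        · exact hpq h'.symm
        · exact hp.2 hq.lt h'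
    · have key : ∃ r, b ⋖ r ∧ r ≤ p ⊔ q ∧ r ≠ p ∧ r ≠ q := by
        by_cases c1 : a1 = p ∨ a1 = q
        · by_cases c2 : a2 = p ∨ a2 = q
          · refine ⟨a3, h3, l3, ?_, ?_⟩
            · rintro rfl
              rcases c1 with c1 | c1 <;> rcases c2 with c2 | c2
              · exact m13 c1
              · exact m13 c1
              · exact m23 c2
              · exact m12 (c1.trans c2.symm)
            · rintro rfl
              rcases c1 with c1 | c1 <;> rcases c2 with c2 | c2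
              · exact m12 (c1.trans c2.symm)
              · exact m23 c2
              · exact m13 c1
              · exact m13 c1
          · push Not at c2
            exact ⟨a2, h2, l2, c2.1, c2.2⟩
        · push Not at c1
          exact ⟨a1, h1, l1, c1.1, c1.2⟩
      obtain ⟨r, hr, hrl, hrp, hrq⟩ := key
      exact ⟨r, hr, hrp, hrq, fun z h1 h2 => hrl.trans (sup_le h1 h2)⟩

theorem primary_unique {ι ι' : Type} {K : ι → Type u} {K' : ι' → Type v} [∀ i, Lattice (K i)]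
    [∀ i, Lattice (K' i)]
    (hK : ∀ i, Nontrivial (K i) ∧ (∀ x : K i, (Set.Iic x).Finite) ∧ Primary (K i))
    (hK' : ∀ i, Nontrivial (K' i) ∧ (∀ x : K' i, (Set.Iic x).Finite) ∧ Primary (K' i))
    (Φ : (∀ i, K i) ≃o ∀ i, K' i) : ∃ σ : ι ≃ ι', ∀ i, Nonempty (K i ≃o K' (σ i)) := by
  have h1 : ∀ i, ∃ b, Adm (K i) b := fun i => by
    have := (hK i).1
    exact adm_of_primary (hK i).2.1 (hK i).2.2
  have h2 : ∀ i, ∃ b, Adm (K' i) b := fun i => by
    have := (hK' i).1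
    exact adm_of_primary (hK' i).2.1 (hK' i).2.2
  choose b hb using h1
  choose b' hb' using h2
  exact prod_unique hb hb' Φ

end Pool.Agent.Helper87.ML
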