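import Pool.Agent.Helper87.ML.PlaneFree

set_option autoImplicit false

/-! Classification of the plane-free lattices. -/

namespace Pool.Agent.Helper87.ML

open TreePt

section Base

variable {L : Type*} [Lattice L] [OrderBot L] [IsModularLattice L]

/-- the lattice structure on an ideal -/
abbrev Idl.lat {U : Set L} (hU : Idl U) : Lattice U :=
  Subtype.lattice (P := fun x => x ∈ U) (fun x y hx hy => hU.sup x y hx hy)
    (fun _ _ hx _ => hU.lower _ _ inf_le_left hx)

/-- the interval of an ideal -/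
def idlIcc {U : Set L} (hU : Idl U) (x y : U) : Set.Icc x y ≃o Set.Icc x.1 y.1 where
  toFun z := ⟨z.1.1, z.2.1, z.2.2⟩
  invFun z := ⟨⟨z.1, hU.lower _ _ z.2.2 y.2⟩, z.2.1, z.2.2⟩
  left_inv _ := rfl
  right_inv _ := rfl
  map_rel_iff' := Iff.rfl

lemma base_case (hfin : ∀ x : L, (Set.Iic x).Finite) (hpf : PlaneFree L) (hs : SD' L) {U : Set L}
    (hU : Idl U)
    (hC : ∀ a b, (⊥ : L) ⋖ a → a ∈ U → ⊥ ⋖ b → b ∈ U → a ≠ b → Th ⊥ a b) :
    ∃ (n : ℕ) (hn : 2 ≤ n) (d c : ℕ∞), Nonempty (U ≃o Model hn d c) := by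
  have hF := LF.of_fin hfin
  have hN := NN_of_SD hs
  let inst : Lattice U := hU.lat
  have hne : Nonempty U := ⟨⟨⊥, hU.bot⟩⟩
  have hm : IsModularLattice U := by
    refine ⟨fun {x} y {z} hxz => ?_⟩
    show (x.1 ⊔ y.1) ⊓ z.1 ≤ x.1 ⊔ (y.1 ⊓ z.1)
    exact IsModularLattice.sup_inf_le_assoc_of_le y.1 hxz
  have hfin' : ∀ x : U, (Set.Iic x).Finite := by
    intro x
    refine Set.Finite.of_injOn (f := Subtype.val) ?_ Subtype.val_injective.injOn (hfin x.1)
    exact fun z hz => hz
  have hs' : SD' U := by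
    intro x y hxy
    obtain ⟨e⟩ := hs x.1 y.1 hxy
    exact ⟨(idlIcc hU x y).trans (e.trans (idlIcc hU x y).symm.dual)⟩
  have hb : Breadth2 U := by
    have hd : Breadth2 (↥U)ᵒᵈ := by
      intro x y z
      have key : ∀ x y z : L, x ∈ U → y ∈ U → z ∈ U →
          x ⊓ y ⊓ z = x ⊓ y ∨ x ⊓ y ⊓ z = x ⊓ z ∨ x ⊓ y ⊓ z = y ⊓ z := by
        intro x y z hx hy hz
        by_contra hcon
        push Not at hcon
        obtain ⟨c1, c2, c3⟩ := hcon
        set o := x ⊓ y ⊓ z with ho
        have hox : o ≤ x := inf_le_left.trans inf_le_left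
        have hoy : o ≤ y := inf_le_left.trans inf_le_right
        have hoz : o ≤ z := inf_le_right
        obtain ⟨p, hp, hpxy⟩ := lf_cov hF (lt_of_le_of_ne (le_inf hox hoy) c1)
        obtain ⟨q, hq, hqyz⟩ := lf_cov hF (lt_of_le_of_ne (le_inf hoy hoz) c3)
        obtain ⟨r, hr, hrxz⟩ := lf_cov hF (lt_of_le_of_ne (le_inf hox hoz) c2)
        have hno : ∀ s, o ⋖ s → s ≤ x → s ≤ y → s ≤ z → False := fun s hs hx hy hz =>
          absurd hs.lt (not_lt_of_ge (le_inf (le_inf hx hy) hz))
        have hpq : p ≠ q := by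
          rintro rfl
          exact hno p hp (hpxy.trans inf_le_left) (hpxy.trans inf_le_right)
            (hqyz.trans inf_le_right)
        have hr' : ¬ r ≤ p ⊔ q := by
          intro h
          exact hno r hr (hrxz.trans inf_le_left)
            (h.trans (sup_le (hpxy.trans inf_le_right) (hqyz.trans inf_le_left)))
            (hrxz.trans inf_le_right)
        have ht : p ⊔ q ⊔ r ∈ U := by
          apply hU.sup
          · apply hU.sup
            · exact hU.lower _ _ (hpxy.trans inf_le_left) hx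
            · exact hU.lower _ _ (hqyz.trans inf_le_left) hy
          · exact hU.lower _ _ (hrxz.trans inf_le_left) hx
        have hconn : Conn (⊥ : L) (p ⊔ q ⊔ r) := fun a b ha hat hb hbt hab =>
          hC a b ha (hU.lower _ _ hat ht) hb (hU.lower _ _ hbt ht) hab
        refine hpf o (p ⊔ q ⊔ r) (hp.le.trans (le_sup_left.trans le_sup_left)) ?_
        exact isPlane_of hF hp hq hr hpq hr' (hconn.sub hF hN bot_le
          (hp.le.trans (le_sup_left.trans le_sup_left)) le_rfl)
      rcases key x.1 y.1 z.1 x.2 y.2 z.2 with h | h | h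
      · left; exact Subtype.ext h
      · right; left; exact Subtype.ext h
      · right; right; exact Subtype.ext h
    exact hd.dual
  obtain ⟨n, hn, d, c, ⟨e⟩⟩ := classify_fwd hfin' hm hb hs'
  exact ⟨n, hn, d, c, ⟨e⟩⟩

end Base

section Products

/-- finite products of models -/
def IsProd (K : Type*) [PartialOrder K] : Prop :=
  ∃ (ι : Type) (_ : Finite ι) (n : ι → ℕ) (hn : ∀ i, 2 ≤ n i) (d c : ι → ℕ∞),
    Nonempty (K ≃o ∀ i, Model (hn i) (d i) (c i))

/-- products over a sum type -/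
def sumPiIso {ι ι' : Type*} (M : ι ⊕ ι' → Type*) [∀ i, PartialOrder (M i)] :
    (∀ i, M i) ≃o (∀ i, M (Sum.inl i)) × ∀ i, M (Sum.inr i) where
  toEquiv := Equiv.sumPiEquivProdPi M
  map_rel_iff' {f g} := by
    constructor
    · rintro ⟨h1, h2⟩ (i | i)
      · exact h1 i
      · exact h2 i
    · intro h
      exact ⟨fun i => h _, fun i => h _⟩

lemma isProd_prod {K K1 K2 : Type*} [PartialOrder K] [PartialOrder K1] [PartialOrder K2]
    (e : K ≃o K1 × K2) (h1 : IsProd K1) (h2 : IsProd K2) : IsProd K := by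
  obtain ⟨ι1, hf1, n1, hn1, d1, c1, ⟨e1⟩⟩ := h1
  obtain ⟨ι2, hf2, n2, hn2, d2, c2, ⟨e2⟩⟩ := h2
  refine ⟨ι1 ⊕ ι2, inferInstance, Sum.elim n1 n2, ?_, Sum.elim d1 d2, Sum.elim c1 c2, ⟨?_⟩⟩
  · rintro (i | i)
    · exact hn1 i
    · exact hn2 i
  · refine e.trans (OrderIso.trans ?_ (sumPiIso _).symm)
    exact {
      toEquiv := e1.toEquiv.prodCongr e2.toEquiv
      map_rel_iff' := by
        rintro ⟨a, b⟩ ⟨a', b'⟩
        exact and_congr e1.le_iff_le e2.le_iff_le }

lemma isProd_model {K : Type*} [PartialOrder K] {n : ℕ} (hn : 2 ≤ n) (d c : ℕ∞)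
    (e : K ≃o Model hn d c) : IsProd K :=
  ⟨Unit, inferInstance, fun _ => n, fun _ => hn, fun _ => d, fun _ => c,
    ⟨e.trans (OrderIso.funUnique Unit (Model hn d c)).symm⟩⟩

theorem planeFree_fwd {L : Type*} [Lattice L] [Nonempty L] (hfin : ∀ x : L, (Set.Iic x).Finite)
    (hm : IsModularLattice L) (hfc : ∀ x : L, {y | x ⋖ y}.Finite) (hpf : PlaneFree L)
    (hs : SD' L) : IsProd L := by
  obtain ⟨b, hb⟩ := exists_bot hfin
  let inst : OrderBot L := { bot := b, bot_le := hb }
  have hF := LF.of_fin hfin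
  have hN := NN_of_SD hs
  have h := dec_induction (L := L) hF hN (Q := fun U => IsProd U) (by
      intro U hU hC
      obtain ⟨n, hn, d, c, ⟨e⟩⟩ := base_case hfin hpf hs hU hC
      exact isProd_model hn d c e) (by
      rintro U U1 U2 - - - ⟨e⟩ h1 h2
      exact isProd_prod e h1 h2) _ Set.univ
    ⟨Set.mem_univ _, fun _ _ _ _ => Set.mem_univ _, fun _ _ _ _ => Set.mem_univ _⟩
    ((hfc ⊥).subset fun c hc => hc.1) rfl
  obtain ⟨ι, hι, n, hn, d, c, ⟨e⟩⟩ := h
  exact ⟨ι, hι, n, hn, d, c, ⟨(OrderIso.Set.univ).symm.trans e⟩⟩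

end Products

/-- covers in a model lattice -/
lemma model_cov_up {n : ℕ} (hn : 2 ≤ n) {d c : ℕ∞} {x y : Model hn d c} (h : x ⋖ y) :
    ∃ i, y.1 = up i x.1 := by
  obtain ⟨i, hi⟩ := exists_up_le (by omega) (show x.1 < y.1 from h.lt)
  refine ⟨i, ?_⟩
  have hmem : up i x.1 ∈ Model hn d c :=
    (model_ordConnected hn d c).out x.2 y.2 ⟨(lt_up i x.1).le, hi⟩
  rcases eq_or_lt_of_le hi with h1 | h1
  · exact h1.symm
  · exact absurd (show (⟨up i x.1, hmem⟩ : Model hn d c) < y from h1)
      (h.2 (c := ⟨up i x.1, hmem⟩) (lt_up i x.1))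

section Converse

variable {ι : Type} [Finite ι] {n : ι → ℕ} {hn : ∀ i, 2 ≤ n i} {d c : ι → ℕ∞} {L : Type*}
  [Lattice L] (φ : L ≃o ∀ i, Model (hn i) (d i) (c i))

include φ

omit [Finite ι] in
open Classical in
lemma pi_sup_spec (x y : L) (i : ι) (z : TreePt (n i)) (hx : (φ x i).1 ≤ z)
    (hy : (φ y i).1 ≤ z) : (φ (x ⊔ y) i).1 ≤ z := by
  obtain ⟨j, h1, h2, h3, -⟩ := exists_join _ (φ x i).1 (φ y i).1 rfl
  have hxs : φ x ≤ φ (x ⊔ y) := φ.monotone le_sup_left
  have hys : φ y ≤ φ (x ⊔ y) := φ.monotone le_sup_right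
  have h4 : j ≤ (φ (x ⊔ y) i).1 := h3 _ (hxs i) (hys i)
  have hj : j ∈ Model (hn i) (d i) (c i) :=
    (model_ordConnected (hn i) (d i) (c i)).out (φ x i).2 (φ (x ⊔ y) i).2 ⟨h1, h4⟩
  have h5 : x ⊔ y ≤ φ.symm (Function.update (φ (x ⊔ y)) i ⟨j, hj⟩) := by
    apply sup_le
    · rw [φ.le_symm_apply]
      intro k
      by_cases hk : k = i
      · subst hk
        rw [Function.update_self]
        exact h1
      · rw [Function.update_of_ne hk]
        exact hxs k
    · rw [φ.le_symm_apply]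
      intro k
      by_cases hk : k = i
      · subst hk
        rw [Function.update_self]
        exact h2
      · rw [Function.update_of_ne hk]
        exact hys k
  rw [φ.le_symm_apply] at h5
  have h6 := h5 i
  rw [Function.update_self] at h6
  exact (show (φ (x ⊔ y) i).1 ≤ j from h6).trans (h3 z hx hy)

omit [Finite ι] in
open Classical in
lemma pi_inf_spec (x y : L) (i : ι) (z : TreePt (n i)) (hx : z ≤ (φ x i).1)
    (hy : z ≤ (φ y i).1) : z ≤ (φ (x ⊓ y) i).1 := by
  obtain ⟨j, h1, h2, h3, -⟩ := exists_meet (φ x i).1 (φ y i).1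
  have hxs : φ (x ⊓ y) ≤ φ x := φ.monotone inf_le_left
  have hys : φ (x ⊓ y) ≤ φ y := φ.monotone inf_le_right
  have h4 : (φ (x ⊓ y) i).1 ≤ j := h3 _ (hxs i) (hys i)
  have hj : j ∈ Model (hn i) (d i) (c i) :=
    (model_ordConnected (hn i) (d i) (c i)).out (φ (x ⊓ y) i).2 (φ x i).2 ⟨h4, h1⟩
  have h5 : φ.symm (Function.update (φ (x ⊓ y)) i ⟨j, hj⟩) ≤ x ⊓ y := by
    apply le_inf
    · rw [φ.symm_apply_le]
      intro k
      by_cases hk : k = i
      · subst hk
        rw [Function.update_self]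
        exact h1
      · rw [Function.update_of_ne hk]
        exact hxs k
    · rw [φ.symm_apply_le]
      intro k
      by_cases hk : k = i
      · subst hk
        rw [Function.update_self]
        exact h2
      · rw [Function.update_of_ne hk]
        exact hys k
  rw [φ.symm_apply_le] at h5
  have h6 := h5 i
  rw [Function.update_self] at h6
  exact (h3 z hx hy).trans (show j ≤ (φ (x ⊓ y) i).1 from h6)

lemma pi_modular : IsModularLattice L := by
  have := Fintype.ofFinite ι
  apply modular_of_rank (fun x => ∑ i, (φ x i).1.h)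
  · intro x y hxy
    have h1 := Pi.lt_def.1 (φ.strictMono hxy)
    obtain ⟨h2, i, hi⟩ := h1
    exact Finset.sum_lt_sum (fun k _ => h_mono (h2 k)) ⟨i, Finset.mem_univ i, h_lt hi⟩
  · intro x y
    rw [← Finset.sum_add_distrib, ← Finset.sum_add_distrib]
    apply Finset.sum_congr rfl
    intro i _
    have hxs : φ x ≤ φ (x ⊔ y) := φ.monotone le_sup_left
    have hys : φ y ≤ φ (x ⊔ y) := φ.monotone le_sup_right
    have hxi : φ (x ⊓ y) ≤ φ x := φ.monotone inf_le_left
    have hyi : φ (x ⊓ y) ≤ φ y := φ.monotone inf_le_right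
    exact rank_eq (hxs i) (hys i) (pi_sup_spec φ x y i) (hxi i) (hyi i) (pi_inf_spec φ x y i)

omit [Finite ι] in
/-- intervals of a product -/
lemma pi_icc (x y : L) :
    Nonempty (Set.Icc x y ≃o ∀ i, Set.Icc (φ x i).1 (φ y i).1) := by
  have hmem : ∀ (w : ∀ i, Set.Icc (φ x i).1 (φ y i).1) (i : ι),
      (w i).1 ∈ Model (hn i) (d i) (c i) := fun w i =>
    (model_ordConnected (hn i) (d i) (c i)).out (φ x i).2 (φ y i).2 (w i).2
  refine ⟨{
    toFun := fun z i => ⟨(φ z.1 i).1, φ.monotone z.2.1 i, φ.monotone z.2.2 i⟩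
    invFun := fun w => ⟨φ.symm fun i => ⟨(w i).1, hmem w i⟩, ?_, ?_⟩
    left_inv := fun z => ?_
    right_inv := fun w => ?_
    map_rel_iff' := ?_ }⟩
  · rw [φ.le_symm_apply]
    intro i
    exact (w i).2.1
  · rw [φ.symm_apply_le]
    intro i
    exact (w i).2.2
  · apply Subtype.ext
    show φ.symm (fun i => ⟨(φ z.1 i).1, _⟩) = z.1
    rw [φ.symm_apply_eq]
  · funext i
    apply Subtype.ext
    show (φ (φ.symm fun i => ⟨(w i).1, hmem w i⟩) i).1 = (w i).1
    rw [φ.apply_symm_apply]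
  · intro z w
    show (∀ i, (φ z.1 i).1 ≤ (φ w.1 i).1) ↔ z.1 ≤ w.1
    rw [← φ.le_iff_le]
    rfl

omit [Finite ι] in
lemma pi_sd : SD' L := by
  intro x y hxy
  obtain ⟨e⟩ := pi_icc φ x y
  have h : ∀ i, Nonempty (Set.Icc (φ x i).1 (φ y i).1 ≃o (Set.Icc (φ x i).1 (φ y i).1)ᵒᵈ) :=
    fun i => sd_tree (hn i) (φ.monotone hxy i)
  let f := fun i => (h i).some
  let g : (∀ i, Set.Icc (φ x i).1 (φ y i).1) ≃o (∀ i, Set.Icc (φ x i).1 (φ y i).1)ᵒᵈ := {
    toFun := fun w => OrderDual.toDual fun i => OrderDual.ofDual (f i (w i))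
    invFun := fun w => fun i => (f i).symm (OrderDual.toDual ((OrderDual.ofDual w) i))
    left_inv := fun w => by
      funext i
      simp
    right_inv := fun w => by
      apply OrderDual.ofDual.injective
      funext i
      simp
    map_rel_iff' := by
      intro w w'
      constructor
      · intro h i
        exact (f i).le_iff_le.1 (h i)
      · intro h i
        exact (f i).le_iff_le.2 (h i) }
  exact ⟨e.trans (g.trans e.symm.dual)⟩

open Classical in
lemma pi_covers (x : L) : {y | x ⋖ y}.Finite := by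
  have h1 : {y | x ⋖ y} ⊆ ⋃ i, (fun w => φ.symm (Function.update (φ x) i w)) '' {w | φ x i ⋖ w} := by
    intro y hy
    have h2 : φ x ⋖ φ y := (apply_covBy_apply_iff φ).2 hy
    obtain ⟨i, w, hw, hyw⟩ := Pi.covBy_iff_exists_right_eq.1 h2
    rw [Set.mem_iUnion]
    refine ⟨i, w, hw, ?_⟩
    show φ.symm (Function.update (φ x) i w) = y
    rw [← hyw, φ.symm_apply_apply]
  refine Set.Finite.subset (Set.finite_iUnion fun i => ?_) h1
  exact (((model_lattice (hn i) (d i) (c i)).2 (φ x i)).2).image _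

omit [Finite ι] in
open Classical in
lemma pi_planeFree : PlaneFree L := by
  intro x y hxy hP
  obtain ⟨hall, hpl, -, hthree, p, q, r, ⟨hp, hq, hr⟩, ⟨hpy, hqy, hry⟩, ⟨hpq, hpr, hqr⟩, hno⟩ := hP
  have hcov : ∀ p, x ⋖ p → ∃ i w, φ x i ⋖ w ∧ φ p = Function.update (φ x) i w := fun p hp =>
    Pi.covBy_iff_exists_right_eq.1 ((apply_covBy_apply_iff φ).2 hp)
  -- two points are on the same coordinate
  have hsame : ∀ a b, x ⋖ a → a ≤ y → x ⋖ b → b ≤ y → a ≠ b →
      ∀ i u j w, φ x i ⋖ u → φ a = Function.update (φ x) i u → φ x j ⋖ w →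
      φ b = Function.update (φ x) j w → i = j := by
    intro a b ha hay hb hby hab i u j w hu hau hw hbw
    by_contra hij
    obtain ⟨l, ⟨⟨hxl, hly⟩, hal, hbl⟩, -⟩ := hpl a b ha hay hb hby hab
    have hlt : a < a ⊔ b := lt_of_le_of_ne le_sup_left (by
      intro h
      have h1 : b ≤ a := h ▸ le_sup_right
      rcases eq_or_lt_of_le h1 with h2 | h2
      · exact hab h2.symm
      · exact ha.2 hb.lt h2)
    have hl : a ⊔ b = l := by
      rcases hall (a ⊔ b) (ha.le.trans le_sup_left) (sup_le hay hby) with h | h | h | h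
      · exact absurd (ha.lt.trans hlt) (by rw [h]; exact lt_irrefl _)
      · exact absurd hlt (h.2 ha.lt)
      · rcases eq_or_lt_of_le (sup_le hal hbl) with h' | h'
        · exact h'
        · exact absurd hly.lt (h.2 h')
      · exact absurd (lt_of_le_of_lt (sup_le hal hbl) hly.lt) (by rw [h]; exact lt_irrefl _)
    obtain ⟨s1, s2, s3, ⟨k1, k2, k3⟩, ⟨l1, l2, l3⟩, m12, m13, m23⟩ := hthree l hxl hly
    -- a third point `s`
    have key : ∀ s, x ⋖ s → s ≤ l → s = a ∨ s = b := by
      intro s hs hsl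
      obtain ⟨k, v, hv, hsv⟩ := hcov s hs
      have hle : φ s ≤ φ (a ⊔ b) := φ.monotone (hl ▸ hsl)
      have hk := hle k
      rw [hsv, Function.update_self] at hk
      by_cases hki : k = i
      · left
        subst hki
        have h1 : (φ (a ⊔ b) k).1 ≤ u.1 := pi_sup_spec φ a b k _ (by
          rw [hau, Function.update_self]) (by
          rw [hbw, Function.update_of_ne hij]; exact hu.le)
        have h2 : v ≤ u := (show v.1 ≤ u.1 from (show v.1 ≤ (φ (a ⊔ b) k).1 from hk).trans h1)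
        have h3 : v = u := by
          rcases eq_or_lt_of_le h2 with h | h
          · exact h
          · exact absurd h (hu.2 hv.lt)
        apply φ.injective
        rw [hsv, hau, h3]
      · by_cases hkj : k = j
        · right
          subst hkj
          have h1 : (φ (a ⊔ b) k).1 ≤ w.1 := pi_sup_spec φ a b k _ (by
            rw [hau, Function.update_of_ne (Ne.symm hij)]; exact hw.le) (by
            rw [hbw, Function.update_self])
          have h2 : v ≤ w := (show v.1 ≤ w.1 from (show v.1 ≤ (φ (a ⊔ b) k).1 from hk).trans h1)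
          have h3 : v = w := by
            rcases eq_or_lt_of_le h2 with h | h
            · exact h
            · exact absurd h (hw.2 hv.lt)
          apply φ.injective
          rw [hsv, hbw, h3]
        · exfalso
          have h1 : (φ (a ⊔ b) k).1 ≤ (φ x k).1 := pi_sup_spec φ a b k _ (by
            rw [hau, Function.update_of_ne hki]) (by
            rw [hbw, Function.update_of_ne hkj])
          have h2 : v ≤ φ x k := (show v.1 ≤ (φ x k).1 from
            (show v.1 ≤ (φ (a ⊔ b) k).1 from hk).trans h1)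
          exact absurd hv.lt (not_lt_of_ge h2)
    rcases key s1 k1 l1 with rfl | rfl <;> rcases key s2 k2 l2 with rfl | rfl <;>
      rcases key s3 k3 l3 with rfl | rfl <;> first | exact m12 rfl | exact m13 rfl | exact m23 rfl
  obtain ⟨i, u, hu, hpu⟩ := hcov p hp
  obtain ⟨j, w, hw, hqw⟩ := hcov q hq
  obtain ⟨k, v, hv, hrv⟩ := hcov r hr
  have hij : i = j := hsame p q hp hpy hq hqy hpq i u j w hu hpu hw hqw
  have hik : i = k := hsame p r hp hpy hr hry hpr i u k v hu hpu hv hrv
  subst hij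
  subst hik
  obtain ⟨a, ha⟩ := model_cov_up (hn i) hu
  obtain ⟨b, hb⟩ := model_cov_up (hn i) hw
  obtain ⟨e, he⟩ := model_cov_up (hn i) hv
  have hab : a ≠ b := by
    rintro rfl
    apply hpq
    apply φ.injective
    rw [hpu, hqw, Subtype.ext (ha.trans hb.symm)]
  have hrpq : r ≤ p ⊔ q := by
    rw [← φ.le_iff_le]
    intro m
    have hxs : φ x ≤ φ (p ⊔ q) := φ.monotone (hp.le.trans le_sup_left)
    by_cases hm : m = i
    · subst hm
      rw [hrv, Function.update_self]
      show v.1 ≤ (φ (p ⊔ q) m).1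
      rw [he]
      refine (up_le_up2 e _).trans (up2_le_of hab ?_ ?_)
      · rw [← ha]
        have h1 : φ p m ≤ φ (p ⊔ q) m := φ.monotone (le_sup_left : p ≤ p ⊔ q) m
        rw [hpu, Function.update_self] at h1
        exact h1
      · rw [← hb]
        have h1 : φ q m ≤ φ (p ⊔ q) m := φ.monotone (le_sup_right : q ≤ p ⊔ q) m
        rw [hqw, Function.update_self] at h1
        exact h1
    · rw [hrv, Function.update_of_ne hm]
      exact hxs m
  obtain ⟨l, ⟨⟨hxl, hly⟩, hpl', hql⟩, -⟩ := hpl p q hp hpy hq hqy hpq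
  exact hno l hxl hly ⟨hpl', hql, hrpq.trans (sup_le hpl' hql)⟩

end Converse

/-- the classification of the plane-free lattices -/
theorem planeFree_iff {L : Type*} [Lattice L] [Nonempty L] (hfin : ∀ x : L, (Set.Iic x).Finite) :
    (IsModularLattice L ∧ (∀ x : L, {y | x ⋖ y}.Finite) ∧ PlaneFree L ∧ SD' L) ↔ IsProd L := by
  constructor
  · rintro ⟨hm, hfc, hpf, hs⟩
    exact planeFree_fwd hfin hm hfc hpf hs
  · rintro ⟨ι, hι, n, hn, d, c, ⟨φ⟩⟩
    exact ⟨pi_modular φ, pi_covers φ, pi_planeFree φ, pi_sd φ⟩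

/-- the finite case -/
theorem planeFree_finite_iff {L : Type*} [Lattice L] [Nonempty L] [Finite L] :
    (IsModularLattice L ∧ PlaneFree L ∧ SD' L) ↔
      ∃ (ι : Type) (_ : Finite ι) (n : ι → ℕ) (hn : ∀ i, 2 ≤ n i) (d c : ι → ℕ),
        Nonempty (L ≃o ∀ i, Set.Icc o (pt (hn i) (d i) (c i))) := by
  have hfin : ∀ x : L, (Set.Iic x).Finite := fun x => Set.toFinite _
  constructor
  · rintro ⟨hm, hpf, hs⟩
    obtain ⟨ι, hι, n, hn, d, c, ⟨φ⟩⟩ := planeFree_fwd hfin hm (fun x => Set.toFinite _) hpf hs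
    have hfinite : ∀ i, Finite (Model (hn i) (d i) (c i)) := by
      classical
      intro i
      have hf : Finite (∀ i, Model (hn i) (d i) (c i)) := Finite.of_equiv L φ.toEquiv
      let z : ∀ k, Model (hn k) (d k) (c k) := fun k => ⟨o, model_o_mem (hn k) (d k) (c k)⟩
      have hinj : Function.Injective (fun w : Model (hn i) (d i) (c i) =>
          Function.update z i w) := by
        intro w w' h
        have h1 := congrFun h i
        simpa using h1
      exact Finite.of_injective _ hinj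
    have hd : ∀ i, d i ≠ ⊤ ∧ c i ≠ ⊤ := fun i =>
      (model_finite (hn i) (d i) (c i)).1 (hfinite i)
    refine ⟨ι, hι, n, hn, fun i => (d i).toNat, fun i => (c i).toNat, ⟨φ.trans ?_⟩⟩
    have hset : ∀ i, Model (hn i) (d i) (c i) = Set.Icc o (pt (hn i) (d i).toNat (c i).toNat) := by
      intro i
      rw [← model_coe, ENat.natCast_toNat (hd i).1, ENat.natCast_toNat (hd i).2]
    exact {
      toEquiv := Equiv.piCongrRight fun i => Equiv.setCongr (hset i)
      map_rel_iff' := Iff.rfl }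
  · rintro ⟨ι, hι, n, hn, d, c, ⟨φ⟩⟩
    have hset : ∀ i, Set.Icc o (pt (hn i) (d i) (c i)) = Model (hn i) (d i : ℕ∞) (c i : ℕ∞) := by
      intro i
      rw [model_coe]
    let e : (∀ i, Set.Icc o (pt (hn i) (d i) (c i))) ≃o
        ∀ i, Model (hn i) (d i : ℕ∞) (c i : ℕ∞) := {
      toEquiv := Equiv.piCongrRight fun i => Equiv.setCongr (hset i)
      map_rel_iff' := Iff.rfl }
    exact ⟨pi_modular (φ.trans e), pi_planeFree (φ.trans e), pi_sd (φ.trans e)⟩

end Pool.Agent.Helper87.ML
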