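import Pool.Agent.Helper87.ML.Dec

set_option autoImplicit false

/-! Splitting. -/

namespace Pool.Agent.Helper87.ML

section

variable {L : Type*} [Lattice L]

/-- the elements above `o` all of whose atoms (over `o`) lie in `S` -/
def US (o : L) (S : Set L) : Set L := {x | o ≤ x ∧ ∀ c, o ⋖ c → c ≤ x → c ∈ S}

lemma US_mono {o x y : L} {S : Set L} (h : y ∈ US o S) (hox : o ≤ x) (hxy : x ≤ y) : x ∈ US o S :=
  ⟨hox, fun c hc hcx => h.2 c hc (hcx.trans hxy)⟩

lemma US_base (o : L) (S : Set L) : o ∈ US o S :=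
  ⟨le_rfl, fun _ hc hco => absurd hc.lt (not_lt_of_ge hco)⟩

lemma US_inf (hF : LF L) {o x y : L} {S : Set L} (hx : x ∈ US o S) (hy : y ∈ US o Sᶜ) :
    x ⊓ y = o := by
  rcases eq_or_lt_of_le (le_inf hx.1 hy.1) with h | h
  · exact h.symm
  · obtain ⟨c, hc, hcxy⟩ := lf_cov hF h
    exact absurd (hx.2 c hc (hcxy.trans inf_le_left)) (hy.2 c hc (hcxy.trans inf_le_right))

variable [IsModularLattice L]

lemma US_sup (hF : LF L) (hN : NN' L) {o : L} {S : Set L}
    (hS : ∀ c c', o ⋖ c → o ⋖ c' → c ∈ S → Th o c c' → c' ∈ S) (m : ℕ) :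
    ∀ x y, x ∈ US o S → y ∈ US o S → (Set.Icc o y).ncard = m → x ⊔ y ∈ US o S := by
  induction m using Nat.strong_induction_on with
  | _ m ih =>
    intro x y hx hy hm
    refine ⟨hx.1.trans le_sup_left, fun b hob hb => ?_⟩
    by_cases hyx : y ≤ x
    · rw [sup_eq_left.2 hyx] at hb
      exact hx.2 b hob hb
    have hoy : o < y := lt_of_le_of_ne hy.1 (fun h => hyx (h ▸ hx.1))
    obtain ⟨y', hoy', hy'y⟩ := lf_cov' hF hoy
    have hy'US : y' ∈ US o S := US_mono hy hoy' hy'y.le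
    set x' := x ⊔ y' with hx'
    have hx'US : x' ∈ US o S :=
      ih _ (by rw [← hm]; exact icc_lt hF hy.1 hy'y.lt) x y' hx hy'US rfl
    have hxy' : x' ⊔ y = x ⊔ y := by rw [hx', sup_assoc, sup_eq_right.2 hy'y.le]
    by_contra hbS
    have hbx' : ¬ b ≤ x' := fun h => hbS (hx'US.2 b hob h)
    have hyx' : ¬ y ≤ x' := by
      intro h
      rw [← hxy', sup_eq_left.2 h] at hb
      exact hbx' hb
    have hcov : x' ⋖ x' ⊔ y := cov_sup hy'y le_sup_right hyx'
    -- a minimal element below `y` and not below `x'`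
    have hfin : {z | (o ≤ z ∧ z ≤ y) ∧ ¬ z ≤ x'}.Finite := (hF o y).subset fun z hz => hz.1
    obtain ⟨w, hw⟩ := hfin.exists_minimal ⟨y, ⟨hoy.le, le_rfl⟩, hyx'⟩
    obtain ⟨⟨how, hwy⟩, hwx'⟩ := hw.1
    have hmin : ∀ z, o ≤ z → z < w → z ≤ x' := by
      intro z hoz hzw
      by_contra hcon
      exact absurd (hw.2 ⟨⟨hoz, hzw.le.trans hwy⟩, hcon⟩ hzw.le) (not_le_of_gt hzw)
    have hwUS : w ∈ US o S := US_mono hy how hwy
    have how' : o < w := lt_of_le_of_ne how (fun h => hwx' (h ▸ hx'US.1))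
    have hch : Ch o w := by
      apply ch_of_co hF hN how
      rw [Set.ncard_le_one (lf_co hF o w)]
      intro z1 hz1 z2 hz2
      by_contra hne
      apply hwx'
      have h1 := hmin z1 hz1.1 hz1.2.lt
      have h2 := hmin z2 hz2.1 hz2.2.lt
      have h3 : ¬ z2 ≤ z1 := by
        intro h
        rcases eq_or_lt_of_le h with h | h
        · exact hne h.symm
        · exact hz2.2.2 h hz1.2.lt
      rw [← eq_sup_cov hz1.2 hz2.2.le h3]
      exact sup_le h1 h2
    obtain ⟨z, hoz, hzw⟩ := lf_cov' hF how'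
    have hzx' := hmin z hoz hzw.lt
    obtain ⟨a, hoa, haw⟩ := lf_cov hF how'
    have hbw : ¬ b ≤ w := fun h => hbS (hwUS.2 b hob h)
    have hwb : w ⋖ w ⊔ b := cov_sup hob how hbw
    have hwble : w ⊔ b ≤ x' ⊔ y := sup_le (hwy.trans le_sup_right) (by rw [hxy']; exact hb)
    have hv : x' ⊓ (w ⊔ b) ⋖ w ⊔ b := inf_cov hcov hwble (fun h => hwx' (le_sup_left.trans h))
    set v := x' ⊓ (w ⊔ b) with hvdef
    have hzv : z ≤ v := le_inf hzx' (hzw.le.trans le_sup_left)
    have hwv : ¬ w ≤ v := fun h => hwx' (h.trans inf_le_left)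
    have hvw : ¬ v ≤ w := by
      intro h
      rcases eq_or_lt_of_le h with h | h
      · exact hwv h.ge
      · exact hv.2 h hwb.lt
    have hzcov : z ⋖ v := by
      have h1 : w ⊓ v ⋖ v := inf_cov hwb hv.le hvw
      have h2 : w ⊓ v = z := by
        rcases eq_or_lt_of_le (le_inf hzw.le hzv) with h | h
        · exact h.symm
        · exfalso
          have h3 : w ⊓ v < w := lt_of_le_of_ne inf_le_left
            (fun h' => hwv (inf_eq_left.1 h'))
          exact hzw.2 h h3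
      rwa [h2] at h1
    have hTh : Th o a b := third_of_chain hF hN _ rfl hoa haw hch hob hbw hoz hzw hzcov
      inf_le_right (fun h => hwv h.ge) (fun h => hbx' (by
        have : b ≤ v := by rw [h]; exact le_sup_right
        exact this.trans inf_le_left))
    exact hbS (hS a b hoa hob (hwUS.2 a hoa haw) hTh)

lemma US_sup' (hF : LF L) (hN : NN' L) {o : L} {S : Set L}
    (hS : ∀ c c', o ⋖ c → o ⋖ c' → c ∈ S → Th o c c' → c' ∈ S) {x y : L} (hx : x ∈ US o S)
    (hy : y ∈ US o S) : x ⊔ y ∈ US o S := US_sup hF hN hS _ x y hx hy rfl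

omit [IsModularLattice L] in
lemma compl_closed {o : L} {S : Set L}
    (hS : ∀ c c', o ⋖ c → o ⋖ c' → c ∈ S → Th o c c' → c' ∈ S) :
    ∀ c c', o ⋖ c → o ⋖ c' → c ∈ Sᶜ → Th o c c' → c' ∈ Sᶜ :=
  fun c c' hc hc' h hTh h' => h (hS c' c hc' hc h' hTh.symm)

/-- decomposition of elements -/
lemma US_decomp (hF : LF L) (hN : NN' L) {o : L} {S : Set L}
    (hS : ∀ c c', o ⋖ c → o ⋖ c' → c ∈ S → Th o c c' → c' ∈ S) (m : ℕ) :
    ∀ x, o ≤ x → (Set.Icc o x).ncard = m → ∃ u ∈ US o S, ∃ v ∈ US o Sᶜ, u ⊔ v = x := by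
  induction m using Nat.strong_induction_on with
  | _ m ih =>
    intro x hox hm
    rcases eq_or_lt_of_le hox with rfl | hlt
    · exact ⟨o, US_base o S, o, US_base o Sᶜ, sup_idem o⟩
    by_cases hc : {z | o ≤ z ∧ z ⋖ x}.ncard ≤ 1
    · have hch := ch_of_co hF hN hox hc
      obtain ⟨a, hoa, hax⟩ := lf_cov hF hlt
      have huniq : ∀ c, o ⋖ c → c ≤ x → c = a := by
        intro c hc hcx
        rcases hch c a hc.le hcx hoa.le hax with h | h
        · exact eq_of_cov_le hc hoa h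
        · exact (eq_of_cov_le hoa hc h).symm
      by_cases haS : a ∈ S
      · refine ⟨x, ⟨hox, fun c hc hcx => ?_⟩, o, US_base o Sᶜ, sup_eq_left.2 hox⟩
        rw [huniq c hc hcx]; exact haS
      · refine ⟨o, US_base o S, x, ⟨hox, fun c hc hcx => ?_⟩, sup_eq_right.2 hox⟩
        rw [huniq c hc hcx]; exact haS
    · have h2 : 1 < {z | o ≤ z ∧ z ⋖ x}.ncard := by omega
      obtain ⟨x1, h1, x2, h2, hne⟩ := (Set.one_lt_ncard (lf_co hF o x)).1 h2
      obtain ⟨u1, hu1, v1, hv1, he1⟩ := ih _ (by rw [← hm]; exact icc_lt hF hox h1.2.lt) x1 h1.1 rfl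
      obtain ⟨u2, hu2, v2, hv2, he2⟩ := ih _ (by rw [← hm]; exact icc_lt hF hox h2.2.lt) x2 h2.1 rfl
      refine ⟨u1 ⊔ u2, US_sup' hF hN hS hu1 hu2, v1 ⊔ v2,
        US_sup' hF hN (compl_closed hS) hv1 hv2, ?_⟩
      have h3 : ¬ x2 ≤ x1 := by
        intro h
        rcases eq_or_lt_of_le h with h | h
        · exact hne h.symm
        · exact h2.2.2 h h1.2.lt
      rw [← eq_sup_cov h1.2 h2.2.le h3, ← he1, ← he2]
      exact sup_sup_sup_comm u1 u2 v1 v2

/-- uniqueness of the decomposition -/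
lemma US_unique (hF : LF L) (hN : NN' L) {o : L} {S : Set L}
    (hS : ∀ c c', o ⋖ c → o ⋖ c' → c ∈ S → Th o c c' → c' ∈ S) {u v u' v' : L}
    (hu : u ∈ US o S) (hv : v ∈ US o Sᶜ) (hu' : u' ∈ US o S) (hv' : v' ∈ US o Sᶜ)
    (h : u' ⊔ v' ≤ u ⊔ v) : u' ≤ u ∧ v' ≤ v := by
  have h1 := US_sup' hF hN hS hu hu'
  have h2 := US_sup' hF hN (compl_closed hS) hv hv'
  constructor
  · have e1 : (u ⊔ u') ⊓ (u ⊔ v) = u ⊔ u' :=
      inf_eq_left.2 (sup_le le_sup_left (le_sup_left.trans h))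
    have e2 : (u ⊔ u') ⊓ (u ⊔ v) = u ⊔ (v ⊓ (u ⊔ u')) := by
      rw [inf_comm, sup_inf_assoc_of_le v (le_sup_left : u ≤ u ⊔ u')]
    have e3 : v ⊓ (u ⊔ u') = o := by
      rw [inf_comm]; exact US_inf hF h1 hv
    rw [e3, sup_eq_left.2 hu.1] at e2
    rw [e1] at e2
    exact e2 ▸ le_sup_right
  · have e1 : (v ⊔ v') ⊓ (v ⊔ u) = v ⊔ v' := by
      apply inf_eq_left.2
      rw [sup_comm v u]
      exact sup_le le_sup_right (le_sup_right.trans h)
    have e2 : (v ⊔ v') ⊓ (v ⊔ u) = v ⊔ (u ⊓ (v ⊔ v')) := by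
      rw [inf_comm, sup_inf_assoc_of_le u (le_sup_left : v ≤ v ⊔ v')]
    have e3 : u ⊓ (v ⊔ v') = o := US_inf hF hu h2
    rw [e3, sup_eq_left.2 hv.1] at e2
    rw [e1] at e2
    exact e2 ▸ le_sup_right

/-- all pairs of atoms of the interval have a third one on their line -/
def Conn (o t : L) : Prop := ∀ a b, o ⋖ a → a ≤ t → o ⋖ b → b ≤ t → a ≠ b → Th o a b

/-- all pairs of coatoms of the interval have a third one above their meet -/
def CoConn (o t : L) : Prop := ∀ a b, a ⋖ t → o ≤ a → b ⋖ t → o ≤ b → a ≠ b →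
  ∃ w, w ⋖ t ∧ a ⊓ b ≤ w ∧ w ≠ a ∧ w ≠ b

lemma th_class {o p : L} (hop : o ⋖ p) : ∀ c c', o ⋖ c → o ⋖ c' →
    c ∈ {c | c = p ∨ Th o p c} → Th o c c' → c' ∈ {c | c = p ∨ Th o p c} := by
  intro c c' hc hc' h hTh
  rcases h with rfl | h
  · exact Or.inr hTh
  · by_cases h1 : c' = p
    · exact Or.inl h1
    · right
      by_cases h2 : c = p
      · rw [← h2]; exact hTh
      by_cases h3 : c = c'
      · rw [← h3]; exact h
      exact Th.trans hop hc hc' (Ne.symm h2) h3 (Ne.symm h1) h hTh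

lemma conn_of_coConn (hF : LF L) (hN : NN' L) {o t : L} (hot : o ≤ t) (h : CoConn o t) :
    Conn o t := by
  intro p q hop hpt hoq hqt hpq
  by_contra hno
  set S : Set L := {c | c = p ∨ Th o p c} with hSdef
  have hS := th_class hop
  have hpS : p ∈ S := Or.inl rfl
  have hqS : q ∈ Sᶜ := by
    rintro (h | h)
    · exact hpq h.symm
    · exact hno h
  obtain ⟨e, he, f, hf, hef⟩ := US_decomp hF hN hS _ t hot rfl
  have hpe : p ≤ e := by
    have h1 : p ∈ US o S := ⟨hop.le, fun c hc hcp => by rw [eq_of_cov_le hc hop hcp]; exact hpS⟩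
    have h2 := US_unique hF hN hS he hf h1 (US_base o Sᶜ) (by
      rw [sup_eq_left.2 hop.le, hef]; exact hpt)
    exact h2.1
  have hqf : q ≤ f := by
    have h1 : q ∈ US o Sᶜ := ⟨hoq.le, fun c hc hcq => by rw [eq_of_cov_le hc hoq hcq]; exact hqS⟩
    have h2 := US_unique hF hN hS he hf (US_base o S) h1 (by
      rw [sup_eq_right.2 hoq.le, hef]; exact hqt)
    exact h2.2
  have hefo : e ⊓ f = o := US_inf hF he hf
  have het : e < t := by
    apply lt_of_le_of_ne (hef ▸ le_sup_left)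
    intro h
    have : q ≤ e ⊓ f := le_inf (h ▸ hqt) hqf
    rw [hefo] at this
    exact absurd hoq.lt (not_lt_of_ge this)
  have hft : f < t := by
    apply lt_of_le_of_ne (hef ▸ le_sup_right)
    intro h
    have : p ≤ e ⊓ f := le_inf hpe (h ▸ hpt)
    rw [hefo] at this
    exact absurd hop.lt (not_lt_of_ge this)
  obtain ⟨l, hel, hlt⟩ := lf_cov' hF het
  obtain ⟨m, hfm, hmt⟩ := lf_cov' hF hft
  have hlm : l ≠ m := by
    rintro rfl
    have : t ≤ l := by rw [← hef]; exact sup_le hel hfm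
    exact absurd hlt.lt (not_lt_of_ge this)
  obtain ⟨k, hkt, hk, hkl, hkm⟩ := h l m hlt (he.1.trans hel) hmt (hf.1.trans hfm) hlm
  have hok : o ≤ k := (le_inf (he.1.trans hel) (hf.1.trans hfm)).trans hk
  -- components
  have hdec : ∀ x, o ≤ x → x ≤ t → x = (x ⊓ e) ⊔ (x ⊓ f) := by
    intro x hox hxt
    obtain ⟨u, hu, v, hv, huv⟩ := US_decomp hF hN hS _ x hox rfl
    obtain ⟨h1, h2⟩ := US_unique hF hN hS he hf hu hv (by rw [huv, hef]; exact hxt)
    apply le_antisymm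
    · rw [← huv]
      exact sup_le_sup (le_inf le_sup_left h1) (le_inf le_sup_right h2)
    · exact sup_le inf_le_left inf_le_left
  have hek : ¬ e ≤ k := by
    intro h1
    have h2 : l ≤ k := by
      rw [hdec l (he.1.trans hel) hlt.le]
      refine sup_le (inf_le_right.trans h1) ?_
      exact (le_inf inf_le_left (inf_le_right.trans hfm)).trans hk
    rcases eq_or_lt_of_le h2 with h | h
    · exact hkl h.symm
    · exact hlt.2 h hkt.lt
  have hfk : ¬ f ≤ k := by
    intro h1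
    have h2 : m ≤ k := by
      rw [hdec m (hf.1.trans hfm) hmt.le]
      refine sup_le ?_ (inf_le_right.trans h1)
      exact (le_inf (inf_le_right.trans hel) inf_le_left).trans hk
    rcases eq_or_lt_of_le h2 with h | h
    · exact hkm h.symm
    · exact hmt.2 h hkt.lt
  have hem : ¬ e ≤ m := by
    intro h1
    have : t ≤ m := by rw [← hef]; exact sup_le h1 hfm
    exact absurd hmt.lt (not_lt_of_ge this)
  have hk1 : k ⊓ e ⋖ e := inf_cov hkt het.le hek
  have hm1 : m ⊓ e ⋖ e := inf_cov hmt het.le hem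
  have h3 : m ⊓ e ≤ k ⊓ e := le_inf
    ((le_inf (inf_le_right.trans hel) inf_le_left).trans hk) inf_le_right
  have h4 : k ⊓ e = m ⊓ e := by
    rcases eq_or_lt_of_le h3 with h | h
    · exact h.symm
    · exact absurd hk1.lt (hm1.2 h)
  have h5 : k ≤ m := by
    rw [hdec k hok hkt.le, h4]
    exact sup_le inf_le_left (inf_le_right.trans hfm)
  rcases eq_or_lt_of_le h5 with h | h
  · exact hkm h
  · exact hkt.2 h hmt.lt

omit [IsModularLattice L] in
lemma NN'.dual' (h : NN' L) : NN' Lᵒᵈ := by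
  intro x y hxy
  have h1 := h (OrderDual.ofDual y) (OrderDual.ofDual x) hxy
  have e1 : {z | x ⋖ z ∧ z ≤ y} =
      OrderDual.toDual '' {z | OrderDual.ofDual y ≤ z ∧ z ⋖ OrderDual.ofDual x} := by
    ext z
    constructor
    · rintro ⟨h1, h2⟩
      exact ⟨OrderDual.ofDual z, ⟨h2, h1.ofDual⟩, rfl⟩
    · rintro ⟨w, ⟨h1, h2⟩, rfl⟩
      exact ⟨h2.toDual, h1⟩
  have e2 : {z | x ≤ z ∧ z ⋖ y} =
      OrderDual.toDual '' {z | OrderDual.ofDual y ⋖ z ∧ z ≤ OrderDual.ofDual x} := by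
    ext z
    constructor
    · rintro ⟨h1, h2⟩
      exact ⟨OrderDual.ofDual z, ⟨h2.ofDual, h1⟩, rfl⟩
    · rintro ⟨w, ⟨h1, h2⟩, rfl⟩
      exact ⟨h2, h1.toDual⟩
  rw [e1, e2, Set.ncard_image_of_injective _ OrderDual.toDual.injective,
    Set.ncard_image_of_injective _ OrderDual.toDual.injective, h1]

lemma coConn_of_conn (hF : LF L) (hN : NN' L) {o t : L} (hot : o ≤ t) (h : Conn o t) :
    CoConn o t := by
  have h1 : CoConn (OrderDual.toDual t) (OrderDual.toDual o) := by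
    intro a b hat hoa hbt hob hab
    obtain ⟨w, h1, h2, h3, h4⟩ := h (OrderDual.ofDual a) (OrderDual.ofDual b) hat.ofDual hoa
      hbt.ofDual hob hab
    exact ⟨OrderDual.toDual w, h1.toDual, h2, h3, h4⟩
  have h2 := conn_of_coConn hF.dual hN.dual' (L := Lᵒᵈ) (o := OrderDual.toDual t)
    (t := OrderDual.toDual o) hot h1
  intro a b hat hoa hbt hob hab
  obtain ⟨w, h3, h4, h5, h6⟩ := h2 (OrderDual.toDual a) (OrderDual.toDual b) hat.toDual hoa
    hbt.toDual hob hab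
  exact ⟨OrderDual.ofDual w, h3.ofDual, h4, h5, h6⟩

/-- connectedness passes to subintervals -/
lemma Conn.sub (hF : LF L) (hN : NN' L) {o t x y : L} (h : Conn o t) (hox : o ≤ x) (hxy : x ≤ y)
    (hyt : y ≤ t) : Conn x y := by
  have h1 : CoConn o t := coConn_of_conn hF hN (hox.trans (hxy.trans hyt)) h
  have h2 : CoConn x t := fun a b hat hxa hbt hxb hab =>
    h1 a b hat (hox.trans hxa) hbt (hox.trans hxb) hab
  have h3 : Conn x t := conn_of_coConn hF hN (hxy.trans hyt) h2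
  exact fun a b hxa hay hxb hby hab => h3 a b hxa (hay.trans hyt) hxb (hby.trans hyt) hab

end

end Pool.Agent.Helper87.ML
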