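import Pool.Agent.Helper87.ML.Arb
import Pool.Agent.Helper87.ML.Defs

set_option autoImplicit false

/-! The lattice of the `n`-regular tree. -/

namespace Pool.Agent.Helper87.ML

namespace TreePt

variable {n : ℕ}

lemma le_iff {p q : TreePt n} : p ≤ q ↔ (td p.v q.v : ℤ) ≤ q.h - p.h := Iff.rfl

lemma parity (p q : TreePt n) : Even (q.h - p.h - td p.v q.v) := by
  obtain ⟨c, hc⟩ := td_parity p.v q.v
  obtain ⟨a, ha⟩ := p.par
  obtain ⟨b, hb⟩ := q.par
  rw [Int.even_iff]
  omega

lemma eq_of_le_of_h {p q : TreePt n} (h : p ≤ q) (hh : p.h = q.h) : p = q := by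
  rw [le_iff] at h
  exact TreePt.ext (eq_of_td_eq_zero (by omega)) hh

lemma h_lt {p q : TreePt n} (h : p < q) : p.h < q.h := by
  have h1 := h.le
  rw [le_iff] at h1
  rcases lt_or_ge p.h q.h with h2 | h2
  · exact h2
  · exact absurd (eq_of_le_of_h h.le (by omega)) h.ne

/-- the cover of `p` in direction `i` -/
def up (i : Fin n) (p : TreePt n) : TreePt n where
  v := nb i p.v
  h := p.h + 1
  red := nb_red p.red
  par := by
    obtain ⟨a, ha⟩ := p.par
    have := nb_length i p.v
    rw [Int.even_iff]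
    omega

/-- the double cover -/
def up2 (p : TreePt n) : TreePt n where
  v := p.v
  h := p.h + 2
  red := p.red
  par := by
    obtain ⟨a, ha⟩ := p.par
    rw [Int.even_iff]
    omega

lemma lt_up (i : Fin n) (p : TreePt n) : p < up i p := by
  apply lt_of_le_of_ne
  · rw [le_iff]
    show (td p.v (nb i p.v) : ℤ) ≤ p.h + 1 - p.h
    rw [td_comm, td_nb_self]; omega
  · intro h
    have := congrArg TreePt.h h
    simp [up] at this

lemma exists_up_le {p q : TreePt n} (hn : 0 < n) (h : p < q) : ∃ i, up i p ≤ q := by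
  have h1 := h.le
  have h2 := h_lt h
  rw [le_iff] at h1
  by_cases hv : p.v = q.v
  · refine ⟨⟨0, hn⟩, ?_⟩
    rw [le_iff]
    show (td (nb _ p.v) q.v : ℤ) ≤ q.h - (p.h + 1)
    rw [← hv, td_nb_self]
    have h3 := parity p q
    rw [← hv, td_self, Int.even_iff] at h3
    omega
  · obtain ⟨i, hi, -⟩ := near q.red hv
    refine ⟨i, ?_⟩
    rw [le_iff]
    show (td (nb i p.v) q.v : ℤ) ≤ q.h - (p.h + 1)
    omega

lemma up_inj {i j : Fin n} {p : TreePt n} (h : up i p = up j p) : i = j :=
  nb_inj (congrArg TreePt.v h)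

/-- the covering relation of the part below `q` -/
lemma covBy_iff {q : TreePt n} (hn : 0 < n) {x y : {x : TreePt n // x ≤ q}} :
    x ⋖ y ↔ ∃ i, y.1 = up i x.1 := by
  constructor
  · intro h
    obtain ⟨i, hi⟩ := exists_up_le hn h.lt
    refine ⟨i, ?_⟩
    by_contra hne
    have h1 : up i x.1 < y.1 := lt_of_le_of_ne hi (Ne.symm hne)
    have h2 := h.2 (c := ⟨up i x.1, hi.trans y.2⟩) (lt_up i x.1)
    exact h2 h1
  · rintro ⟨i, hi⟩
    refine ⟨?_, ?_⟩
    · show x.1 < y.1
      rw [hi]; exact lt_up i x.1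
    · intro z hxz hzy
      have h1 := h_lt (show x.1 < z.1 from hxz)
      have h2 := h_lt (show z.1 < y.1 from hzy)
      rw [hi] at h2
      have h3 : (up i x.1).h = x.1.h + 1 := rfl
      omega

section ArbTree

variable (q : TreePt n)

/-- length of `[x, q]` -/
def kk (x : {x : TreePt n // x ≤ q}) : ℕ := (q.h - x.1.h).toNat

/-- type of `[x, q]` -/
def dd (x : {x : TreePt n // x ≤ q}) : ℕ := td x.1.v q.v

open Classical in
/-- join of the covers -/
noncomputable def ss (x : {x : TreePt n // x ≤ q}) : {x : TreePt n // x ≤ q} :=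
  if hx : up2 x.1 ≤ q then ⟨up2 x.1, hx⟩ else x

variable {q}

lemma kk_cast (x : {x : TreePt n // x ≤ q}) : (kk q x : ℤ) = q.h - x.1.h := by
  have h := x.2
  rw [le_iff] at h
  unfold kk
  rw [Int.toNat_of_nonneg]
  omega

lemma dd_le (x : {x : TreePt n // x ≤ q}) : dd q x ≤ kk q x := by
  have h := x.2
  rw [le_iff] at h
  have := kk_cast x
  unfold dd
  omega

lemma dd_parity (x : {x : TreePt n // x ≤ q}) : ∃ c : ℕ, kk q x = dd q x + 2 * c := by
  have h1 := parity x.1 q
  have h2 := dd_le x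
  have h3 := kk_cast x
  rw [Int.even_iff] at h1
  unfold dd at *
  refine ⟨(kk q x - td x.1.v q.v) / 2, ?_⟩
  omega

lemma up2_le {x : {x : TreePt n // x ≤ q}} (h : dd q x ≠ kk q x) : up2 x.1 ≤ q := by
  obtain ⟨c, hc⟩ := dd_parity x
  have h3 := kk_cast x
  rw [le_iff]
  show (td x.1.v q.v : ℤ) ≤ q.h - (x.1.h + 2)
  unfold dd at *
  omega

lemma ss_val {x : {x : TreePt n // x ≤ q}} (h : dd q x ≠ kk q x) : (ss q x).1 = up2 x.1 := by
  unfold ss
  rw [dif_pos (up2_le h)]

lemma kk_up {x y : {x : TreePt n // x ≤ q}} {i : Fin n} (h : y.1 = up i x.1) :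
    kk q y + 1 = kk q x := by
  have h1 := kk_cast x
  have h2 := kk_cast y
  have h3 : y.1.h = x.1.h + 1 := by rw [h]; rfl
  omega

lemma dd_up {x y : {x : TreePt n // x ≤ q}} {i : Fin n} (h : y.1 = up i x.1) :
    dd q y = td (nb i x.1.v) q.v := by
  unfold dd; rw [h]; rfl

lemma up_le {x : {x : TreePt n // x ≤ q}} (h : dd q x ≠ kk q x) (i : Fin n) : up i x.1 ≤ q := by
  obtain ⟨c, hc⟩ := dd_parity x
  have h3 := kk_cast x
  rw [le_iff]
  show (td (nb i x.1.v) q.v : ℤ) ≤ q.h - (x.1.h + 1)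
  have := td_nb i x.1.v q.v
  unfold dd at *
  omega

variable (q) in
/-- the part of the tree lattice below `q` -/
noncomputable def arb (hn : 2 ≤ n) : Arb n {x : TreePt n // x ≤ q} where
  k := kk q
  d := dd q
  s := ss q
  k_cov := by
    intro x y h
    obtain ⟨i, hi⟩ := (covBy_iff (by omega)).1 h
    exact kk_up hi
  k_lt := by
    intro x y h
    have h1 := h_lt (show x.1 < y.1 from h)
    have h2 := kk_cast x
    have h3 := kk_cast y
    omega
  cov := by
    intro x z h
    obtain ⟨i, hi⟩ := exists_up_le (by omega) (show x.1 < z.1 from h)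
    exact ⟨⟨up i x.1, hi.trans z.2⟩, (covBy_iff (by omega)).2 ⟨i, rfl⟩, hi⟩
  ex := by
    intro x h
    have h2 := kk_cast x
    have h1 : x.1 < q := by
      apply lt_of_le_of_ne x.2
      intro he
      rw [he] at h2
      omega
    obtain ⟨i, hi⟩ := exists_up_le (by omega) h1
    exact ⟨⟨up i x.1, hi⟩, (covBy_iff (by omega)).2 ⟨i, rfl⟩⟩
  unb := by
    intro x hx y y' hy hy'
    obtain ⟨i, hi⟩ := (covBy_iff (by omega)).1 hy
    obtain ⟨j, hj⟩ := (covBy_iff (by omega)).1 hy'
    have h1 := dd_le y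
    have h2 := dd_le y'
    have h3 := kk_up hi
    have h4 := kk_up hj
    have h5 := dd_up hi
    have h6 := dd_up hj
    have hne : x.1.v ≠ q.v := by
      intro he
      have : dd q x = 0 := by unfold dd; rw [he, td_self]
      omega
    obtain ⟨l, hl, hl'⟩ := near q.red hne
    have hil : i = l := by
      by_contra hne
      have := hl' i hne
      unfold dd at *
      omega
    have hjl : j = l := by
      by_contra hne
      have := hl' j hne
      unfold dd at *
      omega
    apply Subtype.ext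
    rw [hi, hj, hil, hjl]
  unb' := by
    intro x hx y hy
    obtain ⟨i, hi⟩ := (covBy_iff (by omega)).1 hy
    have h1 := dd_le y
    have h3 := kk_up hi
    have h5 := dd_up hi
    have := td_nb i x.1.v q.v
    unfold dd at *
    omega
  card := by
    intro x hx
    have : {y | x ⋖ y} = Set.range (fun i : Fin n => (⟨up i x.1, up_le hx i⟩ :
        {x : TreePt n // x ≤ q})) := by
      ext y
      rw [Set.mem_ofPred_eq, covBy_iff (by omega), Set.mem_range]
      constructor
      · rintro ⟨i, hi⟩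
        exact ⟨i, Subtype.ext hi.symm⟩
      · rintro ⟨i, rfl⟩
        exact ⟨i, rfl⟩
    rw [this, ← Set.image_univ, Set.ncard_image_of_injective, Set.ncard_univ,
      Nat.card_eq_fintype_card, Fintype.card_fin]
    intro i j hij
    exact up_inj (congrArg Subtype.val hij)
  join := by
    intro x hx y y' hy hy' hne z hz hz'
    obtain ⟨i, hi⟩ := (covBy_iff (by omega)).1 hy
    obtain ⟨j, hj⟩ := (covBy_iff (by omega)).1 hy'
    have hij : i ≠ j := by
      rintro rfl
      exact hne (Subtype.ext (hi.trans hj.symm))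
    have h1 : up i x.1 ≤ z.1 := by rw [← hi]; exact hz
    have h2 : up j x.1 ≤ z.1 := by rw [← hj]; exact hz'
    show (ss q x).1 ≤ z.1
    rw [ss_val hx, le_iff]
    show (td x.1.v z.1.v : ℤ) ≤ z.1.h - (x.1.h + 2)
    rw [le_iff] at h1 h2
    have h1' : (td (nb i x.1.v) z.1.v : ℤ) ≤ z.1.h - (x.1.h + 1) := h1
    have h2' : (td (nb j x.1.v) z.1.v : ℤ) ≤ z.1.h - (x.1.h + 1) := h2
    by_cases he : x.1.v = z.1.v
    · rw [← he, td_nb_self] at h1'
      rw [← he, td_self]
      have h3 := parity x.1 z.1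
      rw [← he, td_self, Int.even_iff] at h3
      omega
    · obtain ⟨l, hl, hl'⟩ := near z.1.red he
      by_cases hil : i = l
      · have := hl' j (fun h => hij (hil.trans h.symm))
        omega
      · have := hl' i hil
        omega
  s_cov := by
    intro x hx y hy
    obtain ⟨i, hi⟩ := (covBy_iff (by omega)).1 hy
    rw [covBy_iff (by omega)]
    have h1 : td y.1.v x.1.v = 1 := by rw [hi]; exact td_nb_self i _
    obtain ⟨j, hj⟩ := exists_nb x.1.red h1
    refine ⟨j, ?_⟩
    rw [ss_val hx]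
    apply TreePt.ext
    · exact hj
    · show x.1.h + 2 = y.1.h + 1
      rw [hi]
      show x.1.h + 2 = x.1.h + 1 + 1
      ring
  s_d := by
    intro x hx
    unfold dd
    rw [ss_val hx]
    rfl
  s_inj := by
    intro x hx y y' hy hy' hb hb' he
    have h1 : up2 y.1 = up2 y'.1 := by rw [← ss_val hb, ← ss_val hb', he]
    apply Subtype.ext
    have h2 := congrArg TreePt.v h1
    have h3 := congrArg TreePt.h h1
    have h4 : y.1.h + 2 = y'.1.h + 2 := h3
    exact TreePt.ext (show y.1.v = y'.1.v from h2) (by omega)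
  s_surj := by
    intro x hx _ e he
    obtain ⟨i, hi⟩ := (covBy_iff (by omega)).1 he
    have h1 : up i x.1 ≤ q := up_le hx i
    have h2 : e.1 = up2 (up i x.1) := by
      rw [hi, ss_val hx]
      apply TreePt.ext
      · rfl
      · show x.1.h + 2 + 1 = x.1.h + 1 + 2
        ring
    have h4 : dd q ⟨up i x.1, h1⟩ ≠ kk q ⟨up i x.1, h1⟩ := by
      intro h5
      have h6 := e.2
      rw [h2, le_iff] at h6
      have h6' : (td (nb i x.1.v) q.v : ℤ) ≤ q.h - (x.1.h + 1 + 2) := h6
      have h7 := kk_cast (q := q) ⟨up i x.1, h1⟩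
      have h7' : (kk q ⟨up i x.1, h1⟩ : ℤ) = q.h - (x.1.h + 1) := h7
      have h8 : dd q ⟨up i x.1, h1⟩ = td (nb i x.1.v) q.v := rfl
      omega
    refine ⟨⟨up i x.1, h1⟩, (covBy_iff (by omega)).2 ⟨i, rfl⟩, h4, ?_⟩
    apply Subtype.ext
    rw [ss_val h4, h2]
  d_zero := by
    intro x hx h0 y hy
    obtain ⟨i, hi⟩ := (covBy_iff (by omega)).1 hy
    have h1 : x.1.v = q.v := eq_of_td_eq_zero h0
    rw [dd_up hi, ← h1, td_nb_self]
  d_pos := by
    intro x hx h0
    have hne : x.1.v ≠ q.v := by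
      intro he
      apply h0
      unfold dd; rw [he, td_self]
    obtain ⟨l, hl, hl'⟩ := near q.red hne
    refine ⟨⟨up l x.1, up_le hx l⟩, (covBy_iff (by omega)).2 ⟨l, rfl⟩, ?_, ?_⟩
    · exact hl
    · intro y hy hyne
      obtain ⟨i, hi⟩ := (covBy_iff (by omega)).1 hy
      rw [dd_up hi]
      apply hl'
      rintro rfl
      exact hyne (Subtype.ext hi)

end ArbTree

end TreePt

end Pool.Agent.Helper87.ML
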