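import Pool.Agent.Helper87.ML.Tree
import Pool.Agent.Helper87.ML.Lat

set_option autoImplicit false

/-! Order-convex subsets of the tree lattice: modularity, breadth, self-duality. -/

namespace Pool.Agent.Helper87.ML

section Words

variable {α : Type*} [DecidableEq α]

/-- if the directions from `u` to `v` and to `w` differ then `u` lies between them -/
lemma td_add (m : ℕ) : ∀ (u v w : List α) (i : α), u.IsChain (· ≠ ·) → v.IsChain (· ≠ ·) →
    w.IsChain (· ≠ ·) → td u v = m → td (nb i u) v + 1 = td u v →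
    td (nb i u) w = td u w + 1 → td v w = td v u + td u w := by
  induction m with
  | zero => intro u v w i _ _ _ h h1; omega
  | succ m ih =>
    intro u v w i hu hv hw hm h1 h2
    have hu'r : (nb i u).IsChain (· ≠ ·) := nb_red hu
    by_cases hv' : nb i u = v
    · rw [← hv', td_nb_self, h2]; omega
    · obtain ⟨j, hj, -⟩ := near hv hv'
      have hne : nb i u ≠ w := by
        intro h; rw [h, td_self] at h2; omega
      obtain ⟨l, hl, hl'⟩ := near hw hne
      obtain ⟨i', hi'⟩ := exists_nb hu (td_nb_self i u)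
      have hil : i' = l := by
        by_contra hc
        have := hl' i' hc
        rw [← hi'] at this
        omega
      have hjl : j ≠ l := by
        intro hc
        rw [hc, ← hil, ← hi'] at hj
        omega
      have h3 := hl' j hjl
      have h4 := ih (nb i u) v w j hu'r hv hw (by omega) hj h3
      rw [h4, td_comm v (nb i u), td_comm v u]
      omega

end Words

namespace TreePt

variable {n : ℕ}

/-- joins exist -/
lemma exists_join (m : ℕ) : ∀ x y : TreePt n, td x.v y.v = m →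
    ∃ j, x ≤ j ∧ y ≤ j ∧ (∀ z, x ≤ z → y ≤ z → j ≤ z) ∧
      (x ≤ y ∨ y ≤ x ∨ 2 * j.h = x.h + y.h + td x.v y.v) := by
  induction m with
  | zero =>
    intro x y h
    have hv : x.v = y.v := eq_of_td_eq_zero h
    rcases le_total x.h y.h with h1 | h1
    · have hxy : x ≤ y := by rw [le_iff, h]; push_cast; omega
      exact ⟨y, hxy, le_rfl, fun z _ hz => hz, Or.inl hxy⟩
    · have hyx : y ≤ x := by rw [le_iff, td_comm, h]; push_cast; omega
      exact ⟨x, le_rfl, hyx, fun z hz _ => hz, Or.inr (Or.inl hyx)⟩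
  | succ m ih =>
    intro x y hm
    by_cases hxy : x ≤ y
    · exact ⟨y, hxy, le_rfl, fun z _ hz => hz, Or.inl hxy⟩
    by_cases hyx : y ≤ x
    · exact ⟨x, le_rfl, hyx, fun z hz _ => hz, Or.inr (Or.inl hyx)⟩
    have hne : x.v ≠ y.v := by
      intro h; rw [h, td_self] at hm; omega
    obtain ⟨i, hi, -⟩ := near y.red hne
    have hx'v : (up i x).v = nb i x.v := rfl
    have hx'h : (up i x).h = x.h + 1 := rfl
    obtain ⟨j, h1, h2, h3, h4⟩ := ih (up i x) y (by rw [hx'v]; omega)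
    have hpar := parity y x
    rw [Int.even_iff] at hpar
    have hyx' : x.h - y.h + 2 ≤ (td y.v x.v : ℤ) := by
      rw [le_iff] at hyx
      omega
    rw [td_comm y.v x.v] at hyx'
    have hup : ∀ z, x ≤ z → y ≤ z → up i x ≤ z := by
      intro z hxz hyz
      rw [le_iff, hx'v, hx'h]
      rw [le_iff] at hxz hyz
      rcases td_nb i x.v z.v with h | h
      · have h5 := td_add _ x.v y.v z.v i x.red y.red z.red rfl hi h
        rw [td_comm y.v x.v] at h5
        omega
      · omega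
    refine ⟨j, (lt_up i x).le.trans h1, h2, fun z hxz hyz => h3 z (hup z hxz hyz) hyz, ?_⟩
    right; right
    rcases h4 with h4 | h4 | h4
    · exact absurd ((lt_up i x).le.trans h4) hxy
    · have h5 : j = up i x := le_antisymm (h3 _ le_rfl h4) h1
      rw [le_iff, hx'v, hx'h, td_comm] at h4
      rw [h5, hx'h]
      omega
    · rw [h4, hx'v, hx'h]
      omega

/-- the anti-automorphism -/
def star (p : TreePt n) : TreePt n where
  v := p.v
  h := -p.h
  red := p.red
  par := by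
    obtain ⟨a, ha⟩ := p.par
    rw [Int.even_iff]
    omega

@[simp] lemma star_star (p : TreePt n) : star (star p) = p := by
  apply TreePt.ext
  · rfl
  · show - - p.h = p.h
    ring

lemma star_le {p q : TreePt n} : star p ≤ star q ↔ q ≤ p := by
  rw [le_iff, le_iff]
  show (td p.v q.v : ℤ) ≤ -q.h - -p.h ↔ (td q.v p.v : ℤ) ≤ p.h - q.h
  rw [td_comm]
  constructor <;> intro h <;> omega

lemma star_le' {p q : TreePt n} : star p ≤ q ↔ star q ≤ p := by
  rw [← star_le, star_star]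

lemma le_star' {p q : TreePt n} : p ≤ star q ↔ q ≤ star p := by
  rw [← star_le, star_star]

/-- meets exist -/
lemma exists_meet (x y : TreePt n) :
    ∃ g, g ≤ x ∧ g ≤ y ∧ (∀ z, z ≤ x → z ≤ y → z ≤ g) ∧
      (x ≤ y ∨ y ≤ x ∨ 2 * g.h = x.h + y.h - td x.v y.v) := by
  obtain ⟨j, h1, h2, h3, h4⟩ := exists_join _ (star x) (star y) rfl
  refine ⟨star j, star_le'.1 h1, star_le'.1 h2, ?_, ?_⟩
  · intro z hzx hzy
    rw [le_star']
    exact h3 _ (star_le.2 hzx) (star_le.2 hzy)
  · rcases h4 with h4 | h4 | h4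
    · exact Or.inr (Or.inl (star_le.1 h4))
    · exact Or.inl (star_le.1 h4)
    · right; right
      have h5 : (star x).v = x.v := rfl
      have h6 : (star y).v = y.v := rfl
      have h7 : (star x).h = -x.h := rfl
      have h8 : (star y).h = -y.h := rfl
      have h9 : (star j).h = -j.h := rfl
      rw [h5, h6, h7, h8] at h4
      rw [h9]
      omega

/-- the rank formula -/
lemma rank_eq {x y j g : TreePt n} (hx : x ≤ j) (hy : y ≤ j) (hj : ∀ z, x ≤ z → y ≤ z → j ≤ z)
    (gx : g ≤ x) (gy : g ≤ y) (hg : ∀ z, z ≤ x → z ≤ y → z ≤ g) : j.h + g.h = x.h + y.h := by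
  obtain ⟨j', h1, h2, h3, h4⟩ := exists_join _ x y rfl
  obtain ⟨g', k1, k2, k3, k4⟩ := exists_meet x y
  have ej : j = j' := le_antisymm (hj _ h1 h2) (h3 _ hx hy)
  have eg : g = g' := le_antisymm (k3 _ gx gy) (hg _ k1 k2)
  subst ej eg
  by_cases hxy : x ≤ y
  · have e1 : j = y := le_antisymm (hj _ hxy le_rfl) hy
    have e2 : g = x := le_antisymm gx (hg _ le_rfl hxy)
    rw [e1, e2]; ring
  by_cases hyx : y ≤ x
  · have e1 : j = x := le_antisymm (hj _ le_rfl hyx) hx
    have e2 : g = y := le_antisymm gy (hg _ hyx le_rfl)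
    rw [e1, e2]
  rcases h4 with h4 | h4 | h4
  · exact absurd h4 hxy
  · exact absurd h4 hyx
  rcases k4 with k4 | k4 | k4
  · exact absurd k4 hxy
  · exact absurd k4 hyx
  omega

/-- the join property of covers -/
lemma up2_le_of {x z : TreePt n} {i j : Fin n} (hij : i ≠ j) (h1 : up i x ≤ z) (h2 : up j x ≤ z) :
    up2 x ≤ z := by
  rw [le_iff]
  show (td x.v z.v : ℤ) ≤ z.h - (x.h + 2)
  rw [le_iff] at h1 h2
  have h1' : (td (nb i x.v) z.v : ℤ) ≤ z.h - (x.h + 1) := h1
  have h2' : (td (nb j x.v) z.v : ℤ) ≤ z.h - (x.h + 1) := h2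
  by_cases he : x.v = z.v
  · rw [← he, td_nb_self] at h1'
    rw [← he, td_self]
    have h3 := parity x z
    rw [← he, td_self, Int.even_iff] at h3
    omega
  · obtain ⟨l, hl, hl'⟩ := near z.red he
    by_cases hil : i = l
    · have := hl' j (fun h => hij (hil.trans h.symm))
      omega
    · have := hl' i hil
      omega

lemma up_le_up2 (i : Fin n) (x : TreePt n) : up i x ≤ up2 x := by
  rw [le_iff]
  show (td (nb i x.v) x.v : ℤ) ≤ x.h + 2 - (x.h + 1)
  rw [td_nb_self]; omega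

end TreePt

lemma modular_of_rank {L : Type*} [Lattice L] (r : L → ℤ) (hlt : ∀ x y : L, x < y → r x < r y)
    (hr : ∀ x y : L, r (x ⊔ y) + r (x ⊓ y) = r x + r y) : IsModularLattice L := by
  refine ⟨fun {x} y {z} hxz => ?_⟩
  have h1 : x ⊔ y ⊓ z ≤ (x ⊔ y) ⊓ z :=
    sup_le (le_inf le_sup_left hxz) (inf_le_inf_right z le_sup_right)
  by_contra hne
  have h2 : x ⊔ y ⊓ z < (x ⊔ y) ⊓ z := lt_of_le_not_ge h1 hne
  have h3 := hlt _ _ h2
  have e1 := hr (x ⊔ y) z
  have e2 := hr x (y ⊓ z)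
  have e3 := hr y z
  have e4 := hr x y
  have e5 : x ⊔ y ⊔ z = y ⊔ z := by
    rw [sup_comm x y, sup_assoc, sup_eq_right.2 hxz]
  have e6 : x ⊓ (y ⊓ z) = x ⊓ y := by
    rw [← inf_assoc, inf_eq_left]
    exact inf_le_left.trans hxz
  rw [e5] at e1
  rw [e6] at e2
  omega

namespace TreePt

variable {n : ℕ}

section Convex

variable {L : Type*} [Lattice L] {S : Set (TreePt n)} (φ : L ≃o S) (hS : S.OrdConnected)

include φ hS

lemma sup_spec (x y : L) : ∀ z : TreePt n, (φ x).1 ≤ z → (φ y).1 ≤ z → (φ (x ⊔ y)).1 ≤ z := by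
  intro z hx hy
  obtain ⟨j, h1, h2, h3, -⟩ := exists_join _ (φ x).1 (φ y).1 rfl
  have h4 : j ≤ (φ (x ⊔ y)).1 :=
    h3 _ (φ.monotone le_sup_left) (φ.monotone le_sup_right)
  have hj : j ∈ S := hS.out (φ x).2 (φ (x ⊔ y)).2 ⟨h1, h4⟩
  have h5 : x ⊔ y ≤ φ.symm ⟨j, hj⟩ := by
    apply sup_le
    · rw [φ.le_symm_apply]; exact h1
    · rw [φ.le_symm_apply]; exact h2
  rw [φ.le_symm_apply] at h5
  exact (show (φ (x ⊔ y)).1 ≤ j from h5).trans (h3 z hx hy)

lemma inf_spec (x y : L) : ∀ z : TreePt n, z ≤ (φ x).1 → z ≤ (φ y).1 → z ≤ (φ (x ⊓ y)).1 := by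
  intro z hx hy
  obtain ⟨j, h1, h2, h3, -⟩ := exists_meet (φ x).1 (φ y).1
  have h4 : (φ (x ⊓ y)).1 ≤ j :=
    h3 _ (φ.monotone inf_le_left) (φ.monotone inf_le_right)
  have hj : j ∈ S := hS.out (φ (x ⊓ y)).2 (φ x).2 ⟨h4, h1⟩
  have h5 : φ.symm ⟨j, hj⟩ ≤ x ⊓ y := by
    apply le_inf
    · rw [φ.symm_apply_le]; exact h1
    · rw [φ.symm_apply_le]; exact h2
  rw [φ.symm_apply_le] at h5
  exact (h3 z hx hy).trans (show j ≤ (φ (x ⊓ y)).1 from h5)

lemma modular_of_convex : IsModularLattice L := by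
  apply modular_of_rank (fun x => (φ x).1.h)
  · intro x y hxy
    exact h_lt (φ.strictMono hxy)
  · intro x y
    exact rank_eq (φ.monotone le_sup_left) (φ.monotone le_sup_right) (sup_spec φ hS x y)
      (φ.monotone inf_le_left) (φ.monotone inf_le_right) (inf_spec φ hS x y)

lemma breadth_of_convex (hn : 0 < n) : Breadth2 L := by
  intro x y z
  by_contra hcon
  push Not at hcon
  obtain ⟨c1, c2, c3⟩ := hcon
  set u := x ⊔ y ⊔ z with hu
  -- a lower cover above three elements is impossible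
  have key : ∀ i : Fin n, (φ x).1 ≤ star (up i (star (φ u).1)) →
      (φ y).1 ≤ star (up i (star (φ u).1)) → (φ z).1 ≤ star (up i (star (φ u).1)) → False := by
    intro i hx hy hz
    have h1 : (φ u).1 ≤ star (up i (star (φ u).1)) :=
      sup_spec φ hS _ _ _ (sup_spec φ hS _ _ _ hx hy) hz
    rw [le_star'] at h1
    exact absurd (lt_up i (star (φ u).1)) (not_lt_of_ge h1)
  have hlow : ∀ w : L, w ≤ u → u ≠ w → ∃ i : Fin n, (φ w).1 ≤ star (up i (star (φ u).1)) := by
    intro w hw hne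
    have h1 : (φ w).1 < (φ u).1 := φ.strictMono (lt_of_le_of_ne hw hne.symm)
    have h2 : star (φ u).1 < star (φ w).1 := by
      apply lt_of_le_not_ge (star_le.2 h1.le)
      rw [star_le]
      exact not_le_of_gt h1
    obtain ⟨i, hi⟩ := exists_up_le hn h2
    exact ⟨i, le_star'.1 hi⟩
  obtain ⟨i, hi⟩ := hlow (x ⊔ y) le_sup_left c1
  obtain ⟨j, hj⟩ := hlow (x ⊔ z) (sup_le (le_sup_left.trans le_sup_left) le_sup_right) c2
  obtain ⟨k, hk⟩ := hlow (y ⊔ z) (sup_le (le_sup_right.trans le_sup_left) le_sup_right) c3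
  have hmx : (φ x).1 ≤ (φ (x ⊔ y)).1 := φ.monotone le_sup_left
  have hmy : (φ y).1 ≤ (φ (x ⊔ y)).1 := φ.monotone le_sup_right
  have hmx' : (φ x).1 ≤ (φ (x ⊔ z)).1 := φ.monotone le_sup_left
  have hmz' : (φ z).1 ≤ (φ (x ⊔ z)).1 := φ.monotone le_sup_right
  have hmy'' : (φ y).1 ≤ (φ (y ⊔ z)).1 := φ.monotone le_sup_left
  have hmz'' : (φ z).1 ≤ (φ (y ⊔ z)).1 := φ.monotone le_sup_right
  by_cases hij : i = j
  · subst hij
    exact key i (hmx.trans hi) (hmy.trans hi) (hmz'.trans hj)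
  · have h1 : up2 (star (φ u).1) ≤ star (φ x).1 :=
      up2_le_of hij (le_star'.1 (hmx.trans hi)) (le_star'.1 (hmx'.trans hj))
    have h2 : (φ x).1 ≤ star (up k (star (φ u).1)) :=
      le_star'.1 ((up_le_up2 k _).trans h1)
    exact key k h2 (hmy''.trans hk) (hmz''.trans hk)

end Convex

end TreePt

end Pool.Agent.Helper87.ML
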