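import Pool.Agent.Helper87.ML.Prod

set_option autoImplicit false

/-! Uniqueness of the decomposition into reduced models. -/

namespace Pool.Agent.Helper87.ML

open TreePt

/-- a poset with bottom `b` which has an atom, in which there is an atom below every element other
than `b`, and in which there is a third atom on the line of any two -/
structure Adm (K : Type*) [PartialOrder K] (b : K) : Prop where
  bot : ∀ x, b ≤ x
  ex : ∃ a, b ⋖ a
  below : ∀ x, x ≠ b → ∃ a, b ⋖ a ∧ a ≤ x
  third : ∀ p q, b ⋖ p → b ⋖ q → p ≠ q → ∃ r, b ⋖ r ∧ r ≠ p ∧ r ≠ q ∧ ∀ z, p ≤ z → q ≤ z → r ≤ z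

section Unique

open Classical in
/-- the element with one nonzero coordinate -/
noncomputable def sing {ι : Type*} {M : ι → Type*} (b : ∀ i, M i) (i : ι) (x : M i) : ∀ i, M i :=
  Function.update b i x

variable {ι : Type*} {M : ι → Type*} [∀ i, PartialOrder (M i)] {b : ∀ i, M i}

omit [∀ i, PartialOrder (M i)] in
lemma sing_self (i : ι) (x : M i) : sing b i x i = x := by
  simp [sing]

omit [∀ i, PartialOrder (M i)] in
lemma sing_ne {i j : ι} (h : j ≠ i) (x : M i) : sing b i x j = b j := by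
  simp [sing, h]

lemma sing_le_iff (hb : ∀ i x, b i ≤ x) {i : ι} {x : M i} {f : ∀ i, M i} :
    sing b i x ≤ f ↔ x ≤ f i := by
  constructor
  · intro h
    have := h i
    rwa [sing_self] at this
  · intro h j
    by_cases hj : j = i
    · subst hj; rw [sing_self]; exact h
    · rw [sing_ne hj]; exact hb _ _

lemma atom_iff {f : ∀ i, M i} : b ⋖ f ↔ ∃ i a, b i ⋖ a ∧ f = sing b i a := by
  classical
  rw [Pi.covBy_iff_exists_right_eq]
  constructor
  · rintro ⟨i, x, h1, h2⟩
    refine ⟨i, x, h1, ?_⟩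
    rw [h2]; unfold sing
    congr
  · rintro ⟨i, x, h1, h2⟩
    refine ⟨i, x, h1, ?_⟩
    rw [h2]; unfold sing
    congr

lemma atom_sing {i : ι} {a : M i} (h : b i ⋖ a) : b ⋖ sing b i a := atom_iff.2 ⟨i, a, h, rfl⟩

omit [∀ i, PartialOrder (M i)] in
lemma sing_coord [∀ i, PartialOrder (M i)] {i j : ι} {x : M i} {y : M j} (hx : b i ⋖ x)
    (h : sing b i x = sing b j y) : i = j := by
  by_contra hne
  have h1 := congrFun h i
  rw [sing_self, sing_ne hne] at h1
  exact absurd hx.lt (by rw [h1]; exact lt_irrefl _)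

/-- the relation of two atoms -/
def Rel {K : Type*} [PartialOrder K] (b f g : K) : Prop :=
  ∃ h, b ⋖ h ∧ h ≠ f ∧ h ≠ g ∧ ∀ z, f ≤ z → g ≤ z → h ≤ z

lemma rel_coord (hb : ∀ i x, b i ≤ x) {i j : ι} {x : M i} {y : M j} (hx : b i ⋖ x) (hy : b j ⋖ y)
    (h : Rel b (sing b i x) (sing b j y)) : i = j := by
  classical
  by_contra hne
  obtain ⟨f, hf, hfx, hfy, hz⟩ := h
  obtain ⟨k, e, he, rfl⟩ := atom_iff.1 hf
  let z : ∀ i, M i := Function.update (sing b i x) j y
  have h1 : sing b i x ≤ z := by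
    rw [sing_le_iff hb]
    show x ≤ Function.update (sing b i x) j y i
    rw [Function.update_of_ne hne, sing_self]
  have h2 : sing b j y ≤ z := by
    rw [sing_le_iff hb]
    show y ≤ Function.update (sing b i x) j y j
    rw [Function.update_self]
  have h3 := (sing_le_iff hb).1 (hz z h1 h2)
  by_cases hkj : k = j
  · subst hkj
    have h4 : e ≤ y := by
      have : z k = y := Function.update_self _ _ _
      rwa [this] at h3
    rcases eq_or_lt_of_le h4 with h | h
    · exact hfy (by rw [h])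
    · exact hy.2 he.lt h
  · have h4 : z k = sing b i x k := Function.update_of_ne hkj _ _
    rw [h4] at h3
    by_cases hki : k = i
    · subst hki
      rw [sing_self] at h3
      rcases eq_or_lt_of_le h3 with h | h
      · exact hfx (by rw [h])
      · exact hx.2 he.lt h
    · rw [sing_ne hki] at h3
      exact absurd he.lt (not_lt_of_ge h3)

lemma rel_of_coord (hM : ∀ i, Adm (M i) (b i)) {i : ι} {x y : M i} (hx : b i ⋖ x) (hy : b i ⋖ y)
    (hne : x ≠ y) : Rel b (sing b i x) (sing b i y) := by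
  obtain ⟨r, hr, h1, h2, h3⟩ := (hM i).third x y hx hy hne
  have hb : ∀ i x, b i ≤ x := fun i => (hM i).bot
  refine ⟨sing b i r, atom_sing hr, ?_, ?_, ?_⟩
  · intro h
    have := congrFun h i
    rw [sing_self, sing_self] at this
    exact h1 this
  · intro h
    have := congrFun h i
    rw [sing_self, sing_self] at this
    exact h2 this
  · intro z hxz hyz
    rw [sing_le_iff hb] at hxz hyz ⊢
    exact h3 _ hxz hyz

variable {ι' : Type*} {M' : ι' → Type*} [∀ i, PartialOrder (M' i)] {b' : ∀ i, M' i}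

lemma rel_map {K K' : Type*} [PartialOrder K] [PartialOrder K'] (Φ : K ≃o K') {b f g : K}
    {b' : K'} (hb : Φ b = b') (h : Rel b f g) : Rel b' (Φ f) (Φ g) := by
  obtain ⟨h', h1, h2, h3, h4⟩ := h
  refine ⟨Φ h', ?_, fun h => h2 (Φ.injective h), fun h => h3 (Φ.injective h), ?_⟩
  · rw [← hb]; exact (apply_covBy_apply_iff Φ).2 h1
  · intro z hf hg
    rw [← Φ.le_symm_apply] at hf hg ⊢
    exact h4 _ hf hg

theorem prod_unique (hM : ∀ i, Adm (M i) (b i)) (hM' : ∀ i, Adm (M' i) (b' i))
    (Φ : (∀ i, M i) ≃o ∀ i, M' i) : ∃ σ : ι ≃ ι', ∀ i, Nonempty (M i ≃o M' (σ i)) := by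
  have hb : ∀ i x, b i ≤ x := fun i => (hM i).bot
  have hb' : ∀ i x, b' i ≤ x := fun i => (hM' i).bot
  have hΦb : Φ b = b' := by
    apply le_antisymm
    · rw [← Φ.le_symm_apply]
      exact fun i => hb i _
    · exact fun i => hb' i _
  have hΦb' : Φ.symm b' = b := by rw [← hΦb, Φ.symm_apply_apply]
  -- images of atoms
  have himg : ∀ i (a : M i), b i ⋖ a → ∃ j a', b' j ⋖ a' ∧ Φ (sing b i a) = sing b' j a' := by
    intro i a ha
    rw [← atom_iff, ← hΦb]
    exact (apply_covBy_apply_iff Φ).2 (atom_sing ha)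
  have himg' : ∀ j (a' : M' j), b' j ⋖ a' → ∃ i a, b i ⋖ a ∧ Φ.symm (sing b' j a') = sing b i a := by
    intro i a ha
    rw [← atom_iff, ← hΦb']
    exact (apply_covBy_apply_iff Φ.symm).2 (atom_sing ha)
  choose a0 ha0 using fun i => (hM i).ex
  choose σ a1 ha1 hσ using fun i => himg i (a0 i) (ha0 i)
  -- all atoms of a coordinate have their images in the same coordinate
  have hS : ∀ i (a : M i), b i ⋖ a → ∃ a', b' (σ i) ⋖ a' ∧ Φ (sing b i a) = sing b' (σ i) a' := by
    intro i a ha
    by_cases hae : a = a0 i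
    · rw [hae]; exact ⟨a1 i, ha1 i, hσ i⟩
    · obtain ⟨j, a', ha', h⟩ := himg i a ha
      have h1 := rel_map Φ hΦb (rel_of_coord hM ha (ha0 i) hae)
      rw [h, hσ i] at h1
      have h2 := rel_coord hb' ha' (ha1 i) h1
      subst h2
      exact ⟨a', ha', h⟩
  have hinj : Function.Injective σ := by
    intro i k hik
    have hS' : ∀ i (a : M i), b i ⋖ a → ∀ j, σ i = j →
        ∃ a' : M' j, b' j ⋖ a' ∧ Φ (sing b i a) = sing b' j a' := by
      rintro i a ha j rfl
      exact hS i a ha
    obtain ⟨a', ha', h'⟩ := hS' i (a0 i) (ha0 i) _ hik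
    obtain ⟨a'', ha'', h''⟩ := hS k (a0 k) (ha0 k)
    by_cases he : a' = a''
    · subst he
      have h3 : sing b i (a0 i) = sing b k (a0 k) := Φ.injective (h'.trans h''.symm)
      exact sing_coord (ha0 i) h3
    · have h1 := rel_map Φ.symm hΦb' (rel_of_coord hM' ha' ha'' he)
      rw [← h', ← h'', Φ.symm_apply_apply, Φ.symm_apply_apply] at h1
      exact rel_coord hb (ha0 i) (ha0 k) h1
  have hsurj : Function.Surjective σ := by
    intro j
    obtain ⟨a', ha'⟩ := (hM' j).ex
    obtain ⟨i, a, ha, h⟩ := himg' j a' ha'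
    refine ⟨i, ?_⟩
    obtain ⟨a'', ha'', h''⟩ := hS i a ha
    rw [← h, Φ.apply_symm_apply] at h''
    exact (sing_coord ha' h'').symm
  refine ⟨Equiv.ofBijective σ ⟨hinj, hsurj⟩, fun i => ?_⟩
  show Nonempty (M i ≃o M' (σ i))
  -- supports
  have hsupp : ∀ x : M i, Φ (sing b i x) = sing b' (σ i) (Φ (sing b i x) (σ i)) := by
    intro x
    funext j
    by_cases hj : j = σ i
    · subst hj; rw [sing_self]
    · rw [sing_ne hj]
      by_contra hne
      obtain ⟨a', ha', hle⟩ := (hM' j).below _ hne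
      have h1 : sing b' j a' ≤ Φ (sing b i x) := (sing_le_iff hb').2 hle
      rw [← Φ.symm_apply_le] at h1
      obtain ⟨k, a, ha, h2⟩ := himg' j a' ha'
      rw [h2, sing_le_iff hb] at h1
      have hki : k = i := by
        by_contra hki
        rw [sing_ne hki] at h1
        exact absurd ha.lt (not_lt_of_ge h1)
      obtain ⟨a'', ha'', h3⟩ := hS k a ha
      rw [← h2, Φ.apply_symm_apply] at h3
      have h4 := sing_coord ha' h3
      exact hj (h4.trans (by rw [hki]))
  have hsupp' : ∀ y : M' (σ i), Φ.symm (sing b' (σ i) y) = sing b i (Φ.symm (sing b' (σ i) y) i) := by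
    intro y
    funext k
    by_cases hk : k = i
    · subst hk; rw [sing_self]
    · rw [sing_ne hk]
      by_contra hne
      obtain ⟨a, ha, hle⟩ := (hM k).below _ hne
      have h1 : sing b k a ≤ Φ.symm (sing b' (σ i) y) := (sing_le_iff hb).2 hle
      rw [Φ.le_symm_apply] at h1
      obtain ⟨a', ha', h2⟩ := hS k a ha
      rw [h2, sing_le_iff hb'] at h1
      have hne' : σ k ≠ σ i := fun h => hk (hinj h)
      rw [sing_ne hne'] at h1
      exact absurd ha'.lt (not_lt_of_ge h1)
  refine ⟨{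
    toFun := fun x => Φ (sing b i x) (σ i)
    invFun := fun y => Φ.symm (sing b' (σ i) y) i
    left_inv := fun x => ?_
    right_inv := fun y => ?_
    map_rel_iff' := ?_ }⟩
  · show Φ.symm (sing b' (σ i) (Φ (sing b i x) (σ i))) i = x
    rw [← hsupp, Φ.symm_apply_apply, sing_self]
  · show Φ (sing b i (Φ.symm (sing b' (σ i) y) i)) (σ i) = y
    rw [← hsupp', Φ.apply_symm_apply, sing_self]
  · intro x y
    show Φ (sing b i x) (σ i) ≤ Φ (sing b i y) (σ i) ↔ x ≤ y
    rw [← sing_le_iff hb', ← hsupp, Φ.le_iff_le, sing_le_iff hb, sing_self]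

end Unique

end Pool.Agent.Helper87.ML
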